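import Pool.Agent.Lib.DI.F.SpecF
import Pool.Agent.Lib.DI.F.Frac
import Pool.Agent.Lib.DI.F.ResFin

set_option autoImplicit false

/-!
# Theorem DT, part F: linear algebra over the field with three elements; finiteness of residues (complete)
-/

noncomputable section

namespace Pool.Agent.DT.F

open Pool.Agent.MuZ Pool.Agent.DI Pool.Agent.DI.F

namespace Lin3Aux

private theorem ded {R F ι : Type} [CommRing R] [Field F] [Fintype ι] (r : ι → R →+* F)
    (hr : Function.Injective r) (g : ι → F) (h : ∀ x : R, ∑ i, g i * r i x = 0) : g = 0 := by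
  have h1 := (linearIndependent_monoidHom R F).comp (fun i => ((r i : R →+* F) : R →* F)) (by
    intro i j hij
    apply hr
    ext x
    exact DFunLike.congr_fun hij x)
  have h2 := Fintype.linearIndependent_iff.1 h1 g (by
    funext x
    rw [Finset.sum_apply, Pi.zero_apply, ← h x]
    rfl)
  funext i
  exact h2 i

end Lin3Aux

/-- **Linear algebra of F1**, `p = 3`. -/
def S_Lin3 : Prop := ∀ (R F ι : Type) [CommRing R] [Field F] [CharP F 3] [Fintype ι]
  (r : ι → R →+* F), Function.Injective r → (Set.range fun (x : R) (i : ι) => r i x).Finite →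
  (∀ x : R, ∃ n : ℕ, ∑ i, r i x = (n : F)) →
  ∀ (k : ι → F) (S : Set R), (∃ i, k i ≠ 0) → (∀ w ∈ S, ∑ i, k i * r i w = 0) →
    ∃ b : R, (∃ i, r i b ≠ 0) ∧ ∀ w ∈ S, ∑ i, r i b * r i w = 0

open Lin3Aux in
theorem tLin3 : S_Lin3 := by
  classical
  intro R F ι _ _ _ _ r hr hfin hval k S hk hS
  let _ : Algebra (ZMod 3) F := ZMod.algebra F 3
  have hinj : Function.Injective (algebraMap (ZMod 3) F) := (algebraMap (ZMod 3) F).injective
  -- the image
  let Φ : R →+ (ι → F) :=
    { toFun := fun x i => r i x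
      map_zero' := by
        funext i
        exact map_zero (r i)
      map_add' := by
        intro x y
        funext i
        exact map_add (r i) x y }
  have hΦ : ∀ x i, Φ x i = r i x := fun _ _ => rfl
  let U : Submodule (ZMod 3) (ι → F) := AddSubgroup.toZModSubmodule 3 Φ.range
  have hmem : ∀ v : ι → F, v ∈ U ↔ ∃ x, Φ x = v := by
    intro v
    change v ∈ Φ.range ↔ _
    exact AddMonoidHom.mem_range
  have : Finite U := by
    have h1 : (U : Set (ι → F)) = Set.range fun (x : R) (i : ι) => r i x := by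
      ext v
      rw [SetLike.mem_coe, hmem]
      rfl
    have h2 : (U : Set (ι → F)).Finite := by
      rw [h1]
      exact hfin
    exact h2.to_subtype
  have : Module.Finite (ZMod 3) U := Module.Finite.of_finite
  -- the form
  have hform : ∀ u v : U, ∃ c : ZMod 3, algebraMap (ZMod 3) F c = ∑ i, u.1 i * v.1 i := by
    intro u v
    obtain ⟨x, hx⟩ := (hmem u.1).1 u.2
    obtain ⟨y, hy⟩ := (hmem v.1).1 v.2
    have h1 : ∑ i, u.1 i * v.1 i = ∑ i, r i (x * y) := by
      refine Finset.sum_congr rfl fun i _ => ?_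
      rw [← hx, ← hy, hΦ, hΦ, map_mul]
    rw [h1]
    obtain ⟨n, hn⟩ := hval (x * y)
    exact ⟨n, by rw [map_natCast, hn]⟩
  choose B hB using hform
  let t : U →ₗ[ZMod 3] Module.Dual (ZMod 3) U := LinearMap.mk₂ (ZMod 3) B
    (by
      intro u u' v
      apply hinj
      rw [map_add, hB, hB, hB, ← Finset.sum_add_distrib]
      refine Finset.sum_congr rfl fun i _ => ?_
      simp only [Submodule.coe_add, Pi.add_apply]
      ring)
    (by
      intro c u v
      apply hinj
      rw [smul_eq_mul, map_mul, hB, hB, Finset.mul_sum]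
      refine Finset.sum_congr rfl fun i _ => ?_
      simp only [Submodule.coe_smul, Pi.smul_apply, Algebra.smul_def]
      ring)
    (by
      intro u v v'
      apply hinj
      rw [map_add, hB, hB, hB, ← Finset.sum_add_distrib]
      refine Finset.sum_congr rfl fun i _ => ?_
      simp only [Submodule.coe_add, Pi.add_apply]
      ring)
    (by
      intro c u v
      apply hinj
      rw [smul_eq_mul, map_mul, hB, hB, Finset.mul_sum]
      refine Finset.sum_congr rfl fun i _ => ?_
      simp only [Submodule.coe_smul, Pi.smul_apply, Algebra.smul_def]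
      ring)
  have ht : ∀ u v, algebraMap (ZMod 3) F (t u v) = ∑ i, u.1 i * v.1 i := fun u v => hB u v
  have htinj : Function.Injective t := by
    rw [injective_iff_map_eq_zero]
    intro u hu
    have h1 : u.1 = 0 := by
      apply ded r hr u.1
      intro x
      have h2 := ht u ⟨Φ x, (hmem _).2 ⟨x, rfl⟩⟩
      rw [hu, LinearMap.zero_apply, map_zero] at h2
      exact h2.symm
    exact Subtype.ext h1
  have htsurj : Function.Surjective t :=
    (LinearMap.injective_iff_surjective_of_finrank_eq_finrank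
      (Subspace.dual_finrank_eq (K := ZMod 3) (V := U)).symm).1 htinj
  -- the functional
  obtain ⟨x0, hx0⟩ : ∃ x0 : R, ∑ i, k i * r i x0 ≠ 0 := by
    by_contra hne
    push Not at hne
    obtain ⟨i, hi⟩ := hk
    have h1 := ded r hr k hne
    exact hi (congrFun h1 i)
  obtain ⟨m, hm⟩ : ∃ m : Module.Dual (ZMod 3) F, m (∑ i, k i * r i x0) ≠ 0 := by
    by_contra hne
    push Not at hne
    exact hx0 ((Module.forall_dual_apply_eq_zero_iff (ZMod 3) _).1 hne)
  let kap : U →ₗ[ZMod 3] F :=
    { toFun := fun v => ∑ i, k i * v.1 i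
      map_add' := by
        intro v v'
        rw [← Finset.sum_add_distrib]
        refine Finset.sum_congr rfl fun i _ => ?_
        simp only [Submodule.coe_add, Pi.add_apply]
        ring
      map_smul' := by
        intro c v
        rw [RingHom.id_apply, Algebra.smul_def, Finset.mul_sum]
        refine Finset.sum_congr rfl fun i _ => ?_
        simp only [Submodule.coe_smul, Pi.smul_apply, Algebra.smul_def]
        ring }
  obtain ⟨u, hu⟩ := htsurj (m.comp kap)
  obtain ⟨b, hb⟩ := (hmem u.1).1 u.2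
  refine ⟨b, ?_, ?_⟩
  · by_contra hne
    push Not at hne
    have h1 : u = 0 := by
      apply Subtype.ext
      rw [← hb]
      funext i
      exact hne i
    rw [h1, map_zero] at hu
    have h2 := LinearMap.congr_fun hu ⟨Φ x0, (hmem _).2 ⟨x0, rfl⟩⟩
    apply hm
    rw [LinearMap.zero_apply] at h2
    exact h2.symm
  · intro w hw
    have h1 := ht u ⟨Φ w, (hmem _).2 ⟨w, rfl⟩⟩
    have h2 : t u ⟨Φ w, (hmem _).2 ⟨w, rfl⟩⟩ = m (∑ i, k i * r i w) := by
      rw [hu]
      rfl
    rw [h2, hS w hw, map_zero, map_zero] at h1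
    rw [h1]
    refine Finset.sum_congr rfl fun i _ => ?_
    rw [← hb]
    rfl

/-- The residue field has characteristic `3`. -/
theorem charP_RF3 {P : Ideal ZZ} (hP : P.IsPrime) (h0 : P ≠ ⊥) (h3 : (3 : ZZ) ∈ P) :
    CharP (RF hP h0) 3 := by
  have h : ((3 : ℕ) : RF hP h0) = 0 := by
    have h1 : red hP h0 ((3 : ℕ) : Om) = ((3 : ℕ) : RF hP h0) := by
      rw [red_of_vp hP h0 (vp_natCast hP 3)]
      have e : (⟨((3 : ℕ) : Om), vp_natCast hP 3⟩ : VS hP h0) = ((3 : ℕ) : VS hP h0) := rfl
      rw [e, map_natCast]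
    rw [← h1, red_eq_zero_iff hP h0 (vp_natCast hP 3)]
    have h2 : MP P ((3 : ZZ) : Om) := (mp_coe hP 3).2 h3
    exact_mod_cast h2
  exact (CharP.charP_iff_prime_eq_zero Nat.prime_three).2 h

open ResFinAux in
/-- Finiteness of residues. -/
theorem tResFin3 (P : Ideal ZZ) (hP : P.IsPrime) (h0 : P ≠ ⊥) (h3 : (3 : ZZ) ∈ P)
    (L : IntermediateField ℚ Om) (hfd : FiniteDimensional ℚ L) :
    {y : RF hP h0 | ∃ x ∈ L, VP P x ∧ red hP h0 x = y}.Finite := by
  have hnf : NumberField L := { to_charZero := inferInstance, to_finiteDimensional := hfd }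
  have hker : RingHom.ker (ψ hP h0 L) ≠ ⊥ := by
    intro h
    have h4 : (3 : NumberField.RingOfIntegers L) ∈ RingHom.ker (ψ hP h0 L) := by
      rw [RingHom.mem_ker, map_ofNat]
      have := charP_RF3 hP h0 h3
      have e := CharP.cast_eq_zero (RF hP h0) 3
      exact_mod_cast e
    rw [h, Ideal.mem_bot] at h4
    have h5 : ((3 : ℕ) : NumberField.RingOfIntegers L) ≠ 0 := Nat.cast_ne_zero.2 (by norm_num)
    exact h5 (by exact_mod_cast h4)
  have hfin : Finite (NumberField.RingOfIntegers L ⧸ RingHom.ker (ψ hP h0 L)) :=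
    Ideal.finiteQuotientOfFreeOfNeBot _ hker
  have hrange : (Set.range (ψ hP h0 L)).Finite := by
    have h4 : Finite (ψ hP h0 L).range :=
      Finite.of_equiv _ (RingHom.quotientKerEquivRange (ψ hP h0 L)).toEquiv
    have h5 : ((ψ hP h0 L).range : Set (RF hP h0)).Finite := Set.toFinite _
    rwa [RingHom.coe_range] at h5
  refine (Set.Finite.image2 (fun a b => a / b) hrange hrange).subset ?_
  rintro y ⟨x, hxL, hx, rfl⟩
  obtain ⟨s, t, hs, ht, htP, hst⟩ := tFrac P hP L hfd x hxL hx
  obtain ⟨a, ha⟩ := lift_mem L s hs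
  obtain ⟨b, hb⟩ := lift_mem L t ht
  refine ⟨ψ hP h0 L a, ⟨a, rfl⟩, ψ hP h0 L b, ⟨b, rfl⟩, ?_⟩
  have h4 : red hP h0 (t : Om) ≠ 0 := by
    intro h
    exact htP ((mp_coe hP t).1 ((red_eq_zero_iff hP h0 (vp_coe hP t)).1 h))
  have h5 : red hP h0 x * red hP h0 (t : Om) = red hP h0 (s : Om) := by
    rw [← red_mul hP h0 hx (vp_coe hP t), hst]
  show ψ hP h0 L a / ψ hP h0 L b = red hP h0 x
  rw [ψ_apply, ψ_apply, ha, hb, div_eq_iff h4, h5]

end Pool.Agent.DT.F
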