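import Pool.Agent.Lib.DT.F.SpecL

/-!
# Theorem DT, part F: module `Al` (the coefficients `cM` are in `K`)
-/

set_option autoImplicit false

noncomputable section

namespace Pool.Agent.DT.F

open Pool.Agent.MuZ Pool.Agent.FW NumberField IsDedekindDomain Pool.Agent.DT
open Pool.Agent.DI (io ofC io_inj exists_io io_ofC ofC_io VP MP UP TP ex)

variable {k t : ℕ}

/-- Elements of `O` are in `K`. -/
theorem Al_toO (v : OO k t) : toO v ∈ KQ k t := by
  rw [toO_apply]
  refine (KQ k t).add_mem ((KQ k t).intCast_mem _)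
    ((KQ k t).mul_mem ((KQ k t).intCast_mem _) ?_)
  exact IntermediateField.mem_adjoin_simple_self ℚ (wO k t)

/-- A torsion point is in `K`. -/
theorem Al_tor [SqT k t] {z : ℂ} (h : Tor k t z) : ∃ x ∈ KQ k t, io x = z := by
  obtain ⟨v, n, _, rfl⟩ := h
  refine ⟨toO v / n, (KQ k t).div_mem (Al_toO v) ((KQ k t).natCast_mem n), ?_⟩
  rw [map_div₀, map_natCast, io_toO]

/-- The base point is a torsion point. -/
theorem Al_v0 [SqT k t] {f : ℕ} (hf : 0 < f) : Tor k t (v0 k t f) := by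
  have h1 : (3 * f : ℂ) * v0 k t f = toC (nu k t f) := nu_v0 hf
  have hf' : (f : ℂ) ≠ 0 := by exact_mod_cast hf.ne'
  have h2 : v0 k t f = toC (nu k t f) / ((3 * f : ℕ) : ℂ) := by
    push_cast
    rw [eq_div_iff (mul_ne_zero (by norm_num) hf'), ← h1]
    ring
  rw [h2]
  exact tor_div (Nat.mul_pos (by norm_num) hf) (nu k t f)

theorem tAl (hC7 : S_C7) : S_Al := by
  intro k t _ f m b hm hb n
  have h7 := (hC7 k t f m b hm hb).2.1
  have hf : 0 < f := hm.pos
  have hmb : m * b ≠ ⊥ := (fb_mul (fm_fb hm) hb).ne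
  have ht : ∀ v ∈ vN f (m * b) n, ∃ x ∈ KQ k t, io x = v := by
    intro v hv
    have h1 : Tor k t (v - v0 k t f) := tor_lam hmb ((h7 n v).1 hv).1
    have h3 := tor_add h1 (Al_v0 hf)
    rw [sub_add_cancel] at h3
    exact Al_tor h3
  have hs : ∃ x ∈ KQ k t, io x = cM f m b n := by
    classical
    choose! g hg hgi using ht
    refine ⟨∑ v ∈ vN f (m * b) n,
      (if v - v0 k t f ∈ Lam b then (1 - NI m : Om) else 1) * (g v)⁻¹, ?_, ?_⟩
    · refine (KQ k t).sum_mem fun v hv => (KQ k t).mul_mem ?_ ((KQ k t).inv_mem (hg v hv))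
      split_ifs
      · exact (KQ k t).sub_mem (KQ k t).one_mem ((KQ k t).natCast_mem _)
      · exact (KQ k t).one_mem
    · unfold cM
      rw [map_sum]
      refine Finset.sum_congr rfl fun v hv => ?_
      rw [map_mul, map_inv₀, hgi v hv]
      by_cases h : v - v0 k t f ∈ Lam b
      · rw [if_pos h, if_pos h, map_sub, map_one, map_natCast]
      · rw [if_neg h, if_neg h, map_one]
  obtain ⟨x, hx, hxc⟩ := hs
  rw [← hxc, ofC_io]
  exact ⟨hx, rfl⟩

end Pool.Agent.DT.F
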