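import Pool.Agent.Lib.DT.F.SpecP

/-! # Theorem DT, part F, module Cjt: Taylor series of conjugate functions -/

set_option autoImplicit false

open Filter Topology

noncomputable section

namespace Pool.Agent.DT.F

open Pool.Agent.DI.F (tay)

theorem tCjt : S_Cjt := by
  intro f hf
  have hc : Tendsto (fun q : ℂ => (starRingEnd ℂ) q) (𝓝 0) (𝓝 0) := by
    have h := Complex.continuous_conj.tendsto 0
    rwa [map_zero] at h
  have h1 := hc.eventually (Pool.Agent.DI.F.tTay.1 f hf)
  refine Pool.Agent.DI.F.tTay.2.1 (cjf f) (PowerSeries.map (starRingEnd ℂ) (tay f)) ?_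
  filter_upwards [h1] with q hq
  have h2 := hq.map (starRingEnd ℂ) Complex.continuous_conj
  have h3 : (fun n : ℕ => PowerSeries.coeff n (PowerSeries.map (starRingEnd ℂ) (tay f)) * q ^ n) =
      (⇑(starRingEnd ℂ) ∘ fun n => PowerSeries.coeff n (tay f) * (starRingEnd ℂ) q ^ n) := by
    funext n
    rw [PowerSeries.coeff_map, Function.comp_apply, map_mul, map_pow, Complex.conj_conj]
  rw [h3]
  exact h2

end Pool.Agent.DT.F
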