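import Pool.Agent.Lib.DT.F.SpecL

/-! DT, part F, module Cls: class functions (helper47).  Adapted from `DK/F/Cls.lean`. -/

set_option autoImplicit false

noncomputable section

namespace Pool.Agent.DT.F

open Pool.Agent.MuZ Pool.Agent.FW NumberField IsDedekindDomain Pool.Agent.DT
open Pool.Agent.DI (io ofC io_inj exists_io io_ofC ofC_io VP MP UP TP ex)

theorem tCls (hR5 : S_R5) (hHm : S_Hm) (hAl : S_Al) : S_Cls := by
  intro k t _ f m b b' hm hb hb' hR n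
  obtain ⟨α, α', h1, h2, h3, h4, h5⟩ := ray_norm hR
  obtain ⟨-, hf1, hc1⟩ := hHm k t f m b hm hb α h1 h3
  obtain ⟨-, hf2, hc2⟩ := hHm k t f m b' hm hb' α' h2 h4
  obtain ⟨hn, -, hr, -⟩ := hR5 k t ⊤ b ⊤ Eb.ne_top hb.ne Eb.ne_top (Eb.pri_top _) (fb_ppb hb)
    (Eb.pri_top _)
  obtain ⟨hn', -, hr', -⟩ := hR5 k t ⊤ b' ⊤ Eb.ne_top hb'.ne Eb.ne_top (Eb.pri_top _) (fb_ppb hb')
    (Eb.pri_top _)
  apply io_inj
  rw [map_mul, map_mul, hr, hr', (hAl k t f m b hm hb n).2, (hAl k t f m b' hm hb' n).2]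
  have e1 : toC α * fr b = toC α' * fr b' := by rw [← hf1, ← hf2, h5]
  have e2 : toC α * cM f m b n = toC α' * cM f m b' n := by rw [← hc1 n, ← hc2 n, h5]
  have hα : toC α ≠ 0 := fun h => h1 (toC_eq_zero.1 h)
  rw [div_mul_eq_mul_div, div_mul_eq_mul_div, div_eq_div_iff hn hn']
  refine mul_left_cancel₀ hα ?_
  linear_combination (fr (⊤ : Ideal (OO k t)) * fr b') * e2 -
    (fr (⊤ : Ideal (OO k t)) * cM f m b' n) * e1

end Pool.Agent.DT.F
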