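import Pool.Agent.Lib.DT.F.SpecL

/-!
# Theorem DT, part F, module CoL: the coefficients are in `Kf`
-/

set_option autoImplicit false

open scoped Pointwise Topology

noncomputable section

namespace Pool.Agent.DT.F

open Pool.Agent.MuZ Pool.Agent.FW NumberField IsDedekindDomain Pool.Agent.DT
open Pool.Agent.DI (io ofC io_inj exists_io io_ofC ofC_io VP MP UP TP ex)

/-- The quotients `fr ⊤ / fr b` depend only on the class. -/
private theorem CoL_quot {A A' x y u v : ℂ} (hA : A ≠ 0) (hA' : A' ≠ 0) (hy : y ≠ 0) (hv : v ≠ 0)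
    (h1 : A * x = A' * u) (h2 : A * y = A' * v) : x / y = u / v := by
  rw [div_eq_div_iff hy hv]
  apply mul_left_cancel₀ (mul_ne_zero hA hA')
  linear_combination (A' * v) * h1 - (A' * u) * h2

theorem tCoL (hKf : S_Kf) (hE10 : S_E10) (hR5 : S_R5) (hHm : S_Hm) (hAl : S_Al) : S_CoL := by
  intro k t _ f m R hm hR σ hσ N0 β hβ
  obtain ⟨-, -, -, hst, -, -, -, -, -, -⟩ := hKf k t f hm.toFok
  -- elements of `KQ k t`
  have hKQ : ∀ x ∈ KQ k t, x ∈ Kf k t f := by
    intro x hx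
    rw [kf_mem]
    intro τ hτ a _ _
    exact (IntermediateField.mem_fixingSubgroup_iff (KQ k t) τ).1 hτ x hx
  have h1 : ∀ b : Ideal (OO k t), FB f b → rO b ⊤ ∈ Kf k t f := by
    intro b hb
    rw [kf_mem]
    intro τ hτ a hpsi hray
    have ha : FB f a := fb_psi hpsi
    have htop : FB f (⊤ : Ideal (OO k t)) := fb_top f
    have h2 := ((hE10 k t τ (cnd k t f) a (cnd_ne hm.pos) hτ hpsi).2.1 (cnd_le_ppb f)).1 b ⊤ hb.ne
      (fb_ppb hb) htop.ne (fb_ppb htop)
    obtain ⟨α, α', hα, hα', hα1, hα1', hab⟩ := ray_norm hray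
    have h3 := (hHm k t f m (a * b) hm (fb_mul ha hb) α hα hα1).2.1
    have h4 := (hHm k t f m b hm hb α' hα' hα1').2.1
    have h5 := (hHm k t f m a hm ha α hα hα1).2.1
    have h6 := (hHm k t f m ⊤ hm htop α' hα' hα1').2.1
    have e1 : sp α * (a * b) = sp α' * b := by
      rw [← mul_assoc, hab, Ideal.mul_top]
    rw [e1, h4] at h3
    rw [hab, h6] at h5
    have h7 := (hR5 k t ⊤ (a * b) b Eb.ne_top (fb_mul ha hb).ne hb.ne (Eb.pri_top _)
      (fb_ppb (fb_mul ha hb)) (fb_ppb hb)).1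
    have h8 := (hR5 k t ⊤ b b Eb.ne_top hb.ne hb.ne (Eb.pri_top _) (fb_ppb hb) (fb_ppb hb)).1
    rw [h2, Ideal.mul_top]
    unfold rO
    rw [CoL_quot (toC_ne hα) (toC_ne hα') h7 h8 h5.symm h3.symm]
  refine ⟨h1, fun n => ?_⟩
  unfold aF
  refine mul_mem (natCast_mem _ _) (sum_mem fun b hb => ?_)
  have hfb := rc_fb hR hb
  exact mul_mem (mul_mem (hst _ (hσ.mem b hfb) β hβ) (h1 b hfb)) (hKQ _ (hAl k t f m b hm hfb n).1)

end Pool.Agent.DT.F
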