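import Pool.Agent.Lib.DT.F.SpecP

/-! # Theorem DT, part F, module Cub: cube roots of power series -/

set_option autoImplicit false

noncomputable section

namespace Pool.Agent.DT.F

open Pool.Agent.DI.F (Cf)

private lemma Cub_mul (K : Subfield ℂ) (p q : PowerSeries ℂ) (hp : Cf K p) (hq : Cf K q) :
    Cf K (p * q) := by
  intro n
  rw [PowerSeries.coeff_mul]
  exact K.sum_mem fun x _ => K.mul_mem (hp _) (hq _)

theorem tCub : S_Cub := by
  intro K p h0 hne hC n
  induction n using Nat.strong_induction_on with
  | _ n ih =>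
    rcases Nat.eq_zero_or_pos n with hn | hn
    · rw [hn]
      exact h0
    · let T : PowerSeries ℂ := PowerSeries.mk fun m => if m < n then PowerSeries.coeff m p else 0
      have hT : Cf K T := by
        intro m
        rw [PowerSeries.coeff_mk]
        split_ifs with h
        · exact ih m h
        · exact K.zero_mem
      obtain ⟨S, hS⟩ : (PowerSeries.X : PowerSeries ℂ) ^ n ∣ p - T := by
        rw [PowerSeries.X_pow_dvd_iff]
        intro m hm
        rw [map_sub, PowerSeries.coeff_mk, if_pos hm, sub_self]
      have hS0 : PowerSeries.coeff 0 S = PowerSeries.coeff n p := by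
        have h1 := congrArg (PowerSeries.coeff n) hS
        rw [map_sub, PowerSeries.coeff_mk, if_neg (lt_irrefl n), sub_zero] at h1
        have h2 := PowerSeries.coeff_X_pow_mul S n 0
        rw [zero_add] at h2
        rw [← h2, ← h1]
      have hT0 : PowerSeries.coeff 0 T = PowerSeries.coeff 0 p := by
        rw [PowerSeries.coeff_mk, if_pos hn]
      have h3 : p ^ 3 = T * T * T + PowerSeries.X ^ n * (3 * (T * T * S) +
          PowerSeries.X ^ n * (3 * (T * S * S) + PowerSeries.X ^ n * (S * S * S))) := by
        have h4 : p = T + PowerSeries.X ^ n * S := by rw [← hS]; ring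
        rw [h4]
        ring
      have h5 := hC n
      rw [h3, map_add] at h5
      have h6 : PowerSeries.coeff n (PowerSeries.X ^ n * (3 * (T * T * S) +
          PowerSeries.X ^ n * (3 * (T * S * S) + PowerSeries.X ^ n * (S * S * S)))) =
          3 * PowerSeries.coeff 0 p ^ 2 * PowerSeries.coeff n p := by
        have h7 := PowerSeries.coeff_X_pow_mul (3 * (T * T * S) +
          PowerSeries.X ^ n * (3 * (T * S * S) + PowerSeries.X ^ n * (S * S * S))) n 0
        rw [zero_add] at h7
        rw [h7]
        have h8 : PowerSeries.coeff 0 (PowerSeries.X ^ n : PowerSeries ℂ) = 0 := by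
          rw [PowerSeries.coeff_X_pow, if_neg hn.ne]
        simp only [PowerSeries.coeff_zero_eq_constantCoeff, map_add, map_mul, map_ofNat] at h8 hT0 hS0 ⊢
        rw [h8, hT0, hS0]
        ring
      rw [h6] at h5
      have h9 := K.sub_mem h5 (Cub_mul K _ _ (Cub_mul K _ _ hT hT) hT n)
      rw [add_sub_cancel_left] at h9
      have h10 : (3 : ℂ) * PowerSeries.coeff 0 p ^ 2 ∈ K :=
        K.mul_mem (ofNat_mem K 3) (K.pow_mem h0 2)
      have h11 : PowerSeries.coeff n p = (3 * PowerSeries.coeff 0 p ^ 2)⁻¹ *
          (3 * PowerSeries.coeff 0 p ^ 2 * PowerSeries.coeff n p) := by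
        rw [inv_mul_cancel_left₀ (mul_ne_zero three_ne_zero (pow_ne_zero 2 hne))]
      rw [h11]
      exact K.mul_mem (K.inv_mem h10) h9

end Pool.Agent.DT.F
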