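import Pool.Agent.Lib.DT.F.SpecG

/-!
# Theorem DT (`p = 3`), part F: the function `G`, author helper9

`y² + A₁ x y + y = x³` the curve of the lattice `𝔭̄⁻¹`, `x = X(z/3)`; `G = (ρ y + 3 x)/(3 x + ρ)` satisfies `G³ = Y(z)`.
-/

set_option autoImplicit false
set_option linter.unusedSectionVars false

open scoped Pointwise Topology MatrixGroups
open Filter

noncomputable section

namespace Pool.Agent.DT.F

open Pool.Agent.MuZ Pool.Agent.FW NumberField IsDedekindDomain Pool.Agent.DT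
open Pool.Agent.DI (io ofC io_inj exists_io io_ofC ofC_io VP MP UP TP ex)

namespace GtAux

theorem ident {x y A r : ℂ} (h1 : y ^ 2 + A * x * y + y = x ^ 3)
    (h2 : r ^ 3 = A ^ 2 * r ^ 2 - 9 * A * r + 27) :
    2 * (r * y + 3 * x) ^ 3 =
      (2 * y + A * x + 1) * r ^ 2 * (r * x ^ 3 + r ^ 2 * x ^ 2 + (2 * (A * r - 6) + 3) * x + r)
      - (A * r - 6) * (x * (r ^ 2 * x ^ 2 + 3 * ((A * r - 6) + 3) * x + 3 * r)) * (3 * x + r)
      - (3 * x + r) ^ 3 := by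
  linear_combination (2 * r ^ 3 * y + 18 * r ^ 2 * x - 2 * r ^ 3 * (A * x + 1)) * h1 +
    (-2 * r * x ^ 2 * y - 9 * x ^ 3 - r * x ^ 2) * h2

/-- The final computation. `x, w1'` on the curve of `ppb`, `X`, `W'` on the curve of `⊤`. -/
theorem final {x wd Wd A a r c X : ℂ} (hr : r ≠ 0) (hc : c ≠ 0) (hD : 3 * x + r ≠ 0)
    (ha : A * r = a + 6) (hr3 : r ^ 3 = a ^ 2 + 3 * a + 9)
    (hw : wd ^ 2 = (r ^ 3 * c) ^ 2 * (4 * x ^ 3 + (A * x + 1) ^ 2))
    (hX : X * (3 * x + r) ^ 2 = x * (r ^ 2 * x ^ 2 + 3 * (a + 3) * x + 3 * r))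
    (hW : 27 * Wd * (3 * x + r) ^ 3 * r = 27 * wd * (r * x ^ 3 + r ^ 2 * x ^ 2 + (2 * a + 3) * x + r)) :
    ((r * ((wd / (r ^ 3 * c) - A * x - 1) / 2) + 3 * x) / (3 * x + r)) ^ 3 =
      (Wd / c - a * X - 1) / 2 := by
  have hrc : r ^ 3 * c ≠ 0 := mul_ne_zero (pow_ne_zero _ hr) hc
  set w := wd / (r ^ 3 * c) with hwd
  have hwd' : wd = w * (r ^ 3 * c) := by rw [hwd]; field_simp
  have hw2 : w ^ 2 = 4 * x ^ 3 + (A * x + 1) ^ 2 := by
    have h1 : (r ^ 3 * c) ^ 2 * w ^ 2 = (r ^ 3 * c) ^ 2 * (4 * x ^ 3 + (A * x + 1) ^ 2) := by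
      rw [← hw, hwd']
      ring
    exact mul_left_cancel₀ (pow_ne_zero 2 hrc) h1
  set y := (w - A * x - 1) / 2 with hy
  have hwy : w = 2 * y + A * x + 1 := by rw [hy]; ring
  have h1 : y ^ 2 + A * x * y + y = x ^ 3 := by
    rw [hwy] at hw2
    linear_combination hw2 / 4
  have haA : a = A * r - 6 := by linear_combination -ha
  have h2 : r ^ 3 = A ^ 2 * r ^ 2 - 9 * A * r + 27 := by
    rw [hr3, haA]
    ring
  have h3 := ident h1 h2
  rw [← haA] at h3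
  -- `W`
  set W := Wd / c with hWd
  have hWd' : Wd = W * c := by rw [hWd]; field_simp
  have h4 : W * (3 * x + r) ^ 3 =
      (2 * y + A * x + 1) * r ^ 2 * (r * x ^ 3 + r ^ 2 * x ^ 2 + (2 * a + 3) * x + r) := by
    have h5 : (r * c) * (W * (3 * x + r) ^ 3) = (r * c) *
        ((2 * y + A * x + 1) * r ^ 2 * (r * x ^ 3 + r ^ 2 * x ^ 2 + (2 * a + 3) * x + r)) := by
      rw [hWd', hwd', hwy] at hW
      linear_combination hW / 27
    exact mul_left_cancel₀ (mul_ne_zero hr hc) h5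
  rw [div_pow, div_eq_iff (pow_ne_zero 3 hD)]
  have h6 : a * X * (3 * x + r) ^ 3 =
      a * (x * (r ^ 2 * x ^ 2 + 3 * (a + 3) * x + 3 * r)) * (3 * x + r) := by
    rw [← hX]
    ring
  have h7 : 2 * (r * y + 3 * x) ^ 3 =
      W * (3 * x + r) ^ 3 - a * X * (3 * x + r) ^ 3 - (3 * x + r) ^ 3 := by
    rw [h4, h6, h3]
  linear_combination h7 / 2

variable {k t : ℕ} [SqT k t]

theorem pq_eq : pp k t * ppb k t = sp ((3 : ℕ) : OO k t) * ⊤ := by
  rw [Ideal.mul_top]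
  exact pp_mul_ppb

theorem toC3 : toC ((3 : ℕ) : OO k t) = 3 := by
  rw [toC_nat]
  norm_num

theorem three_ne : ((3 : ℕ) : OO k t) ≠ 0 := by
  intro h
  have := toC3 (k := k) (t := t)
  rw [h, toC_zero] at this
  norm_num at this

/-- `z/3` in the lattice of `𝔭𝔭̄ = 3`. -/
theorem div3 {z : ℂ} : z / 3 ∈ Lam (pp k t * ppb k t) ↔ z ∈ Lam (⊤ : Ideal (OO k t)) := by
  rw [pq_eq, lam_sp, toC3]
  rw [mul_div_cancel₀ z (by norm_num)]

theorem div3' {z : ℂ} (hz : z ∉ Lam (⊤ : Ideal (OO k t))) : z / 3 ∉ Lam (ppb k t) :=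
  fun h => hz (div3.1 (lam_mono h))

/-- `w²(S₀) = r²(⊤)³`. -/
theorem c0_sq (hB1 : S_B1) (hB12 : S_B12) :
    wdC (⊤ : Ideal (OO k t)) (S0 k t) ≠ 0 ∧
      wdC (⊤ : Ideal (OO k t)) (S0 k t) ^ 2 = r2 (⊤ : Ideal (OO k t)) ^ 3 := by
  obtain ⟨h1, h2, -⟩ := hB12 k t ⊤ Eb.ne_top (Eb.pri_top _)
  obtain ⟨p1, p2, -, -, -, p6, -⟩ := hB1 k t ⊤ Eb.ne_top
  refine ⟨h2, ?_⟩
  rw [p6]
  rcases h1 with h1 | h1
  · have h3 := (p1 (ptS (⊤ : Ideal (OO k t))) _ h1).2.1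
    rw [add_sub_cancel] at h3
    rw [h3]
  · have h3 := (p1 (-ptS (⊤ : Ideal (OO k t))) _ h1).2.1
    rw [show -ptS (⊤ : Ideal (OO k t)) + (S0 k t + ptS (⊤ : Ideal (OO k t))) = S0 k t by ring,
      (p2 _).2.1] at h3
    rw [h3]
    ring

/-- The function `g`. -/
def gg (k t : ℕ) (z : ℂ) : ℂ :=
  (rhC (⊤ : Ideal (OO k t)) * ((wdC (ppb k t) (z / 3) /
    (rhC (⊤ : Ideal (OO k t)) ^ 3 * wdC (⊤ : Ideal (OO k t)) (S0 k t)) -
      AC (ppb k t) * XC (ppb k t) (z / 3) - 1) / 2) + 3 * XC (ppb k t) (z / 3)) /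
    (3 * XC (ppb k t) (z / 3) + rhC (⊤ : Ideal (OO k t)))

open Classical in
/-- The function `G`. -/
def GG (k t : ℕ) (z : ℂ) : ℂ := if z ∈ Lam (⊤ : Ideal (OO k t)) then 0 else gg k t z

theorem GG_of_mem {z : ℂ} (hz : z ∈ Lam (⊤ : Ideal (OO k t))) : GG k t z = 0 := if_pos hz

theorem GG_of_not {z : ℂ} (hz : z ∉ Lam (⊤ : Ideal (OO k t))) : GG k t z = gg k t z := if_neg hz

theorem top_eq : ∀ b : Ideal (OO k t), b * ⊤ = b := fun b => Ideal.mul_top b

theorem rh_eq (hB7 : S_B7) : rhC (pp k t * ppb k t) = rhC (⊤ : Ideal (OO k t)) ∧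
    AC (pp k t * ppb k t) = AC (⊤ : Ideal (OO k t)) ∧
    r2 (pp k t * ppb k t) = 9 * r2 (⊤ : Ideal (OO k t)) ∧
    ∀ z : ℂ, XC (pp k t * ppb k t) z = XC (⊤ : Ideal (OO k t)) (3 * z) ∧
      wdC (pp k t * ppb k t) z = 27 * wdC (⊤ : Ideal (OO k t)) (3 * z) := by
  obtain ⟨h1, h2, h3, -, -, h6⟩ := (hB7 k t ⊤ Eb.ne_top).1 _ (three_ne (k := k) (t := t))
  rw [toC3] at h1 h6
  rw [pq_eq]
  refine ⟨h3, h2, ?_, fun z => ⟨(h1 z).1, ?_⟩⟩
  · rw [h6]
    norm_num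
  · rw [(h1 z).2.1]
    norm_num

theorem D_ne (hB6 : S_B6) (hB7 : S_B7) {z : ℂ} (hz : z ∉ Lam (⊤ : Ideal (OO k t))) :
    3 * XC (ppb k t) (z / 3) + rhC (⊤ : Ideal (OO k t)) ≠ 0 := by
  have h := ((hB6 k t (ppb k t) ppb_ne).2.2.2.2.2.2.2 (z / 3) (fun h => hz (div3.1 h))).1
  rwa [(rh_eq hB7).1] at h

theorem gg_cube (hB1 : S_B1) (hB2 : S_B2) (hB6 : S_B6) (hB7 : S_B7) (hB12 : S_B12) {z : ℂ}
    (hz : z ∉ Lam (⊤ : Ideal (OO k t))) : gg k t z ^ 3 = YC k t z := by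
  obtain ⟨e1, e2, e3, e4⟩ := rh_eq (k := k) (t := t) hB7
  obtain ⟨hc, hc2⟩ := c0_sq (k := k) (t := t) hB1 hB12
  obtain ⟨q1, q2, q3, -, -, -, q7, q8⟩ := hB6 k t (ppb k t) ppb_ne
  obtain ⟨r1, r2', -, r4⟩ := q8 (z / 3) (fun h => hz (div3.1 h))
  rw [e1] at q1 q2 q3 q7 r1 r2' r4
  rw [e2] at q2 q3 r2' r4
  rw [e3] at q7
  rw [(e4 _).1] at r2'
  rw [(e4 _).2] at r4
  rw [mul_div_cancel₀ z (by norm_num : (3 : ℂ) ≠ 0)] at r2' r4
  have hcv := (hB2 k t (ppb k t) ppb_ne (z / 3) (div3' hz)).1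
  have h9 : r2 (ppb k t) = rhC (⊤ : Ideal (OO k t)) ^ 2 * r2 (⊤ : Ideal (OO k t)) := by
    linear_combination -q7 / 9
  refine final q1 hc r1 q3 q2 ?_ r2' r4
  rw [hcv, h9, mul_pow _ (wdC (⊤ : Ideal (OO k t)) (S0 k t)), hc2]
  unfold WC2
  ring

/-- Periods: `z` and `z + α`, `α` in `𝔭`. -/
theorem gg_per (hB1 : S_B1) (z : ℂ) {α : OO k t} (hα : α ∈ pp k t) : gg k t (z + toC α) = gg k t z := by
  have h1 : toC α / 3 ∈ Lam (ppb k t) := by
    intro v hv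
    have h2 : α * v ∈ pp k t * ppb k t := Ideal.mul_mem_mul hα hv
    rw [pp_mul_ppb] at h2
    obtain ⟨u, hu⟩ := Ideal.mem_span_singleton'.1 h2
    refine ⟨u, ?_⟩
    have h3 : toC α * toC v = toC u * 3 := by
      rw [← toC_mul, ← hu, toC_mul, toC3]
    rw [mul_div_assoc', mul_comm (toC v), h3]
    field_simp
  obtain ⟨p1, -⟩ := hB1 k t (ppb k t) ppb_ne
  have e : (z + toC α) / 3 = z / 3 + toC α / 3 := add_div _ _ _
  unfold gg
  rw [e, (p1 _ _ h1).2.1, (p1 _ _ h1).2.2]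

theorem GG_per (hB1 : S_B1) (z : ℂ) {α : OO k t} (hα : α ∈ pp k t) : GG k t (z + toC α) = GG k t z := by
  have hm : toC α ∈ Lam (⊤ : Ideal (OO k t)) := lam_top.2 ⟨α, rfl⟩
  by_cases hz : z ∈ Lam (⊤ : Ideal (OO k t))
  · rw [GG_of_mem hz, GG_of_mem (lam_add hz hm)]
  · rw [GG_of_not hz, GG_of_not (fun h => hz ?_), gg_per hB1 z hα]
    have := lam_sub h hm
    rwa [add_sub_cancel_right] at this

theorem YC_per (hB1 : S_B1) (z : ℂ) {l : ℂ} (hl : l ∈ Lam (⊤ : Ideal (OO k t))) :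
    YC k t (z + l) = YC k t z := by
  obtain ⟨p1, -⟩ := hB1 k t ⊤ Eb.ne_top
  unfold YC
  rw [(p1 z l hl).2.1, (p1 z l hl).2.2]

/-- Meromorphy. -/
theorem mero (k t : ℕ) [SqT k t] : Meromorphic (GG k t) := by
  intro z
  have hX : ∀ b : Ideal (OO k t), Meromorphic (XC b) := by
    intro b
    have h1 : Meromorphic (wpC b) := (LP b).meromorphic_weierstrassP
    unfold XC
    fun_prop
  have hx : MeromorphicAt (fun z => XC (ppb k t) (z / 3)) z :=
    MeromorphicAt.comp_analyticAt (f := XC (ppb k t)) (g := fun z => z / 3) (hX _ _) (by fun_prop)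
  have hw : MeromorphicAt (fun z => wdC (ppb k t) (z / 3)) z :=
    MeromorphicAt.comp_analyticAt (f := wdC (ppb k t)) (g := fun z => z / 3)
      ((LP (ppb k t)).meromorphic_derivWeierstrassP _) (by fun_prop)
  have hg : MeromorphicAt (gg k t) z := by
    unfold gg
    fun_prop
  refine hg.congr ?_
  have h1 := (LP (⊤ : Ideal (OO k t))).compl_lattice_sdiff_singleton_mem_nhds z
  rw [aL1 k t ⊤ Eb.ne_top] at h1
  filter_upwards [mem_nhdsWithin_of_mem_nhds h1, self_mem_nhdsWithin] with u hu hu'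
  rw [GG_of_not]
  intro h
  exact hu ⟨h, hu'⟩

theorem cont (hB2 : S_B2) (hB6 : S_B6) (hB7 : S_B7) {z : ℂ} (hz : z ∉ Lam (⊤ : Ideal (OO k t))) :
    ContinuousAt (GG k t) z := by
  have h1 := (LP (⊤ : Ideal (OO k t))).isClosed_lattice
  rw [aL1 k t ⊤ Eb.ne_top] at h1
  have h2 : GG k t =ᶠ[𝓝 z] gg k t := by
    filter_upwards [h1.isOpen_compl.mem_nhds hz] with u hu
    exact GG_of_not hu
  refine ContinuousAt.congr ?_ h2.symm
  obtain ⟨-, h3, h4, -⟩ := hB2 k t (ppb k t) ppb_ne (z / 3) (div3' hz)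
  have h5 : ContinuousAt (fun z => XC (ppb k t) (z / 3)) z :=
    ContinuousAt.comp (f := fun z => z / 3) (g := XC (ppb k t)) h3.continuousAt (by fun_prop)
  have h6 : ContinuousAt (fun z => wdC (ppb k t) (z / 3)) z :=
    ContinuousAt.comp (f := fun z => z / 3) (g := wdC (ppb k t)) h4.continuousAt (by fun_prop)
  unfold gg
  refine ContinuousAt.div ?_ ?_ (D_ne hB6 hB7 hz)
  · fun_prop
  · fun_prop

/-- The set of the bad points. -/
def bad (k t : ℕ) : Set ℂ := {z | z ∈ Lam (⊤ : Ideal (OO k t)) ∨ YC k t z = 0}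

theorem lam_countable : (Lam (⊤ : Ideal (OO k t))).Countable := by
  have h1 : Lam (⊤ : Ideal (OO k t)) ⊆ Set.range (fun p : ℤ × ℤ => (p.1 : ℂ) + p.2 * wC k t) := by
    intro z hz
    obtain ⟨v, rfl⟩ := lam_top.1 hz
    exact ⟨(v.re, v.im), rfl⟩
  exact (Set.countable_range _).mono h1

theorem bad_countable (hB1 : S_B1) (hB2 : S_B2) (hB12 : S_B12) : (bad k t).Countable := by
  obtain ⟨hc, hc2⟩ := c0_sq (k := k) (t := t) hB1 hB12
  obtain ⟨-, -, -, p4, -, -, -, p8, -, -, p11, p12, -⟩ := hB1 k t ⊤ Eb.ne_top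
  have hS : ptS (⊤ : Ideal (OO k t)) ∉ Lam (⊤ : Ideal (OO k t)) := fun h => p4 (p11 _ h).2
  have h1 : bad k t ⊆ Lam (⊤ : Ideal (OO k t)) ∪
      ((fun z => z + ptS (⊤ : Ideal (OO k t))) '' Lam (⊤ : Ideal (OO k t)) ∪
        (fun z => z - ptS (⊤ : Ideal (OO k t))) '' Lam (⊤ : Ideal (OO k t))) := by
    intro z hz
    by_cases hl : z ∈ Lam (⊤ : Ideal (OO k t))
    · exact Or.inl hl
    right
    rcases hz with hz | hz
    · exact absurd hz hl
    have hcv := (hB2 k t ⊤ Eb.ne_top z hl).1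
    have h2 : wdC (⊤ : Ideal (OO k t)) z = wdC (⊤ : Ideal (OO k t)) (S0 k t) *
        (AC (⊤ : Ideal (OO k t)) * XC (⊤ : Ideal (OO k t)) z + 1) := by
      unfold YC at hz
      have h3 : wdC (⊤ : Ideal (OO k t)) z / wdC (⊤ : Ideal (OO k t)) (S0 k t) =
          AC (⊤ : Ideal (OO k t)) * XC (⊤ : Ideal (OO k t)) z + 1 := by
        linear_combination 2 * hz
      rw [div_eq_iff hc] at h3
      rw [h3, mul_comm]
    rw [h2, mul_pow, hc2] at hcv
    have hr : r2 (⊤ : Ideal (OO k t)) ^ 3 ≠ 0 := by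
      rw [← hc2]
      exact pow_ne_zero _ hc
    have h4 := mul_left_cancel₀ hr hcv
    unfold WC2 at h4
    have h5 : XC (⊤ : Ideal (OO k t)) z ^ 3 = 0 := by linear_combination -h4 / 4
    have h6 : XC (⊤ : Ideal (OO k t)) z = 0 := by simpa using h5
    rcases (p8 z _ hl hS).1 (by rw [h6, p12]) with h7 | h7
    · exact Or.inl ⟨_, h7, by ring⟩
    · exact Or.inr ⟨_, h7, by ring⟩
  exact (lam_countable.union ((lam_countable.image _).union (lam_countable.image _))).mono h1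

end GtAux

open GtAux in
theorem tGt (hB1 : S_B1) (hB2 : S_B2) (hB6 : S_B6) (hB7 : S_B7) (hB12 : S_B12) : S_Gt := by
  intro k t _
  have hcube : ∀ z : ℂ, z ∉ Lam (⊤ : Ideal (OO k t)) → GG k t z ^ 3 = YC k t z := fun z hz => by
    rw [GG_of_not hz]
    exact gg_cube hB1 hB2 hB6 hB7 hB12 hz
  have hconn : IsConnected (bad k t)ᶜ :=
    (bad_countable hB1 hB2 hB12).isConnected_compl_of_one_lt_rank (by
      rw [Complex.rank_real_complex]
      norm_num)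
  have h1m : (1 : ℂ) ∈ Lam (⊤ : Ideal (OO k t)) := lam_top.2 ⟨1, toC_one.symm⟩
  have hnot : ∀ z : ℂ, z ∉ Lam (⊤ : Ideal (OO k t)) → z + 1 ∉ Lam (⊤ : Ideal (OO k t)) := by
    intro z hz h
    apply hz
    have := lam_sub h h1m
    rwa [add_sub_cancel_right] at this
  have hne : ∀ z ∈ (bad k t)ᶜ, GG k t z ≠ 0 := by
    intro z hz h
    have hz' : ¬ (z ∈ Lam (⊤ : Ideal (OO k t)) ∨ YC k t z = 0) := hz
    push Not at hz'
    apply hz'.2
    rw [← hcube z hz'.1, h]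
    norm_num
  have hq : ContinuousOn (fun z => GG k t (z + 1) / GG k t z) (bad k t)ᶜ := by
    intro z hz
    have hz' : ¬ (z ∈ Lam (⊤ : Ideal (OO k t)) ∨ YC k t z = 0) := hz
    push Not at hz'
    apply ContinuousAt.continuousWithinAt
    refine ContinuousAt.div ?_ (cont hB2 hB6 hB7 hz'.1) (hne z hz)
    exact ContinuousAt.comp (f := fun z => z + 1) (g := GG k t) (cont hB2 hB6 hB7 (hnot z hz'.1))
      (by fun_prop)
  have hmaps : Set.MapsTo (fun z => GG k t (z + 1) / GG k t z) (bad k t)ᶜ {c : ℂ | c ^ 3 = 1} := by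
    intro z hz
    have hz' : ¬ (z ∈ Lam (⊤ : Ideal (OO k t)) ∨ YC k t z = 0) := hz
    push Not at hz'
    change (GG k t (z + 1) / GG k t z) ^ 3 = 1
    rw [div_pow, hcube _ (hnot z hz'.1), hcube z hz'.1, YC_per hB1 z h1m, div_self hz'.2]
  have hfin : Set.Finite {c : ℂ | c ^ 3 = 1} := by
    have h := (Polynomial.X ^ 3 - Polynomial.C (1 : ℂ)).roots.toFinset.finite_toSet
    refine h.subset ?_
    intro c hc
    have hc' : c ^ 3 = 1 := hc
    have h0 : (Polynomial.X ^ 3 - Polynomial.C (1 : ℂ)) ≠ 0 := Polynomial.X_pow_sub_C_ne_zero (by norm_num) 1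
    simp only [Finset.mem_coe, Multiset.mem_toFinset, Polynomial.mem_roots h0, Polynomial.IsRoot.def,
      Polynomial.eval_sub, Polynomial.eval_pow, Polynomial.eval_X, Polynomial.eval_C]
    rw [hc', sub_self]
  obtain ⟨z0, hz0⟩ := hconn.nonempty
  set om : ℂ := GG k t (z0 + 1) / GG k t z0 with hom
  have hom3 : om ^ 3 = 1 := hmaps hz0
  have hom0 : om ≠ 0 := by
    intro h
    rw [h] at hom3
    norm_num at hom3
  have hshift : ∀ z : ℂ, GG k t (z + 1) = om * GG k t z := by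
    intro z
    by_cases hz : z ∈ Lam (⊤ : Ideal (OO k t))
    · rw [GG_of_mem hz, GG_of_mem (lam_add hz h1m), mul_zero]
    by_cases hY : YC k t z = 0
    · have h1 : GG k t z = 0 := by
        have := hcube z hz
        rw [hY] at this
        simpa using this
      have h2 : GG k t (z + 1) = 0 := by
        have := hcube (z + 1) (hnot z hz)
        rw [YC_per hB1 z h1m, hY] at this
        simpa using this
      rw [h1, h2, mul_zero]
    · have hzU : z ∈ (bad k t)ᶜ := by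
        intro h
        rcases h with h | h
        · exact hz h
        · exact hY h
      have h := hconn.isPreconnected.constant_of_mapsTo hfin.isDiscrete hq hmaps hzU hz0
      have h' : GG k t (z + 1) / GG k t z = om := h
      rwa [div_eq_iff (hne z hzU)] at h'
  have hshiftn : ∀ (n : ℤ) (z : ℂ), GG k t (z + n) = om ^ n * GG k t z := by
    intro n
    induction n using Int.induction_on with
    | zero => intro z; simp
    | succ i ih =>
      intro z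
      have e : z + ((i + 1 : ℤ) : ℂ) = (z + (i : ℤ)) + 1 := by push_cast; ring
      rw [e, hshift, ih, zpow_add_one₀ hom0]
      ring
    | pred i ih =>
      intro z
      have e : z + ((-(i : ℤ) - 1 : ℤ) : ℂ) + 1 = z + ((-(i : ℤ) : ℤ) : ℂ) := by push_cast; ring
      have h := hshift (z + ((-(i : ℤ) - 1 : ℤ) : ℂ))
      rw [e, ih z] at h
      rw [zpow_sub_one₀ hom0]
      field_simp
      rw [mul_comm] at h
      rw [mul_comm (GG k t _), ← h]
      first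
        | rfl
        | ring
  refine ⟨GG k t, om, hom3, mero k t, hcube, ?_⟩
  intro z α
  have h1 : toC α = (α.re : ℂ) + toC (⟨0, α.im⟩ : OO k t) := by
    rw [toC_apply, toC_apply]
    simp
  have h2 : (⟨0, α.im⟩ : OO k t) ∈ pp k t := mem_pp.2 (by simp)
  rw [h1, ← add_assoc, GG_per hB1 _ h2, hshiftn]

end Pool.Agent.DT.F
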