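import Pool.Agent.Lib.DT.F.SpecP
import Pool.Agent.Lib.DI.F.PsiExp
import Pool.Agent.Lib.DI.F.F3core

/-!
# Theorem DT, part F, module Hex: the expansion of `G(A)`
-/

set_option autoImplicit false

open scoped Pointwise Topology MatrixGroups
open Filter

noncomputable section

namespace Pool.Agent.DT.F

open Pool.Agent.MuZ Pool.Agent.FW NumberField IsDedekindDomain Pool.Agent.DT
open Pool.Agent.DI (io ofC io_inj exists_io io_ofC ofC_io VP MP UP TP ex)
open Pool.Agent.DI.F (tay Co Cf P0 P1)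
open Pool.Agent.DI.F.PsiExpAux (pmap_inj der_map lift norm_ex ex_ne)

private theorem Hex_twr {ka : Om} {u T W : PowerSeries Om}
    (h : TWr (io ka) (PowerSeries.map io u) (PowerSeries.map io T) (PowerSeries.map io W)) :
    TWr ka u T W := by
  refine ⟨?_, ?_, ?_, ?_, ?_, ?_, ?_, ?_⟩
  · apply pmap_inj
    have := h.curve
    simp only [map_add, map_mul, map_pow, PowerSeries.map_C]
    exact this
  · apply pmap_inj
    have := h.diff
    rw [der_map, der_map, der_map] at this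
    simp only [map_sub, map_mul, map_add, map_ofNat, PowerSeries.map_C]
    exact this
  · have := h.T0
    rw [PowerSeries.coeff_map] at this
    exact io_inj (by rw [this, map_zero])
  · have := h.T1
    rw [PowerSeries.coeff_map, PowerSeries.coeff_map] at this
    exact io_inj this
  · have := h.W0
    rw [PowerSeries.coeff_map] at this
    exact io_inj (by rw [this, map_zero])
  · have := h.W1
    rw [PowerSeries.coeff_map] at this
    exact io_inj (by rw [this, map_zero])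
  · have := h.W2
    rw [PowerSeries.coeff_map] at this
    exact io_inj (by rw [this, map_zero])
  · have := h.W3
    rw [PowerSeries.coeff_map, PowerSeries.coeff_map, ← map_pow] at this
    exact io_inj this

/-- A cube root of a number in the image of `io` is in the image of `io`. -/
private theorem Hex_root {x : ℂ} {c : Om} (h : x ^ 3 = io c) : ∃ s : Om, io s = x := by
  obtain ⟨s, hs⟩ := IsAlgClosed.exists_pow_nat_eq c (n := 3) (by norm_num)
  have h1 : x ^ 3 = io s ^ 3 := by rw [h, ← hs, map_pow]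
  rcases eq_or_ne (io s) 0 with h0 | h0
  · rw [h0, zero_pow (by norm_num)] at h1
    exact ⟨0, by rw [map_zero]; exact (pow_eq_zero_iff (by norm_num)).1 h1 ▸ rfl⟩
  · have h2 : (x / io s) ^ 3 = 1 := by
      rw [div_pow, h1, div_self (pow_ne_zero 3 h0)]
    have h3 : IsAlgebraic ℚ (x / io s) := by
      refine ⟨Polynomial.X ^ 3 - 1, ?_, ?_⟩
      · have := Polynomial.X_pow_sub_C_ne_zero (R := ℚ) (n := 3) (by norm_num) 1
        rwa [map_one] at this
      · simp [h2]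
    obtain ⟨ζ, hζ⟩ := exists_io _ h3
    exact ⟨ζ * s, by rw [map_mul, hζ, div_mul_cancel₀ _ h0]⟩

/-- The bound for the imaginary part. -/
private theorem Hex_bound {ε : ℝ} (hε : 0 < ε) : ∃ Y : ℝ, 0 ≤ Y ∧ ∀ z : ℂ, Y < z.im → ‖ex z‖ < ε := by
  refine ⟨max 0 (-Real.log ε / (2 * Real.pi)), le_max_left _ _, fun z hz => ?_⟩
  have h1 : -Real.log ε / (2 * Real.pi) < z.im := lt_of_le_of_lt (le_max_right _ _) hz
  rw [div_lt_iff₀ (by positivity)] at h1
  rw [norm_ex, ← Real.exp_log hε, Real.exp_lt_exp]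
  linarith

/-- Numbers: `u³ a³ (-1/W)`, `W = u³ w`. -/
private theorem Hex_num {u a W w : ℂ} (hu : u ≠ 0) (hW : W = u ^ 3 * w) (hw : w ≠ 0) :
    u ^ 3 * (a ^ 3 * (-1 / W)) = -a ^ 3 * w⁻¹ := by
  rw [hW]
  field_simp

/-- **The expansion of `G(A)`.** -/
theorem tHex (hKf : S_Kf) (hTWg : S_TWg) (hTWc : S_TWc) (hCub : S_Cub) (hMer : S_Mer)
    (hLaF : S_LaF) (huA : S_uA) (hKL : S_KL) : S_Hex := by
  intro k t _ f m R hm hFR hRC σ hσ N0 β hβ hA G om hG
  obtain ⟨hφ, ha, hioa, Λ, hTW, hLat, hY⟩ := hLaF k t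
  obtain ⟨uA, cA, zA, dA, tA, eA⟩ := huA k t f m R hm hFR hRC σ hσ N0 β hβ hA
  obtain ⟨k1, k2, k3⟩ := hKL k t f hm.toFok
  have hCo0 : Pool.Agent.DI.F.S_Co := Pool.Agent.DI.F.tCo Pool.Agent.DI.F.tTay
  obtain ⟨hT1, _, _, hTmul, ⟨hTc, hTX⟩, _, hTcongr⟩ := Pool.Agent.DI.F.tTay
  set K : Subfield ℂ := (Kf k t f).toSubfield.map io with hK
  obtain ⟨φ, hφe⟩ : ∃ φ, φ = fr (⊤ : Ideal (OO k t)) := ⟨_, rfl⟩
  obtain ⟨a, hae⟩ : ∃ a, a = AC (⊤ : Ideal (OO k t)) := ⟨_, rfl⟩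
  rw [← hφe] at hφ hLat hY eA
  rw [← hae] at ha hioa hY
  have hkaK : io (kaO k t) ∈ K := ⟨_, k3, rfl⟩
  have haK : a ∈ K := ⟨_, k1, hioa⟩
  obtain ⟨hc, har, _, hinv, hcomp, hsl, hcg⟩ := hCo0 K
  obtain ⟨-, -, -, -, ⟨tt, ww, htt, hww, htt0, hww0, hTt, hWw⟩, hTWn⟩ :=
    hTWg Λ (io (kaO k t)) hTW K hkaK
  obtain ⟨hTAk, hWAk, hrelA⟩ := hTWc Λ (io (kaO k t)) hTW K hkaK uA cA zA
  obtain ⟨hnA, htA⟩ := Pool.Agent.DI.F.F3coreAux.near uA K hCo0 cA zA dA
  obtain ⟨haC, ha0, haq⟩ := hsl uA cA zA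
  have hA0 : dslope uA 0 0 ≠ 0 := by
    rw [ha0]
    exact dA
  -- (1) the function `F u = u G(u/φ)`
  have hFm : MeromorphicAt (fun u : ℂ => u * G (u / φ)) 0 := by
    have h1 : AnalyticAt ℂ (fun u : ℂ => u / φ) 0 := analyticAt_id.div_const
    have h2 : MeromorphicAt (fun u : ℂ => G (u / φ)) 0 := (hG.mer _).comp_analyticAt h1
    exact analyticAt_id.meromorphicAt.mul h2
  have hEa : AnalyticAt ℂ (fun u : ℂ => -a ^ 3 * (ww u)⁻¹) 0 :=
    analyticAt_const.mul (hww.1.fun_inv (by rw [hww0]; exact one_ne_zero))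
  have hwne : ∀ᶠ u in 𝓝 (0 : ℂ), ww u ≠ 0 :=
    hww.1.continuousAt.eventually_ne (by rw [hww0]; exact one_ne_zero)
  have hcube : ∀ᶠ u in 𝓝[≠] (0 : ℂ), (u * G (u / φ)) ^ 3 = -a ^ 3 * (ww u)⁻¹ := by
    filter_upwards [hTWn, self_mem_nhdsWithin, hwne.filter_mono nhdsWithin_le_nhds]
      with u hu hu0 hwu
    obtain ⟨h1, h2, h3, h4⟩ := hu
    have hu0' : u ≠ 0 := hu0
    have h5 : u / φ ∉ Lam (⊤ : Ideal (OO k t)) := by
      rw [hLat, mul_div_cancel₀ _ hφ]
      exact h1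
    rw [mul_pow, hG.cube _ h5, hY, mul_div_cancel₀ _ hφ, h4]
    exact Hex_num hu0' (hWw u) hwu
  obtain ⟨g, hga, hg0, hFg⟩ := hMer _ _ hFm hEa (by
    rw [hww0, inv_one, mul_one]
    exact neg_ne_zero.2 (pow_ne_zero 3 ha)) hcube
  -- (2) the function `h`
  have agA : AnalyticAt ℂ (fun q => g (uA q)) 0 := hga.fun_comp_of_eq cA.1 zA
  have ah : AnalyticAt ℂ (fun q => g (uA q) * (dslope uA 0 q)⁻¹) 0 :=
    agA.mul (haC.1.fun_inv hA0)
  obtain ⟨h, hh⟩ : ∃ h : ℂ → ℂ, h = fun q => g (uA q) * (dslope uA 0 q)⁻¹ := ⟨_, rfl⟩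
  rw [← hh] at ah
  have hh0 : h 0 ≠ 0 := by
    rw [hh]
    simp only [zA]
    exact mul_ne_zero hg0 (inv_ne_zero hA0)
  have hhq : ∀ᶠ q in 𝓝[≠] (0 : ℂ), h q = q * G (uA q / φ) := by
    filter_upwards [hnA, htA.eventually hFg] with q h1 h2
    rw [hh]
    simp only
    rw [← h2]
    have h3 := haq q
    obtain ⟨b1, b2, b3⟩ := h1
    generalize dslope uA 0 q = d at b2 h3
    rw [h3]
    field_simp
  -- (3) the cube of `h`
  have hnw : ∀ᶠ q in 𝓝[≠] (0 : ℂ), ww (uA q) ≠ 0 := by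
    refine (htA.mono_right nhdsWithin_le_nhds).eventually hwne
  have hh3 : ∀ᶠ q in 𝓝[≠] (0 : ℂ), h q * h q * h q =
      -a ^ 3 * (dslope uA 0 q * dslope uA 0 q * dslope uA 0 q * ww (uA q))⁻¹ := by
    filter_upwards [hnA, htA.eventually hFg, htA.eventually hcube, hnw] with q h1 h2 h3 h4
    have h5 : g (uA q) ^ 3 = -a ^ 3 * (ww (uA q))⁻¹ := by
      rw [← h2]
      exact h3
    obtain ⟨b1, b2, b3⟩ := h1
    rw [hh]
    simp only
    have h6 : g (uA q) * (dslope uA 0 q)⁻¹ * (g (uA q) * (dslope uA 0 q)⁻¹) *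
        (g (uA q) * (dslope uA 0 q)⁻¹) = g (uA q) ^ 3 * ((dslope uA 0 q)⁻¹) ^ 3 := by ring
    rw [h6, h5]
    field_simp
  have hwA := hcomp ww uA hww cA zA
  have hDD := (har _ _ ((har _ _ ((har _ _ haC haC).2.1) haC).2.1) hwA).2.1
  have hD0 : dslope uA 0 0 * dslope uA 0 0 * dslope uA 0 0 * ww (uA 0) ≠ 0 := by
    rw [zA, hww0]
    exact mul_ne_zero (mul_ne_zero (mul_ne_zero hA0 hA0) hA0) one_ne_zero
  have hE := (har _ _ (hc.1 (-a ^ 3) (K.neg_mem (K.pow_mem haK 3))) (hinv _ hDD hD0)).2.1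
  have ahhh : AnalyticAt ℂ (fun q => h q * h q * h q) 0 := (ah.mul ah).mul ah
  have hev : (fun q => h q * h q * h q) =ᶠ[𝓝 0]
      (fun q => -a ^ 3 * (dslope uA 0 q * dslope uA 0 q * dslope uA 0 q * ww (uA q))⁻¹) :=
    (ContinuousAt.eventuallyEq_nhds_iff_eventuallyEq_nhdsNE ahhh.continuousAt
      hE.1.continuousAt).1 hh3
  have htay3 : tay (fun q => h q * h q * h q) = tay h ^ 3 := by
    rw [hTmul (fun q => h q * h q) h (ah.mul ah) ah, hTmul h h ah ah]
    ring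
  have hCf3 : Cf K (tay h ^ 3) := by
    rw [← htay3, hTcongr _ _ hev]
    exact hE.2
  -- the relation with `W`
  have hrelH : tay h ^ 3 * tay (fun q => Wg Λ (io (kaO k t)) (uA q)) =
      PowerSeries.C (-a ^ 3) * PowerSeries.X ^ 3 := by
    have h1 : (fun q => h q * h q * h q * Wg Λ (io (kaO k t)) (uA q)) =ᶠ[𝓝 0]
        (fun q => -a ^ 3 * (q * q * q)) := by
      have hwn : ∀ᶠ q in 𝓝 (0 : ℂ), ww (uA q) ≠ 0 := by
        refine hwA.1.continuousAt.eventually_ne ?_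
        rw [zA, hww0]
        exact one_ne_zero
      have hdn : ∀ᶠ q in 𝓝 (0 : ℂ), dslope uA 0 q ≠ 0 := haC.1.continuousAt.eventually_ne hA0
      filter_upwards [hev, hwn, hdn] with q h1 h2 h3
      rw [h1, hWw (uA q)]
      have h4 := haq q
      generalize dslope uA 0 q = d at h3 h4
      have h5 : ww (uA q) = ww (uA q) := rfl
      generalize ww (uA q) = w at h2
      rw [h4]
      field_simp
    have h2 := hTcongr _ _ h1
    have aq : AnalyticAt ℂ (fun q : ℂ => q) 0 := analyticAt_id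
    rw [hTmul (fun q => h q * h q * h q) (fun q => Wg Λ (io (kaO k t)) (uA q)) ahhh hWAk.1,
      htay3, hTmul (fun _ => -a ^ 3) (fun q => q * q * q) analyticAt_const ((aq.mul aq).mul aq),
      hTmul (fun q => q * q) (fun q => q) (aq.mul aq) aq, hTmul (fun q => q) (fun q => q) aq aq,
      hTc, hTX] at h2
    rw [h2]
    ring
  -- (4) the field of coefficients
  have hc0 : PowerSeries.coeff 0 (tay h) = h 0 := Pool.Agent.DI.F.F3coreAux.coeff_zero_tay h
  have h03 : h 0 ^ 3 ∈ K := by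
    have h1 := hCf3 0
    rw [PowerSeries.coeff_zero_eq_constantCoeff_apply, map_pow,
      ← PowerSeries.coeff_zero_eq_constantCoeff_apply, hc0] at h1
    exact h1
  obtain ⟨c, hcK, hcc⟩ := h03
  obtain ⟨s, hs⟩ := Hex_root (x := h 0) (c := c) hcc.symm
  have hfd1 : FiniteDimensional ℚ (Kf k t f) := (hKf k t f hm.toFok).1
  have hfd2 : FiniteDimensional ℚ (IntermediateField.adjoin ℚ {s}) :=
    IntermediateField.adjoin.finiteDimensional (Algebra.IsAlgebraic.isAlgebraic s).isIntegral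
  obtain ⟨L, hL⟩ : ∃ L : IntermediateField ℚ Om, L = Kf k t f ⊔ IntermediateField.adjoin ℚ {s} :=
    ⟨_, rfl⟩
  have hLfd : FiniteDimensional ℚ L := by
    rw [hL]
    exact IntermediateField.finiteDimensional_sup _ _
  have hKL' : Kf k t f ≤ L := by
    rw [hL]
    exact le_sup_left
  have hsL : s ∈ L := by
    rw [hL]
    exact (le_sup_right : IntermediateField.adjoin ℚ {s} ≤ _)
      (IntermediateField.mem_adjoin_simple_self ℚ s)
  have hKK : ∀ x ∈ K, x ∈ L.toSubfield.map io := by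
    rintro x ⟨y, hy, rfl⟩
    exact ⟨y, hKL' hy, rfl⟩
  have hCfh : Cf (L.toSubfield.map io) (tay h) := by
    refine hCub _ _ ?_ ?_ (fun n => hKK _ (hCf3 n))
    · rw [hc0]
      exact ⟨s, hsL, hs⟩
    · rw [hc0]
      exact hh0
  -- (5) the lift
  obtain ⟨T', -, hT'⟩ := lift (Kf k t f) _ hTAk.2
  obtain ⟨W', -, hW'⟩ := lift (Kf k t f) _ hWAk.2
  obtain ⟨H', lH, hH'⟩ := lift L _ hCfh
  rw [← hT', ← hW', tA] at hrelA
  rw [← hW', ← hH'] at hrelH
  rw [eventually_nhdsWithin_iff, Metric.eventually_nhds_iff] at hhq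
  obtain ⟨ε, hε, hhq⟩ := hhq
  obtain ⟨Y, hY0, hYb⟩ := Hex_bound hε
  refine ⟨T', W', H', L, h, Y, Hex_twr hrelA, hLfd, lH, ?_, ?_, ah, hH'.symm, ?_⟩
  · intro h1
    apply hh0
    rw [← hc0, ← hH', PowerSeries.coeff_map, h1, map_zero]
  · apply pmap_inj
    rw [map_mul, map_pow, hrelH]
    simp only [map_mul, map_pow, PowerSeries.map_X, PowerSeries.map_C, map_neg, hioa]
  · intro z hz
    have hz0 : 0 < z.im := lt_of_le_of_lt hY0 hz
    have h1 := hhq (y := ex z) (by rw [dist_zero_right]; exact hYb z hz) (ex_ne z)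
    rw [h1, eA z hz0, mul_div_cancel_left₀ _ hφ]

end Pool.Agent.DT.F
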