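import Pool.Agent.Lib.DT.F.SpecP

/-!
# Theorem DT, part F, module KL: field of definition
-/

set_option autoImplicit false

noncomputable section

namespace Pool.Agent.DT.F

open Pool.Agent.MuZ Pool.Agent.FW NumberField IsDedekindDomain Pool.Agent.DT
open Pool.Agent.DI (io ofC io_inj exists_io io_ofC ofC_io VP MP UP TP ex)

/-- `Al` depends only on the ray class. -/
private theorem KL_aO (hB7 : S_B7) {k t : ℕ} [SqT k t] {n a b : Ideal (OO k t)} (ha : a ≠ ⊥)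
    (hb : b ≠ ⊥) (h : Ray n a b) : aO a = aO b := by
  obtain ⟨α, α', h1, h2, -, -, h3⟩ := ray_norm h
  have e1 := ((hB7 k t a ha).1 α h1).2.1
  have e2 := ((hB7 k t b hb).1 α' h2).2.1
  have e3 : AC a = AC b := by rw [← e1, ← e2, h3]
  unfold aO
  rw [e3]

theorem tKL (hB7 : S_B7) (hR5 : S_R5) : S_KL := by
  intro k t _ f hf
  have ht : (⊤ : Ideal (OO k t)) ≠ ⊥ := Eb.ne_top
  have h0 : aO (⊤ : Ideal (OO k t)) ≠ 0 :=
    (hR5 k t ⊤ ⊤ ⊤ ht ht ht (Eb.pri_top _) (Eb.pri_top _) (Eb.pri_top _)).2.1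
  have hK : aO (⊤ : Ideal (OO k t)) ∈ Kf k t f := by
    rw [kf_mem]
    intro τ _ a hτ hr
    rw [hτ.aa ⊤ ht, Ideal.mul_top]
    exact KL_aO hB7 hτ.ne ht hr
  refine ⟨hK, h0, ?_⟩
  unfold kaO
  exact inv_mem (pow_mem hK 3)

end Pool.Agent.DT.F
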