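import Pool.Agent.Lib.DT.F.SpecL

/-!
# Theorem DT, part F, module Lead: the `q`-expansion of `A`
-/

set_option autoImplicit false

noncomputable section

namespace Pool.Agent.DT.F

open Pool.Agent.MuZ Pool.Agent.FW NumberField IsDedekindDomain Pool.Agent.DT
open Pool.Agent.DI (io ofC io_inj exists_io io_ofC ofC_io VP MP UP TP ex)

/-- `ofC 0 = 0`. -/
private theorem Lead_zero : ofC 0 = 0 := by
  have := ofC_io 0
  rwa [map_zero] at this

/-- A natural number prime to `3` is a unit at the primes above `3`. -/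
private theorem Lead_nat {P : Ideal ZZ} (hPp : P.IsPrime) (h3 : MP P 3) {n : ℕ} (hn : n.Coprime 3) :
    UP P (n : Om) := by
  refine ⟨DI.VP.nat n, fun h => ?_⟩
  obtain ⟨a, b, hab⟩ : IsCoprime (n : ℤ) (3 : ℤ) := Nat.isCoprime_iff_coprime.2 hn
  have h1 : (a : Om) * (n : Om) + (b : Om) * 3 = 1 := by exact_mod_cast congrArg (Int.cast : ℤ → Om) hab
  have h4 : MP P ((a : Om) * (n : Om) + (b : Om) * 3) :=
    DI.MP.add (DI.MP.mul_left (DI.VP.int a) h) (DI.MP.mul_left (DI.VP.int b) h3)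
  rw [h1] at h4
  exact DI.MP.one_not h4

/-- `fr(1)/fr(b)` is a unit at the primes above `𝔭`, for `b` prime to `3`. -/
private theorem Lead_rO {k t : ℕ} [SqT k t] (hR5 : S_R5) (hD9 : S_D9) {P : Ideal ZZ} (hP : AbP k t P)
    {b : Ideal (OO k t)} (hb : b ≠ ⊥) (hb3 : PrI b (sN k t 3)) : UP P (rO b ⊤) := by
  have hPp : P.IsPrime := hP.1.1
  have hbb := pri_ppb hb3
  have hT : (⊤ : Ideal (OO k t)) ≠ ⊥ := Eb.ne_top
  have hTT : PrI (⊤ : Ideal (OO k t)) (ppb k t) := Eb.pri_top _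
  obtain ⟨f1, -, e1, -⟩ := hR5 k t ⊤ b ⊤ hT hb hT (Eb.pri_top _) hbb hTT
  obtain ⟨f2, -, e2, -⟩ := hR5 k t ⊤ ⊤ b hT hT hb (Eb.pri_top _) hTT hbb
  have h1 : rO b ⊤ * rO ⊤ b = 1 := by
    apply io_inj
    rw [map_mul, e1, e2, map_one]
    field_simp
  obtain ⟨y, hy, hy'⟩ := (hD9 k t P hP ⊤ hT hTT).1 b hb hb3
  rw [Ideal.mul_top] at hy'
  have h2 : MP P (rO ⊤ b - (NI b : Om)) := by
    rw [hy']
    exact DI.MP.mul_right hP.2.1 hy
  have h3 : UP P (rO ⊤ b) :=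
    DI.UP.congr (Lead_nat hPp hP.2.1 (((aO6 k t).2.2.2.2.1 3 b).1 hb3)) h2
  rw [eq_inv_of_mul_eq_one_left h1]
  exact DI.UP.inv h3

theorem tLead (hR5 : S_R5) (hD9 : S_D9) (hCoL : S_CoL) (hHas : S_Has) (hV1b : S_V1b) : S_Lead := by
  classical
  intro k t _ f m R hm hR hRC σ hσ N0 β hβ
  obtain ⟨h1, h2⟩ := hHas k t f m R hm hRC σ N0 β
  refine ⟨(hCoL k t f m R hm hRC σ hσ N0 β hβ).2, h2, h1, ?_⟩
  intro hmt P hP hN0 hu
  have hf : 0 < f := hm.pos
  have hPp : P.IsPrime := hP.1.1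
  obtain ⟨b1, hb1, hr1, hun⟩ := exists_Ld hm hRC
  have hfb1 := rc_fb hRC hb1
  obtain ⟨x, hx0, hx1, hx3, hx4⟩ := (hV1b k t f m b1 hm hfb1).2 hr1
  -- the coefficients
  have hc1 : ofC (cM f m b1 1) = f * toO x := by
    have h3 : cM f m b1 1 = io (f * toO x) := by
      unfold cM
      rw [hx3, Finset.sum_singleton, if_neg (hx4 hmt), one_mul, one_div, inv_inv, map_mul,
        map_natCast, io_toO]
    rw [h3, ofC_io]
  have hc2 : ∀ b ∈ R, b ≠ b1 → ofC (cM f m b 1) = 0 := by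
    intro b hb hne
    have h3 : vN f (m * b) 1 = ∅ := by
      by_contra h4
      exact hne (hun b hb ((hV1b k t f m b hm (rc_fb hRC hb)).1 h4))
    have h4 : cM f m b 1 = 0 := by
      unfold cM
      rw [h3, Finset.sum_empty]
    rw [h4, Lead_zero]
  have ha : aF f m R σ N0 β 1 = N0 * (σ b1 β * rO b1 ⊤ * (f * toO x)) := by
    unfold aF
    rw [Finset.sum_eq_single b1 (fun b hb hne => by rw [hc2 b hb hne, mul_zero])
      (fun h => absurd hb1 h), hc1]
  -- the unit `x`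
  have hm3 := pri_three hm.prm
  have hb3 := pri_three (hR b1 hb1).2
  have hpt : pp k t ≠ ⊤ := (pp_prime (k := k) (t := t)).ne_top
  have hxu : UP P (toO x) := by
    refine ⟨toO_VP x, fun h => ?_⟩
    have h3 : x ∈ pp k t := (mp_iff hP x).1 h
    have h4 : m * b1 * ppb k t ≤ pp k t := by
      rw [hx1]
      exact (Ideal.span_singleton_le_iff_mem _).2 h3
    rcases (Ideal.IsPrime.mul_le pp_prime).1 h4 with h5 | h5
    · rcases (Ideal.IsPrime.mul_le pp_prime).1 h5 with h6 | h6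
      · exact not_le_of_pri hpt (pri_pp hm3) h6
      · exact not_le_of_pri hpt (pri_pp hb3) h6
    · refine not_le_of_pri hpt ?_ h5
      have h6 := pp_sup_ppb (k := k) (t := t)
      rw [sup_comm] at h6
      exact h6
  rw [ha]
  exact (Lead_nat hPp hP.2.1 hN0).mul (((hu b1 hb1 hr1).mul
    (Lead_rO hR5 hD9 hP (hR b1 hb1).1 hb3)).mul ((Lead_nat hPp hP.2.1 hm.cop).mul hxu))

end Pool.Agent.DT.F
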