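import Pool.Agent.Lib.DT.F.SpecP

/-! # Theorem DT, part F, module Mer: a meromorphic cube root is analytic -/

set_option autoImplicit false

open Filter Topology

noncomputable section

namespace Pool.Agent.DT.F

theorem tMer : S_Mer := by
  intro F E hF hE hE0 h
  have hcongr : (F ^ 3) =ᶠ[𝓝[≠] (0 : ℂ)] E := h
  have h1 : meromorphicOrderAt (F ^ 3) 0 = ((0 : ℤ) : WithTop ℤ) := by
    rw [meromorphicOrderAt_congr hcongr, meromorphicOrderAt_eq_int_iff hE.meromorphicAt]
    refine ⟨E, hE, hE0, Filter.Eventually.of_forall fun z => ?_⟩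
    rw [zpow_zero, one_smul]
  rw [meromorphicOrderAt_pow hF] at h1
  have h2 : meromorphicOrderAt F 0 = ((0 : ℤ) : WithTop ℤ) := by
    cases ho : meromorphicOrderAt F 0 with
    | top =>
      rw [ho] at h1
      exact absurd h1 (by decide)
    | coe n =>
      rw [ho] at h1
      have h3 : ((3 * n : ℤ) : WithTop ℤ) = ((0 : ℤ) : WithTop ℤ) := h1
      have h4 : 3 * n = 0 := WithTop.coe_injective h3
      have h5 : n = 0 := by omega
      rw [h5]
  obtain ⟨g, hg, hg0, hFg⟩ := (meromorphicOrderAt_eq_int_iff hF).1 h2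
  refine ⟨g, hg, hg0, ?_⟩
  filter_upwards [hFg] with z hz
  rw [hz, zpow_zero, one_smul]

end Pool.Agent.DT.F
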