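import Pool.Agent.Lib.DT.F.SpecP
import Pool.Agent.Lib.DT.F4.FInt
import Pool.Agent.Lib.DI.F.PsiExp
import Pool.Agent.Lib.DI.F.F3core

/-!
# Theorem DT, part F, module PsE: the expansion of `Psi`
-/

set_option autoImplicit false

open scoped Pointwise Topology MatrixGroups
open Filter

noncomputable section

namespace Pool.Agent.DT.F

open Pool.Agent.MuZ Pool.Agent.FW NumberField IsDedekindDomain Pool.Agent.DT
open Pool.Agent.DI (io ofC io_inj exists_io io_ofC ofC_io VP MP UP TP ex)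
open Pool.Agent.DI.F (tay Co Cf P0 P1)
open Pool.Agent.DI.F.PsiExpAux (pmap_inj norm_ex ex_ne)

private theorem PsE_cjS (c : Gal(Om/ℚ)) (F : PowerSeries Om) :
    cjS c F = PowerSeries.map (c : Om →+* Om) F := by
  ext n
  rw [cjS, PowerSeries.coeff_mk, PowerSeries.coeff_map]
  rfl

/-- a property near `0` holds at `ex z` for large `im z` -/
private theorem PsE_near {P : ℂ → Prop} (h : ∀ᶠ q in 𝓝 (0 : ℂ), P q) :
    ∃ Y : ℝ, ∀ z : ℂ, Y < z.im → P (ex z) := by
  rw [Metric.eventually_nhds_iff] at h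
  obtain ⟨ε, hε, h⟩ := h
  refine ⟨-Real.log ε / (2 * Real.pi), fun z hz => h ?_⟩
  rw [div_lt_iff₀ (by positivity)] at hz
  rw [dist_zero_right, norm_ex, ← Real.exp_log hε, Real.exp_lt_exp]
  linarith

private theorem PsE_ex (z : ℂ) : ex (-(starRingEnd ℂ) z) = (starRingEnd ℂ) (ex z) := by
  unfold ex
  rw [← Complex.exp_conj]
  congr 1
  simp only [map_mul, Complex.conj_I, Complex.conj_ofReal, map_ofNat]
  ring

private theorem PsE_inv (K : IntermediateField ℚ Om) {F : PowerSeries Om}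
    (hF : ∀ n, PowerSeries.coeff n F ∈ K) (n : ℕ) : PowerSeries.coeff n F⁻¹ ∈ K := by
  have h1 : DI.F4.In K.toSubring F := hF
  have h2 : (PowerSeries.constantCoeff F)⁻¹ ∈ K := by
    have h3 := hF 0
    rw [PowerSeries.coeff_zero_eq_constantCoeff_apply] at h3
    exact inv_mem h3
  exact DT.F4.In.inv' h1 h2 n

private theorem PsE_mul (K : IntermediateField ℚ Om) {F F' : PowerSeries Om}
    (hF : ∀ n, PowerSeries.coeff n F ∈ K) (hF' : ∀ n, PowerSeries.coeff n F' ∈ K) (n : ℕ) :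
    PowerSeries.coeff n (F * F') ∈ K := by
  rw [PowerSeries.coeff_mul]
  exact sum_mem fun x _ => mul_mem (hF _) (hF' _)

/-- **The expansion of Psi.** -/
theorem tPsE (hCjt : S_Cjt) (hHex : S_Hex) : S_PsE := by
  intro k t _ f m R hm hR hRC σ hσ c hc N0 β hβ h1 e he G om hG
  obtain ⟨T, W, H, L, h, Y, hTW, hL, hHL, hH0, hcube, han, htay, hh⟩ :=
    hHex k t f m R hm hR hRC σ hσ N0 β hβ h1 G om hG
  obtain ⟨t1, -, -, t4, -, -, t7⟩ := DI.F.tTay
  have hHne : H ≠ 0 := by
    rintro rfl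
    rw [map_zero] at hH0
    exact hH0 rfl
  have hWne : W ≠ 0 := by
    rintro rfl
    have h2 := hTW.W3
    unfold uF at h2
    rw [map_zero, PowerSeries.coeff_mk] at h2
    exact pow_ne_zero 3 h1 h2.symm
  set a := aO (⊤ : Ideal (OO k t)) with ha
  have ha0 : a ≠ 0 := by
    intro h0
    rw [h0] at hcube
    have h2 : H ^ 3 * W = 0 := by
      rw [hcube]
      simp
    exact mul_ne_zero (pow_ne_zero 3 hHne) hWne h2
  have hca0 : c a ≠ 0 := fun h0 => ha0 ((map_eq_zero c).1 h0)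
  set Hc := PowerSeries.map (c : Om →+* Om) H with hHc
  set Wc := PowerSeries.map (c : Om →+* Om) W with hWc
  have hcubec : Hc ^ 3 * Wc = PowerSeries.C (-(c a) ^ 3) * PowerSeries.X ^ 3 := by
    have h2 := congrArg (PowerSeries.map (c : Om →+* Om)) hcube
    simp only [map_mul, map_pow, PowerSeries.map_C, PowerSeries.map_X, map_neg] at h2
    rw [hHc, hWc, h2]
    rw [map_neg, map_pow]
    rfl
  have hHc0 : PowerSeries.coeff 0 Hc ≠ 0 := by
    rw [hHc, PowerSeries.coeff_map]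
    exact fun h0 => hH0 ((map_eq_zero c).1 h0)
  have hHcne : Hc ≠ 0 := by
    intro h0
    rw [h0, map_zero] at hHc0
    exact hHc0 rfl
  -- the conjugate function
  obtain ⟨hcan, hctay⟩ := hCjt h han
  have hctay' : tay (cjf h) = PowerSeries.map io Hc := by
    rw [hctay, htay, hHc]
    ext n
    simp only [PowerSeries.coeff_map]
    exact (hc _).symm
  have hhc : ∀ z : ℂ, Y < z.im → cjf h (ex z) =
      ex z * (starRingEnd ℂ) (G (AF f m R σ N0 β (-(starRingEnd ℂ) z))) := by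
    intro z hz
    unfold cjf
    rw [← PsE_ex, hh _ (by simpa using hz), map_mul, PsE_ex, Complex.conj_conj]
  -- the field
  let L' : IntermediateField ℚ Om := L ⊔ L.map (c : Om →ₐ[ℚ] Om)
  have hL' : FiniteDimensional ℚ L' := inferInstance
  have hH' : ∀ n, PowerSeries.coeff n H ∈ L' := fun n => (le_sup_left : L ≤ L') (hHL n)
  have hHc' : ∀ n, PowerSeries.coeff n Hc ∈ L' := fun n => by
    rw [hHc, PowerSeries.coeff_map]
    exact (le_sup_right : L.map (c : Om →ₐ[ℚ] Om) ≤ L') ⟨_, hHL n, rfl⟩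
  rcases he with rfl | rfl
  · -- `e = 1`
    have hinv : Hc * Hc⁻¹ = 1 := PowerSeries.mul_inv_cancel _ (by
      rwa [← PowerSeries.coeff_zero_eq_constantCoeff_apply])
    have hca3 : PowerSeries.C ((c a) ^ 3) * PowerSeries.C (((c a)⁻¹) ^ 3) = (1 : PowerSeries Om) := by
      rw [← map_mul, ← mul_pow, mul_inv_cancel₀ hca0, one_pow, map_one]
    have hc0 : cjf h 0 ≠ 0 := by
      have h2 := congrArg (PowerSeries.coeff 0) hctay'
      rw [DI.F.F3coreAux.coeff_zero_tay, PowerSeries.coeff_map] at h2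
      rw [h2]
      exact fun h3 => hHc0 ((map_eq_zero io).1 h3)
    have hev : ∀ᶠ q in 𝓝 (0 : ℂ), cjf h q ≠ 0 := hcan.continuousAt.eventually_ne hc0
    have hsan : AnalyticAt ℂ (fun q => h q * (cjf h q)⁻¹) 0 := han.mul (hcan.inv hc0)
    have hstay : tay (fun q => h q * (cjf h q)⁻¹) = PowerSeries.map io (H * Hc⁻¹) := by
      have h2 := t4 _ _ hsan hcan
      have h3 : tay (fun q => h q * (cjf h q)⁻¹ * cjf h q) = tay h := by
        refine t7 _ _ ?_
        filter_upwards [hev] with q hq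
        rw [inv_mul_cancel_right₀ hq]
      rw [h3, htay, hctay'] at h2
      have h4 : PowerSeries.map io Hc ≠ 0 := fun h5 => hHcne (pmap_inj (by rw [h5, map_zero]))
      refine mul_right_cancel₀ h4 ?_
      rw [← h2, ← map_mul, mul_assoc, mul_comm Hc⁻¹, hinv, mul_one]
    obtain ⟨Y1, hY1⟩ := PsE_near (t1 _ hsan)
    obtain ⟨Y2, hY2⟩ := PsE_near hev
    refine ⟨T, W, -(PowerSeries.C (((c a)⁻¹) ^ 3) * PowerSeries.X ^ 3 * Hc ^ 3), H * Hc⁻¹,
      (a / c a) ^ 3, max Y (max Y1 Y2), 0, L', hL', PsE_mul L' hH' (PsE_inv L' hHc'), hTW, Or.inr ?_,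
      ?_, pow_ne_zero 3 (div_ne_zero ha0 hca0), ?_, ?_⟩
    · rw [PsE_cjS, ← hWc]
      have e : -(PowerSeries.C (((c a)⁻¹) ^ 3) * PowerSeries.X ^ 3 * Hc ^ 3) * Wc =
          -(PowerSeries.C (((c a)⁻¹) ^ 3) * PowerSeries.X ^ 3) * (Hc ^ 3 * Wc) := by ring
      rw [e, hcubec, map_neg]
      linear_combination (PowerSeries.X ^ 6) * hca3
    · intro h2
      rcases mul_eq_zero.1 h2 with h3 | h3
      · exact hHne h3
      · rw [h3, mul_zero] at hinv
        exact zero_ne_one hinv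
    · have e : (H * Hc⁻¹) ^ 3 * W * -(PowerSeries.C (((c a)⁻¹) ^ 3) * PowerSeries.X ^ 3 * Hc ^ 3) =
          -(H ^ 3 * W) * (Hc * Hc⁻¹) ^ 3 * (PowerSeries.C (((c a)⁻¹) ^ 3) * PowerSeries.X ^ 3) := by
        ring
      rw [e, hcube, hinv, div_eq_mul_inv, mul_pow, map_mul, map_neg]
      ring
    · intro z hz
      have z1 : Y < z.im := lt_of_le_of_lt (le_max_left _ _) hz
      have z2 : Y1 < z.im := lt_of_le_of_lt ((le_max_left _ _).trans (le_max_right _ _)) hz
      have z3 : Y2 < z.im := lt_of_le_of_lt ((le_max_right _ _).trans (le_max_right _ _)) hz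
      have h2 := hY1 z z2
      rw [hstay] at h2
      simp only [PowerSeries.coeff_map] at h2
      have h3 : h (ex z) * (cjf h (ex z))⁻¹ = ex z ^ 0 * PsG G f m R σ N0 β 1 z := by
        rw [hh z z1, hhc z z1]
        unfold PsG
        have h4 := ex_ne z
        rw [zpow_neg, zpow_one, pow_zero, one_mul, mul_inv]
        field_simp
      rwa [h3] at h2
  · -- `e = -1`
    have hsan : AnalyticAt ℂ (fun q => h q * cjf h q) 0 := han.mul hcan
    have hstay : tay (fun q => h q * cjf h q) = PowerSeries.map io (H * Hc) := by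
      rw [t4 _ _ han hcan, htay, hctay', map_mul]
    obtain ⟨Y1, hY1⟩ := PsE_near (t1 _ hsan)
    refine ⟨T, W, Wc, H * Hc, (a * c a) ^ 3, max Y Y1, 2, L', hL', PsE_mul L' hH' hHc', hTW,
      Or.inl ?_, mul_ne_zero hHne hHcne, pow_ne_zero 3 (mul_ne_zero ha0 hca0), ?_, ?_⟩
    · rw [PsE_cjS]
    · have e : (H * Hc) ^ 3 * W * Wc = (H ^ 3 * W) * (Hc ^ 3 * Wc) := by ring
      rw [e, hcube, hcubec, mul_pow, map_mul, map_neg, map_neg]
      ring
    · intro z hz
      have z1 : Y < z.im := lt_of_le_of_lt (le_max_left _ _) hz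
      have z2 : Y1 < z.im := lt_of_le_of_lt (le_max_right _ _) hz
      have h2 := hY1 z z2
      rw [hstay] at h2
      simp only [PowerSeries.coeff_map] at h2
      have h3 : h (ex z) * cjf h (ex z) = ex z ^ 2 * PsG G f m R σ N0 β (-1) z := by
        rw [hh z z1, hhc z z1]
        unfold PsG
        rw [neg_neg, zpow_one]
        ring
      rwa [h3] at h2

end Pool.Agent.DT.F
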