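import Pool.Agent.Lib.DT.F.SpecG

/-!
# Theorem DT (`p = 3`), part F, module PsG: the function `Ψ = G(A) conj(G(A(- conj z)))^(-e)`, author helper9
-/

set_option autoImplicit false
set_option linter.unusedSectionVars false

open scoped Pointwise Topology MatrixGroups
open Filter

noncomputable section

namespace Pool.Agent.DT.F

open Pool.Agent.MuZ Pool.Agent.FW NumberField IsDedekindDomain Pool.Agent.DT
open Pool.Agent.DI (io ofC io_inj exists_io io_ofC ofC_io VP MP UP TP ex)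

namespace PsGAux

theorem an_conj {f : ℂ → ℂ} {x : ℂ} (hf : AnalyticAt ℂ f ((starRingEnd ℂ) x)) :
    AnalyticAt ℂ (fun z => (starRingEnd ℂ) (f ((starRingEnd ℂ) z))) x := by
  rw [Complex.analyticAt_iff_eventually_differentiableAt] at hf ⊢
  have hc : Tendsto (fun z : ℂ => (starRingEnd ℂ) z) (𝓝 x) (𝓝 ((starRingEnd ℂ) x)) :=
    Complex.continuous_conj.tendsto x
  filter_upwards [hc.eventually hf] with z hz
  have h := hz.conj_conj
  rw [Complex.conj_conj] at h
  exact h

theorem mero_conj {f : ℂ → ℂ} {x : ℂ} (hf : MeromorphicAt f ((starRingEnd ℂ) x)) :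
    MeromorphicAt (fun z => (starRingEnd ℂ) (f ((starRingEnd ℂ) z))) x := by
  obtain ⟨n, hn⟩ := hf
  refine ⟨n, ?_⟩
  have h := an_conj hn
  refine h.congr (Filter.Eventually.of_forall fun z => ?_)
  simp only [smul_eq_mul, map_mul, map_pow, map_sub, Complex.conj_conj]

theorem an (hC7 : S_C7) {k t : ℕ} [SqT k t] {f : ℕ} {m : Ideal (OO k t)}
    {R : Finset (Ideal (OO k t))} (hm : FM f m) (hR : FR f R) (σ : Ideal (OO k t) → Gal(Om/ℚ)) (N0 : ℕ)
    (β : Om) (z : ℂ) (hz : 0 < z.im) : AnalyticAt ℂ (AF f m R σ N0 β) z := by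
  have hopen : {z : ℂ | 0 < z.im} ∈ 𝓝 z :=
    (isOpen_lt continuous_const Complex.continuous_im).mem_nhds hz
  have h1 : ∀ b ∈ R, AnalyticAt ℂ (fun z => io (σ b β) * ThM f m b z) z := fun b hb =>
    analyticAt_const.mul ((hC7 k t f m b hm (fr_fb hR hb)).1.analyticAt hopen)
  have h2 : AnalyticAt ℂ (fun z => ∑ b ∈ R, io (σ b β) * ThM f m b z) z :=
    Finset.analyticAt_fun_sum R h1
  exact analyticAt_const.mul h2

theorem ex_div (z M : ℂ) : ex (z / M) = Complex.exp (2 * Real.pi * Complex.I * z / M) := by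
  unfold ex
  congr 1
  ring

theorem conj_ex (z : ℂ) : (starRingEnd ℂ) (ex z) = ex (-(starRingEnd ℂ) z) := by
  unfold ex
  rw [← Complex.exp_conj]
  congr 1
  simp only [map_mul, Complex.conj_I, Complex.conj_ofReal, map_ofNat]
  ring

/-- The conjugate of a root of unity. -/
theorem conj_root {om : ℂ} (h : om ^ 3 = 1) : (starRingEnd ℂ) om = om⁻¹ := by
  have h1 : ‖om‖ = 1 := Complex.norm_eq_one_of_pow_eq_one h (by norm_num)
  rw [Complex.inv_def, Complex.normSq_eq_norm_sq, h1]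
  simp

end PsGAux

open PsGAux in
theorem tPsG (hC7 : S_C7) (hCus : S_Cus) : S_PsG := by
  intro k t _ f M m R hm hR hlv σ N0 β e he G om hG
  have him : ∀ z : ℂ, (-(starRingEnd ℂ) z).im = z.im := fun z => by simp
  have hconj : ∀ z : ℂ, 0 < z.im →
      MeromorphicAt (fun z => (starRingEnd ℂ) (G (AF f m R σ N0 β (-(starRingEnd ℂ) z)))) z := by
    intro z hz
    have h1 : AnalyticAt ℂ (AF f m R σ N0 β) (-(starRingEnd ℂ) z) :=
      an hC7 hm hR σ N0 β _ (by rw [him]; exact hz)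
    have h2 : AnalyticAt ℂ (fun u => AF f m R σ N0 β (-u)) ((starRingEnd ℂ) z) :=
      AnalyticAt.comp (f := fun u : ℂ => -u) (g := AF f m R σ N0 β) h1 (by fun_prop)
    have h3 : MeromorphicAt (fun u => G (AF f m R σ N0 β (-u))) ((starRingEnd ℂ) z) :=
      (hG.mer _).comp_analyticAt h2
    exact mero_conj h3
  refine ⟨fun z hz => ?_, fun z z' hz hz' α α' hpar h1 h2 => ?_, fun γ => ?_⟩
  · have g1 : MeromorphicAt (fun z => G (AF f m R σ N0 β z)) z :=
      (hG.mer _).comp_analyticAt (an hC7 hm hR σ N0 β z hz)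
    exact g1.mul ((hconj z hz).zpow (-e))
  · have hom0 : om ≠ 0 := by
      intro h
      have := hG.om3
      rw [h] at this
      norm_num at this
    unfold PsG
    rw [h1, h2, hG.per, hG.per, map_mul, map_zpow₀, conj_root hG.om3, mul_zpow, inv_zpow, ← zpow_neg,
      ← zpow_mul]
    have h3 : (3 : ℤ) ∣ α.re + e * α'.re := by
      have h4 := mem_pp.1 hpar
      have h5 : (α + (e : OO k t) * α').re = α.re + e * α'.re := by
        rw [QuadraticAlgebra.re_add, re_mul, re_int, im_int]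
        ring
      rwa [h5] at h4
    obtain ⟨j, hj⟩ := h3
    have h6 : om ^ α.re * om ^ (-α'.re * -e) = 1 := by
      rw [← zpow_add₀ hom0, show α.re + -α'.re * -e = 3 * j by rw [← hj]; ring, zpow_mul]
      have h7 : om ^ (3 : ℤ) = 1 := by
        have := hG.om3
        exact_mod_cast this
      rw [h7, one_zpow]
    calc om ^ α.re * G (AF f m R σ N0 β z) * (om ^ (-α'.re * -e) *
          (starRingEnd ℂ) (G (AF f m R σ N0 β (-(starRingEnd ℂ) z))) ^ (-e))
        = (om ^ α.re * om ^ (-α'.re * -e)) * (G (AF f m R σ N0 β z) *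
          (starRingEnd ℂ) (G (AF f m R σ N0 β (-(starRingEnd ℂ) z))) ^ (-e)) := by ring
      _ = _ := by rw [h6, one_mul]
  · have hdet : γ 0 0 * γ 1 1 - γ 0 1 * γ 1 0 = 1 := by
      have h := γ.det_coe
      rw [Matrix.det_fin_two] at h
      exact h
    obtain ⟨al, hal, hal2⟩ := hCus k t f M m R hm hR hlv σ N0 β (γ 0 0) (γ 0 1) (γ 1 0) (γ 1 1) hdet
    obtain ⟨al', hal', hal2'⟩ := hCus k t f M m R hm hR hlv σ N0 β (γ 0 0) (-(γ 0 1)) (-(γ 1 0)) (γ 1 1)
      (by rw [neg_mul_neg]; exact hdet)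
    refine ⟨fun s => G (al s) * ((starRingEnd ℂ) (G (al' ((starRingEnd ℂ) s)))) ^ (-e), 0, ?_,
      fun z hz => ?_⟩
    · have g1 : MeromorphicAt (fun s => G (al s)) 0 := (hG.mer _).comp_analyticAt hal
      have g2 : MeromorphicAt (fun s => G (al' s)) ((starRingEnd ℂ) 0) := by
        rw [map_zero]
        exact (hG.mer _).comp_analyticAt hal'
      exact g1.mul ((mero_conj g2).zpow (-e))
    · have hz' : 0 < (z : ℂ).im := hz
      have hγ : ((γ • z : UpperHalfPlane) : ℂ) =
          ((γ 0 0 : ℤ) * (z : ℂ) + (γ 0 1 : ℤ)) / ((γ 1 0 : ℤ) * (z : ℂ) + (γ 1 1 : ℤ)) := by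
        rw [UpperHalfPlane.specialLinearGroup_apply]
        simp
      have hγ' : -(starRingEnd ℂ) ((γ • z : UpperHalfPlane) : ℂ) =
          ((γ 0 0 : ℤ) * (-(starRingEnd ℂ) (z : ℂ)) + (-(γ 0 1) : ℤ)) /
            ((-(γ 1 0) : ℤ) * (-(starRingEnd ℂ) (z : ℂ)) + (γ 1 1 : ℤ)) := by
        rw [hγ]
        simp only [map_div₀, map_add, map_mul, map_intCast]
        push_cast
        rw [← neg_div]
        congr 1 <;> ring
      have h9 : (starRingEnd ℂ) (ex ((z : ℂ) / (9 * M))) = ex (-(starRingEnd ℂ) (z : ℂ) / (9 * M)) := by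
        rw [conj_ex]
        congr 1
        simp only [map_div₀, map_mul, map_ofNat, map_natCast]
        ring
      unfold PsG
      rw [hγ', hγ, hal2 _ hz', hal2' _ (by rw [him]; exact hz'), ← h9, ex_div]
      push_cast
      rfl

end Pool.Agent.DT.F
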