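import Pool.Agent.Lib.DT.F.SpecP

set_option autoImplicit false

/-!
# Theorem DT, part F: the functions `T`, `W` near `0`

Adapted from `DK/F/TWg.lean`.
-/

open Filter Topology

noncomputable section

namespace Pool.Agent.DT.F

open Pool.Agent.DT
open Pool.Agent.DI.F (tay Co Cf P0 P1)

private theorem TWg_ratmem (k : Subfield ℂ) (q : ℚ) : (q : ℂ) ∈ k := SubfieldClass.ratCast_mem k q

private def TWg_tt (Λ : PeriodPair) (ka u : ℂ) : ℂ :=
  (-2) * (P0 Λ u - u * u * (1 / 12)) * (Dg Λ ka u)⁻¹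

private def TWg_ww (Λ : PeriodPair) (ka u : ℂ) : ℂ := (-2) * (Dg Λ ka u)⁻¹

private theorem TWg_Tg_eq (Λ : PeriodPair) (ka u : ℂ) : Tg Λ ka u = u * TWg_tt Λ ka u := by
  unfold Tg TWg_tt
  rw [div_eq_mul_inv]
  ring

private theorem TWg_Wg_eq (Λ : PeriodPair) (ka u : ℂ) : Wg Λ ka u = u ^ 3 * TWg_ww Λ ka u := by
  unfold Wg TWg_ww
  rw [div_eq_mul_inv]
  ring

private theorem TWg_algT {x y w t ka : ℂ} (hy : y ≠ 0)
    (h : (2 * y + x + ka) ^ 2 = 4 * x ^ 3 + x ^ 2 + 2 * ka * x + ka ^ 2)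
    (hw : w = -1 / y) (ht : t = -x / y) :
    w = t ^ 3 + t * w + ka * w ^ 2 := by
  subst hw ht
  field_simp
  linear_combination (-1 / 4 : ℂ) * h

/-- The functions `T`, `W` near `0`. -/
theorem tTWg : S_TWg := by
  intro Λ ka hTW k hka
  have hCo : Pool.Agent.DI.F.S_Co := Pool.Agent.DI.F.tCo Pool.Agent.DI.F.tTay
  have hP01 : Pool.Agent.DI.F.S_P01 := Pool.Agent.DI.F.tP01 Pool.Agent.DI.F.tTay hCo
  obtain ⟨⟨cc, cid⟩, c2, -, cinv, -, -, -⟩ := hCo k
  obtain ⟨p1, p2, p3, p4⟩ := hP01 Λ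
  have hg2 := hTW.g2
  have hg3 := hTW.g3
  have q1 : ∀ n : ℕ, (n : ℂ) ∈ k := fun n => by
    have h := TWg_ratmem k n
    push_cast at h
    exact h
  have n12 : (12 : ℂ) ∈ k := by have := q1 12; push_cast at this; exact this
  have n24 : (24 : ℂ) ∈ k := by have := q1 24; push_cast at this; exact this
  have n36 : (36 : ℂ) ∈ k := by have := q1 36; push_cast at this; exact this
  have n216 : (216 : ℂ) ∈ k := by have := q1 216; push_cast at this; exact this
  have m2 : Λ.g₂ ∈ k := by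
    rw [hg2]
    exact k.div_mem (k.sub_mem k.one_mem (k.mul_mem n24 hka)) n12
  have m3 : Λ.g₃ ∈ k := by
    rw [hg3]
    exact k.div_mem (k.sub_mem (k.add_mem (k.neg_mem k.one_mem) (k.mul_mem n36 hka))
      (k.mul_mem n216 (k.pow_mem hka 2))) n216
  have m4 : (1 / 12 : ℂ) ∈ k := k.div_mem k.one_mem n12
  have m5 : (1 / 12 - ka : ℂ) ∈ k := k.sub_mem m4 hka
  have mm2 : (-2 : ℂ) ∈ k := by
    have h := TWg_ratmem k (-2)
    push_cast at h
    exact h
  obtain ⟨hP0, hP1⟩ := p4 k m2 m3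
  have cadd : ∀ {f g : ℂ → ℂ}, Co k f → Co k g → Co k fun q => f q + g q :=
    fun hf hg => (c2 _ _ hf hg).1
  have cmul : ∀ {f g : ℂ → ℂ}, Co k f → Co k g → Co k fun q => f q * g q :=
    fun hf hg => (c2 _ _ hf hg).2.1
  have csub : ∀ {f g : ℂ → ℂ}, Co k f → Co k g → Co k fun q => f q - g q :=
    fun hf hg => (c2 _ _ hf hg).2.2.1
  have hD : Co k (Dg Λ ka) := by
    have e : Dg Λ ka = fun u => P1 Λ u - u * P0 Λ u + u * u * u * (1 / 12 - ka) := by
      funext u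
      unfold Dg
      ring
    rw [e]
    exact cadd (csub hP1 (cmul cid hP0)) (cmul (cmul (cmul cid cid) cid) (cc _ m5))
  have hD0 : Dg Λ ka 0 = -2 := by
    unfold Dg
    rw [p3]
    ring
  have hD0' : Dg Λ ka 0 ≠ 0 := by rw [hD0]; norm_num
  have hDi : Co k fun u => (Dg Λ ka u)⁻¹ := cinv _ hD hD0'
  have ht : Co k (TWg_tt Λ ka) :=
    cmul (cmul (cc _ mm2) (csub hP0 (cmul (cmul cid cid) (cc _ m4)))) hDi
  have hw : Co k (TWg_ww Λ ka) := cmul (cc _ mm2) hDi
  have hT : Co k (Tg Λ ka) := by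
    have e : Tg Λ ka = fun u => u * TWg_tt Λ ka u := funext (TWg_Tg_eq Λ ka)
    rw [e]
    exact cmul cid ht
  have hW : Co k (Wg Λ ka) := by
    have e : Wg Λ ka = fun u => u * u * u * TWg_ww Λ ka u := by
      funext u
      rw [TWg_Wg_eq]
      ring
    rw [e]
    exact cmul (cmul (cmul cid cid) cid) hw
  have T0 : Tg Λ ka 0 = 0 := by rw [TWg_Tg_eq, zero_mul]
  have W0 : Wg Λ ka 0 = 0 := by rw [TWg_Wg_eq]; ring
  have evD : ∀ᶠ u in 𝓝 (0 : ℂ), Dg Λ ka u ≠ 0 := hD.1.continuousAt.eventually_ne hD0'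
  have evL : ∀ᶠ u in 𝓝 (0 : ℂ), u ∉ (Λ.lattice : Set ℂ) \ {0} :=
    Λ.compl_lattice_sdiff_singleton_mem_nhds 0
  -- the last part
  have key : ∀ u : ℂ, u ≠ 0 → Dg Λ ka u ≠ 0 → Wg Λ ka u ≠ 0 ∧
      Λ.weierstrassP u - 1 / 12 = Tg Λ ka u / Wg Λ ka u ∧
      (Λ.derivWeierstrassP u - (Λ.weierstrassP u - 1 / 12) - ka) / 2 = -1 / Wg Λ ka u := by
    intro u hu hd
    obtain ⟨q1, q2⟩ := p1 u hu
    have w0 : Wg Λ ka u ≠ 0 := by
      unfold Wg
      exact div_ne_zero (mul_ne_zero (by norm_num) (pow_ne_zero _ hu)) hd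
    refine ⟨w0, ?_, ?_⟩
    · rw [eq_div_iff w0]
      unfold Wg Tg
      rw [q1]
      field_simp
    · rw [eq_div_iff w0]
      have e : Dg Λ ka u =
          u ^ 3 * (Λ.derivWeierstrassP u - (Λ.weierstrassP u - 1 / 12) - ka) := by
        unfold Dg
        rw [q1, q2]
        ring
      unfold Wg
      rw [mul_div_assoc', div_eq_iff hd, e]
      ring
  have evK : ∀ᶠ u in 𝓝[≠] (0 : ℂ), u ∉ Λ.lattice ∧ Wg Λ ka u ≠ 0 ∧
      Λ.weierstrassP u - 1 / 12 = Tg Λ ka u / Wg Λ ka u ∧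
      (Λ.derivWeierstrassP u - (Λ.weierstrassP u - 1 / 12) - ka) / 2 = -1 / Wg Λ ka u := by
    filter_upwards [evD.filter_mono nhdsWithin_le_nhds, evL.filter_mono nhdsWithin_le_nhds,
      self_mem_nhdsWithin] with u h1 h2 h3
    exact ⟨fun h => h2 ⟨h, h3⟩, key u h3 h1⟩
  have evA : ∀ᶠ u in 𝓝 (0 : ℂ), AnalyticAt ℂ (Wg Λ ka) u := hW.1.eventually_analyticAt
  refine ⟨hT, hW, ?_, ?_, ⟨TWg_tt Λ ka, TWg_ww Λ ka, ht, hw, ?_, ?_, TWg_Tg_eq Λ ka,
    TWg_Wg_eq Λ ka⟩, evK⟩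
  · -- the curve
    rw [eventually_nhdsWithin_iff] at evK
    filter_upwards [evK] with u h
    by_cases hu : u = 0
    · rw [hu, T0, W0]
      ring
    · obtain ⟨h1, h2, h3, h4⟩ := h hu
      have h5 := Λ.derivWeierstrassP_sq u h1
      rw [hg2, hg3] at h5
      set x := Λ.weierstrassP u - 1 / 12 with hx
      set y := (Λ.derivWeierstrassP u - x - ka) / 2 with hy
      have y0 : y ≠ 0 := by
        rw [h4]
        exact div_ne_zero (by norm_num) h2
      have e1 : Λ.derivWeierstrassP u = 2 * y + x + ka := by rw [hy]; ring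
      have e2 : Λ.weierstrassP u = x + 1 / 12 := by rw [hx]; ring
      rw [e1, e2] at h5
      have hwy : Wg Λ ka u = -1 / y := by
        rw [h4]
        field_simp
      refine TWg_algT (x := x) y0 ?_ hwy ?_
      · rw [h5]
        ring
      · have : Tg Λ ka u = x * Wg Λ ka u := by
          rw [h3]
          field_simp
        rw [this, hwy]
        ring
  · -- the derivative
    have evK2 : ∀ᶠ u in 𝓝 (0 : ℂ), u ≠ 0 → (∀ᶠ v in 𝓝 u, v ∉ Λ.lattice ∧ Wg Λ ka v ≠ 0 ∧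
        Λ.weierstrassP v - 1 / 12 = Tg Λ ka v / Wg Λ ka v ∧
        (Λ.derivWeierstrassP v - (Λ.weierstrassP v - 1 / 12) - ka) / 2 = -1 / Wg Λ ka v) := by
      rw [eventually_nhdsWithin_iff] at evK
      filter_upwards [eventually_eventually_nhds.2 evK] with u h hu
      filter_upwards [h, isOpen_ne.mem_nhds hu] with v h1 h2
      exact h1 h2
    filter_upwards [evK2, evA] with u h hA
    by_cases hu : u = 0
    · rw [hu, T0, W0]
      ring
    · have h6 := h hu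
      obtain ⟨h1, h2, h3, h4⟩ := h6.self_of_nhds
      have hder : HasDerivAt Λ.weierstrassP (Λ.derivWeierstrassP u) u := by
        have a1 : AnalyticAt ℂ Λ.weierstrassP u := Λ.analyticOnNhd_weierstrassP u h1
        have a2 := a1.differentiableAt.hasDerivAt
        rwa [Λ.deriv_weierstrassP] at a2
      have hWd : HasDerivAt (Wg Λ ka) (deriv (Wg Λ ka) u) u := hA.differentiableAt.hasDerivAt
      have hTd : HasDerivAt (Tg Λ ka) (Λ.derivWeierstrassP u * Wg Λ ka u +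
          (Λ.weierstrassP u - 1 / 12) * deriv (Wg Λ ka) u) u := by
        refine ((hder.sub_const (1 / 12 : ℂ)).mul hWd).congr_of_eventuallyEq ?_
        filter_upwards [h6] with v hv
        obtain ⟨-, v2, v3, -⟩ := hv
        simp only [Pi.mul_apply]
        rw [v3]
        field_simp
      rw [hTd.deriv]
      have e1 : Tg Λ ka u = (Λ.weierstrassP u - 1 / 12) * Wg Λ ka u := by
        rw [h3]
        field_simp
      rw [eq_div_iff h2] at h4
      rw [e1]
      linear_combination (2 * Wg Λ ka u) * h4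
  · unfold TWg_tt
    rw [hD0, p2]
    norm_num
  · unfold TWg_ww
    rw [hD0]
    norm_num

end Pool.Agent.DT.F
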