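import Pool.Agent.Lib.DT.F.SpecL

/-!
# Theorem DT, part F, module V1a: the set `vN f c 1`, `c = m b`
-/

set_option autoImplicit false

noncomputable section

namespace Pool.Agent.DT.F

open Pool.Agent.MuZ Pool.Agent.FW NumberField IsDedekindDomain Pool.Agent.DT
open Pool.Agent.DI (io ofC io_inj exists_io io_ofC ofC_io VP MP UP TP ex)

variable {k t : ℕ} [SqT k t]

private theorem V1a_claim {c : Ideal (OO k t)} {z : ℂ} (hz : z ∈ Lam c) :
    ∃ y ∈ c, (NI c : ℂ) * (starRingEnd ℂ) z = toC y := by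
  have h1 : (starRingEnd ℂ) z ∈ Lam (cjI c) := by
    refine ((aL2 k t).2.2.2.2.2.2.2.1 c ((starRingEnd ℂ) z)).2 ?_
    rw [Complex.conj_conj]
    exact hz
  have h2 : ∀ x ∈ c * cjI c, ∃ y ∈ c, toC x * (starRingEnd ℂ) z = toC y := by
    intro x hx
    refine Submodule.mul_induction_on hx ?_ ?_
    · intro p hp q hq
      obtain ⟨s, hs⟩ := h1 q hq
      refine ⟨p * s, Ideal.mul_mem_right s c hp, ?_⟩
      rw [toC_mul, toC_mul, mul_assoc, hs]
    · rintro p q ⟨y, hy, ey⟩ ⟨y', hy', ey'⟩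
      refine ⟨y + y', Ideal.add_mem _ hy hy', ?_⟩
      rw [toC_add, toC_add, add_mul, ey, ey']
  have h3 : (NI c : OO k t) ∈ c * cjI c := by
    rw [mul_cjI]
    exact Ideal.mem_span_singleton_self _
  obtain ⟨y, hy, ey⟩ := h2 _ h3
  exact ⟨y, hy, by rw [← ey, toC_nat]⟩

private theorem V1a_top {c : Ideal (OO k t)} (h : NI c = 1) : c = ⊤ := by
  have h6 := mul_cjI c
  rw [h, sN, Nat.cast_one, Ideal.span_singleton_one] at h6
  have h8 : c * cjI c ≤ c := Ideal.mul_le_left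
  rw [h6] at h8
  exact eq_top_iff.2 h8

/-- the products with the elements of `c` -/
private theorem V1a_s {f : ℕ} (hf : 0 < f) {c : Ideal (OO k t)} {v : ℂ} (hv : v - v0 k t f ∈ Lam c)
    {y : OO k t} (hy : y ∈ c) : ∃ s ∈ pp k t, toC y * (3 * f * v) = toC s := by
  obtain ⟨s, hs⟩ := hv y hy
  refine ⟨3 * (f * s) + y * nu k t f, Ideal.add_mem _ (Ideal.mul_mem_right _ _ three_pp)
    (Ideal.mul_mem_left _ _ (nu_pp f)), ?_⟩
  have h1 := nu_v0 (k := k) (t := t) hf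
  rw [toC_add, toC_mul, toC_mul, toC_mul, toC_nat, toC_three, ← hs, ← h1]
  ring

/-- `c 𝔭̄` -/
private theorem V1a_eq {c : Ideal (OO k t)} (hc : c ≠ ⊥) {x : OO k t} (hx : x ∈ c) (hx0 : x ≠ 0)
    (hn : Nm x = 3 * NI c) (h : ∀ y ∈ c, ∃ s ∈ pp k t, 3 * y = x * s) :
    c * ppb k t = sp x := by
  have h1 : sp x ≤ c := (Ideal.span_singleton_le_iff_mem c).2 hx
  obtain ⟨c', hc'⟩ := Ideal.dvd_iff_le.2 h1
  have hc0 : c' ≠ ⊥ := by
    rintro rfl
    rw [Ideal.mul_bot] at hc'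
    exact Eb.ne_sp hx0 hc'
  have h2 : NI c' = 3 := by
    have h3 : (NI (sp x) : ℤ) = 3 * NI c := by rw [NI_sp, hn]
    rw [hc', NI_mul] at h3
    have h4 : NI c * NI c' = NI c * 3 := by
      have h5 : NI c * NI c' = 3 * NI c := by exact_mod_cast h3
      rw [h5, mul_comm]
    exact Nat.eq_of_mul_eq_mul_left (NI_pos hc) h4
  have h3 : c * sp (3 : OO k t) ≤ c * (c' * pp k t) := by
    rw [← mul_assoc]
    have e : c * c' = sp x := hc'.symm
    rw [e, mul_comm c, Ideal.mul_le]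
    intro r hr y hy
    obtain ⟨a, rfl⟩ := Ideal.mem_span_singleton'.1 hr
    obtain ⟨s, hs, hs'⟩ := h y hy
    rw [mul_assoc, hs']
    exact Ideal.mul_mem_left _ _ (Ideal.mul_mem_mul (Ideal.mem_span_singleton_self _) hs)
  have h4 : c' * pp k t ∣ ppb k t * pp k t := by
    have h5 : c * (c' * pp k t) ∣ c * sp (3 : OO k t) := Ideal.dvd_iff_le.2 h3
    have hc1 : c ≠ 0 := by rwa [Ideal.zero_eq_bot]
    have h6 : c' * pp k t ∣ sp (3 : OO k t) := (mul_dvd_mul_iff_left hc1).1 h5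
    have e3 : ((3 : ℕ) : OO k t) = 3 := by norm_num
    have e : sN k t 3 = ppb k t * pp k t := by
      rw [← pp_mul_ppb]
      exact mul_comm _ _
    unfold sN at e
    rw [e3] at e
    rw [← e]
    exact h6
  have h5 : c' ∣ ppb k t := by
    have hp : pp k t ≠ 0 := by
      rw [Ideal.zero_eq_bot]
      exact pp_ne
    exact (mul_dvd_mul_iff_right hp).1 h4
  obtain ⟨c'', hc''⟩ := h5
  have h6 : NI c'' = 1 := by
    have h7 : NI (ppb k t) = NI c' * NI c'' := by rw [← NI_mul, ← hc'']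
    rw [NI_ppb, h2] at h7
    omega
  rw [V1a_top h6, Ideal.mul_top] at hc''
  rw [hc', hc'']

theorem tV1a (hC7 : S_C7) : S_V1a := by
  intro k t _ f m b hm hb v hv
  have hf : 0 < f := hm.pos
  have hf0 : (f : ℂ) ≠ 0 := by exact_mod_cast hf.ne'
  have hc : FB f (m * b) := fb_mul (fm_fb hm) hb
  obtain ⟨hv1, hv2⟩ := ((hC7 k t f m b hm hb).2.1 1 v).1 hv
  generalize m * b = c at hc hv1 hv2 ⊢
  have hu : (3 * f * v : ℂ) ∈ Lam c := by
    intro y hy
    obtain ⟨s, -, hs⟩ := V1a_s hf hv1 hy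
    exact ⟨s, hs⟩
  obtain ⟨x, hxc, hx⟩ := V1a_claim hu
  have hnu : ‖(3 * f * v : ℂ)‖ ^ 2 = 9 * (f : ℝ) ^ 2 * ‖v‖ ^ 2 := by
    rw [norm_mul, norm_mul, Complex.norm_natCast, Complex.norm_ofNat]
    ring
  have hr : (NI c : ℝ) * ‖(3 * f * v : ℂ)‖ ^ 2 = 3 := by
    rw [hnu]
    rw [Nat.cast_one] at hv2
    linear_combination 3 * hv2
  have hxu : toC x * (3 * f * v) = 3 := by
    rw [← hx, mul_assoc, Complex.conj_mul']
    exact_mod_cast hr
  have hx0 : toC x ≠ 0 := by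
    intro h
    rw [h, zero_mul] at hxu
    norm_num at hxu
  have hx00 : x ≠ 0 := fun h => hx0 (by rw [h, toC_zero])
  have hxv : toC x * (f * v) = 1 := by
    have e : (3 : ℂ) * (toC x * (f * v)) = 3 * 1 := by linear_combination hxu
    exact mul_left_cancel₀ (by norm_num) e
  have hnm : Nm x = 3 * NI c := by
    have h1 : ((Nm x : ℤ) : ℝ) = 3 * (NI c : ℝ) := by
      rw [Nm_norm, ← hx, norm_mul, Complex.norm_natCast, RCLike.norm_conj, mul_pow]
      linear_combination (NI c : ℝ) * hr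
    exact_mod_cast h1
  have heq : c * ppb k t = sp x := by
    refine V1a_eq hc.ne hxc hx00 hnm (fun y hy => ?_)
    obtain ⟨s, hs, hs'⟩ := V1a_s hf hv1 hy
    refine ⟨s, hs, toC_inj ?_⟩
    rw [toC_mul, toC_mul, toC_three, ← hs']
    linear_combination (-toC y) * hxu
  have h2 : ∀ x' ∈ c * ppb k t, ∃ u' ∈ ppb k t, toC x' * (v - v0 k t f) = toC u' := by
    intro x' hx'
    refine Submodule.mul_induction_on hx' ?_ ?_
    · intro p hp q hq
      obtain ⟨s, hs⟩ := hv1 p hp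
      refine ⟨s * q, Ideal.mul_mem_left _ s hq, ?_⟩
      rw [toC_mul, toC_mul, ← hs]
      ring
    · rintro p q ⟨y, hy, ey⟩ ⟨y', hy', ey'⟩
      refine ⟨y + y', Ideal.add_mem _ hy hy', ?_⟩
      rw [toC_add, toC_add, add_mul, ey, ey']
  obtain ⟨u', hu', hu2⟩ := h2 x (by rw [heq]; exact Ideal.mem_span_singleton_self _)
  have hnv := nu_v0 (k := k) (t := t) hf
  refine ⟨x, 1 - f * u', hx00, heq, toC_inj ?_, ?_, ?_⟩
  · rw [toC_mul, toC_mul, toC_sub, toC_mul, toC_one, toC_nat, toC_three, ← hu2, ← hnv]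
    linear_combination 3 * hxv
  · have e : (1 : OO k t) - f * u' - 1 = -(f * u') := by ring
    rw [e]
    exact Ideal.neg_mem_iff _ |>.2 (nat_mem_cnd f hu')
  · rw [eq_div_iff (mul_ne_zero hf0 hx0)]
    linear_combination hxv

end Pool.Agent.DT.F
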