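import Pool.Agent.Lib.DT.F.SpecL

/-! Theorem DT, part F, module `V1b`. -/

set_option autoImplicit false
set_option linter.unusedSectionVars false

open scoped Pointwise Topology
open Filter

noncomputable section

namespace Pool.Agent.DT.F

open Pool.Agent.MuZ Pool.Agent.FW NumberField IsDedekindDomain Pool.Agent.DT
open Pool.Agent.DI (io ofC io_inj exists_io io_ofC ofC_io VP MP UP TP ex)

variable {k t : ℕ} [SqT k t]

private theorem V1b_sq {z : ℤ} (h : z ^ 2 = 1) : z = 1 ∨ z = -1 := by
  have h1 : (z - 1) * (z + 1) = 0 := by linear_combination h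
  rcases mul_eq_zero.1 h1 with h2 | h2
  · left
    linarith
  · right
    linarith

private theorem V1b_unit {y : OO k t} (h : Nm y = 1) : y = 1 ∨ y = -1 := by
  have h1 := four_Nm y
  rw [h] at h1
  have hk := hD8 (k := k) (t := t)
  have h2 : y.im = 0 := by
    by_contra h0
    have h3 : 1 ≤ y.im ^ 2 := by
      have := sq_pos_of_ne_zero h0
      omega
    have h4 : (8 : ℤ) ≤ (12 * k - (t : ℤ) ^ 2) * y.im ^ 2 := by nlinarith
    have h5 := sq_nonneg (2 * y.re + t * y.im)
    linarith
  rw [h2] at h1
  have h3 : y.re ^ 2 = 1 := by nlinarith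
  rcases V1b_sq h3 with h4 | h4
  · left
    exact ext' (by rw [h4, re_one]) (by rw [h2, im_one])
  · right
    refine ext' ?_ ?_
    · rw [h4, QuadraticAlgebra.re_neg, re_one]
    · rw [h2, QuadraticAlgebra.im_neg, im_one, neg_zero]

private theorem V1b_three : (3 : OO k t) ≠ 0 := by
  intro h
  have h1 := Nm_nat (k := k) (t := t) 3
  rw [show (((3 : ℕ) : OO k t)) = 3 by norm_cast, h, Nm_zero] at h1
  norm_num at h1

private theorem V1b_sp3 : sN k t 3 = sp (3 : OO k t) := by
  unfold sN
  norm_cast

/-- `sp nu * (m b) * 𝔭̄ = sp 3 * sp y`. -/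
private theorem V1b_id {c : Ideal (OO k t)} {f : ℕ} {x y : OO k t} (h : c * ppb k t = sp x)
    (h' : nu k t f * x = 3 * y) : sp (nu k t f) * c = sp y * pp k t := by
  apply mul_cancel (c := ppb k t) ppb_ne
  rw [mul_assoc, h, mul_assoc, pp_mul_ppb, V1b_sp3, ← sp_mul, h', ← sp_mul, mul_comm y 3]

theorem tV1b (hC7 : S_C7) (hV1a : S_V1a) : S_V1b := by
  intro k t _ f m b hm hb
  have hfp := hm.pos
  have hf4 := hm.four
  have hf0 : (f : ℂ) ≠ 0 := by exact_mod_cast hfp.ne'
  have hfR : (f : ℝ) ≠ 0 := by exact_mod_cast hfp.ne'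
  have hnu := nu_ne (k := k) (t := t) hm.toFok
  refine ⟨fun h => ?_, fun h => ?_⟩
  · obtain ⟨v, hv⟩ := Finset.nonempty_iff_ne_empty.2 h
    obtain ⟨x, y, hx0, hx, hxy, hy, -⟩ := hV1a k t f m b hm hb v hv
    have hy0 : y ≠ 0 := by
      rintro rfl
      rw [mul_zero] at hxy
      exact (mul_ne_zero hnu hx0) hxy
    unfold Ld
    refine ray_of (α := 1) (α' := y) one_ne_zero hy0 ?_ hy ?_
    · rw [sub_self]
      exact (cnd k t f).zero_mem
    · rw [sp_one, Ideal.top_mul]
      exact V1b_id hx hxy
  · obtain ⟨α, α', hα, hα', h1, h2, h3⟩ := ray_norm h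
    have h3' : sp (α * nu k t f) * (m * b * ppb k t) = sp (3 * α') := by
      have e : sp (α * nu k t f) * (m * b * ppb k t) = (sp α * (sp (nu k t f) * (m * b))) * ppb k t := by
        rw [sp_mul]
        ring
      have e1 : sp α * (sp (nu k t f) * (m * b)) = sp α' * pp k t := h3
      rw [e, e1, mul_assoc, pp_mul_ppb, V1b_sp3, ← sp_mul, mul_comm α' 3]
    have h4 : 3 * α' ∈ sp (α * nu k t f) * (m * b * ppb k t) := by
      rw [h3']
      exact Ideal.mem_span_singleton_self _
    obtain ⟨x, hxm, hx⟩ := Ideal.mem_span_singleton_mul.1 h4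
    have hx0 : x ≠ 0 := by
      rintro rfl
      rw [mul_zero] at hx
      exact (mul_ne_zero V1b_three hα') hx.symm
    have hmb : m * b * ppb k t = sp x := by
      apply sp_cancel (mul_ne_zero hα hnu)
      rw [h3', ← hx, sp_mul]
    obtain ⟨y, hxy⟩ : ∃ y : OO k t, nu k t f * x = 3 * y := by
      have h5 : nu k t f * x ∈ sN k t 3 := by
        rw [← pp_mul_ppb]
        refine Ideal.mul_mem_mul (nu_pp f) ?_
        exact Ideal.mul_le_right hxm
      rw [V1b_sp3] at h5
      obtain ⟨y, hy⟩ := Ideal.mem_span_singleton'.1 h5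
      exact ⟨y, by linear_combination -hy⟩
    have hα'y : α' = α * y := by
      have e : (3 : OO k t) * α' = 3 * (α * y) := by
        rw [← hx]
        linear_combination α * hxy
      exact mul_left_cancel₀ V1b_three e
    have hy : y - 1 ∈ cnd k t f := by
      have e : y - 1 = (α' - 1) - (α - 1) * y := by
        rw [hα'y]
        ring
      rw [e]
      exact (cnd k t f).sub_mem h2 ((cnd k t f).mul_mem_right _ h1)
    have hxC : toC x ≠ 0 := toC_ne hx0
    obtain ⟨s, hs, hs'⟩ := mem_cnd.1 hy
    have hyC : toC y = 1 + f * toC s := by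
      have e : y = 1 + (f : OO k t) * s := by
        rw [hs']
        ring
      rw [e, toC_add, toC_one, toC_mul, toC_nat]
    have hv0 := nu_v0 (k := k) (t := t) hfp
    have hxyC : toC (nu k t f) * toC x = 3 * toC y := by
      rw [← toC_mul, hxy, toC_mul, toC_three]
    -- `x (v - v₀) = - s`
    have hxv : toC x * (1 / (f * toC x) - v0 k t f) = - toC s := by
      have e1 : toC x * (1 / (f * toC x)) = 1 / f := by
        field_simp
      have e2 : (3 * f : ℂ) * (toC x * v0 k t f) = 3 * (1 + f * toC s) := by
        rw [← hyC, ← hxyC, ← hv0]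
        ring
      have e3 : (f : ℂ) * (toC x * v0 k t f) = 1 + f * toC s := by
        have : (3 : ℂ) ≠ 0 := by norm_num
        apply mul_left_cancel₀ this
        linear_combination e2
      rw [mul_sub, e1]
      apply mul_left_cancel₀ hf0
      rw [mul_sub, e3]
      field_simp
      ring
    have hNI : (3 : ℝ) * ((NI (m * b) : ℕ) : ℝ) = ‖toC x‖ ^ 2 := by
      rw [← Nm_norm]
      have h6 := NI_sp x
      rw [← hmb, NI_mul, NI_ppb] at h6
      rw [← h6]
      push_cast
      ring
    have hmem : 1 / (f * toC x) ∈ vN f (m * b) 1 := by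
      rw [(hC7 k t f m b hm hb).2.1]
      constructor
      · intro c1 hc1
        have h6 : c1 * s ∈ sp x := by
          rw [← hmb]
          exact Ideal.mul_mem_mul hc1 hs
        obtain ⟨u, hu⟩ := Ideal.mem_span_singleton'.1 h6
        refine ⟨-u, ?_⟩
        apply mul_left_cancel₀ hxC
        have e : toC x * (toC c1 * (1 / (f * toC x) - v0 k t f)) =
            toC c1 * (toC x * (1 / (f * toC x) - v0 k t f)) := by ring
        rw [e, hxv, toC_neg]
        have e1 : toC c1 * toC s = toC u * toC x := by
          rw [← toC_mul, ← hu, toC_mul]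
        linear_combination -e1
      · rw [norm_div, norm_mul, norm_one, Complex.norm_natCast]
        have h5 : ‖toC x‖ ≠ 0 := norm_ne_zero_iff.2 hxC
        have e : 3 * (f : ℝ) ^ 2 * (NI (m * b) : ℝ) * (1 / ((f : ℝ) * ‖toC x‖)) ^ 2 =
            (f : ℝ) ^ 2 * (3 * ((NI (m * b) : ℕ) : ℝ)) * (1 / ((f : ℝ) * ‖toC x‖)) ^ 2 := by ring
        rw [e, hNI]
        field_simp
        simp
    have huni : ∀ v ∈ vN f (m * b) 1, v = 1 / (f * toC x) := by
      intro v hv
      obtain ⟨x', y', hx'0, hx', hxy', hy', rfl⟩ := hV1a k t f m b hm hb v hv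
      have h5 : x' ∈ sp x := by
        rw [← hmb, hx']
        exact Ideal.mem_span_singleton_self x'
      obtain ⟨e, he⟩ := Ideal.mem_span_singleton'.1 h5
      have h6 : Nm x' = Nm x := by
        rw [← NI_sp x', ← NI_sp x, ← hx', hmb]
      have h7 : Nm e = 1 := by
        rw [← he, Nm_mul] at h6
        have h8 := (Nm_pos hx0).ne'
        have h9 : (Nm e - 1) * Nm x = 0 := by linear_combination h6
        rcases mul_eq_zero.1 h9 with h10 | h10
        · linarith
        · exact absurd h10 h8
      rcases V1b_unit h7 with rfl | rfl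
      · rw [one_mul] at he
        rw [he]
      · exfalso
        have hyy : y' = -y := by
          apply mul_left_cancel₀ (V1b_three (k := k) (t := t))
          rw [← hxy', ← he]
          linear_combination -hxy
        have h8 : (2 : OO k t) ∈ sN k t f := by
          have e : (2 : OO k t) = -((y' - 1) + (y - 1)) := by
            rw [hyy]
            ring
          rw [e]
          exact (sN k t f).neg_mem ((sN k t f).add_mem (cnd_le_sN f hy') (cnd_le_sN f hy))
        have h8' : (f : OO k t) ∣ 2 := by
          unfold sN at h8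
          exact Ideal.mem_span_singleton.1 h8
        have h9 := ((nat_dvd_iff f (2 : OO k t)).1 h8').1
        have h10 : ((2 : OO k t)).re = 2 := by
          have := re_nat (k := k) (t := t) 2
          exact_mod_cast this
        rw [h10] at h9
        have h11 : f ∣ 2 := by exact_mod_cast h9
        have h12 := Nat.le_of_dvd (by norm_num) h11
        have h13 := Nat.le_of_dvd hfp hf4
        omega
    refine ⟨x, hx0, hmb, ?_, ?_⟩
    · apply Finset.eq_singleton_iff_unique_mem.2
      exact ⟨hmem, huni⟩
    · intro hmt hL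
      have h5 : sN k t 3 * b ≤ sN k t 3 * (m * b) := by
        have h6 : ∀ y1 ∈ b, (3 : OO k t) * y1 ∈ sN k t 3 * (m * b) := by
          intro y1 hy1
          obtain ⟨u, hu⟩ := hL y1 hy1
          -- `3 y1 = x * (3 f u + y1 nu)`
          have e : (3 : OO k t) * y1 = x * (3 * f * u + y1 * nu k t f) := by
            apply toC_inj
            rw [toC_mul, toC_mul, toC_add, toC_mul, toC_mul, toC_mul, toC_nat, toC_three, ← hu, ← hv0]
            field_simp
            ring
          have e2 : sN k t 3 * (m * b) = sp x * pp k t := by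
            rw [← hmb, ← pp_mul_ppb]
            ring
          rw [e, e2]
          refine Ideal.mul_mem_mul (Ideal.mem_span_singleton_self x) ?_
          refine (pp k t).add_mem ?_ ((pp k t).mul_mem_left _ (nu_pp f))
          rw [mul_assoc]
          exact (pp k t).mul_mem_right _ three_pp
        rw [V1b_sp3]
        refine Ideal.mul_le.2 fun r hr y1 hy1 => ?_
        obtain ⟨a, rfl⟩ := Ideal.mem_span_singleton'.1 hr
        rw [mul_assoc, ← V1b_sp3]
        exact Ideal.mul_mem_left _ _ (h6 y1 hy1)
      have h7 : b ≤ m * b := by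
        intro y1 hy1
        have h8 : (3 : OO k t) * y1 ∈ sp (3 : OO k t) * (m * b) := by
          rw [← V1b_sp3]
          refine h5 (Ideal.mul_mem_mul ?_ hy1)
          rw [V1b_sp3]
          exact Ideal.mem_span_singleton_self _
        obtain ⟨z, hz, hz'⟩ := Ideal.mem_span_singleton_mul.1 h8
        rwa [← mul_left_cancel₀ V1b_three hz']
      have h6 : m * b = b := le_antisymm Ideal.mul_le_right h7
      apply hmt
      apply mul_cancel hb.ne
      rw [h6, Ideal.top_mul]

end Pool.Agent.DT.F
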