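import Pool.Agent.Lib.DT.F.Hm
import Pool.Agent.Lib.DT.F.Al
import Pool.Agent.Lib.DT.F.Cls
import Pool.Agent.Lib.DT.F.CoL
import Pool.Agent.Lib.DT.F.Has
import Pool.Agent.Lib.DT.F.V1a
import Pool.Agent.Lib.DT.F.V1b
import Pool.Agent.Lib.DT.F.Lead
import Pool.Agent.Lib.DT.F.Cub
import Pool.Agent.Lib.DT.F.Cjt
import Pool.Agent.Lib.DT.F.Mer
import Pool.Agent.Lib.DT.F.TWg
import Pool.Agent.Lib.DT.F.TWc
import Pool.Agent.Lib.DT.F.LaF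
import Pool.Agent.Lib.DT.F.uA
import Pool.Agent.Lib.DT.F.KL
import Pool.Agent.Lib.DT.F.Hex
import Pool.Agent.Lib.DT.F.PsE
import Pool.Agent.Lib.DT.F.Gt
import Pool.Agent.Lib.DT.F.Cus
import Pool.Agent.Lib.DT.F.PsG

/-!
# Theorem DT, part F: `S_Lead` and `S_Psi` from the interface (helper79)
-/

set_option autoImplicit false

noncomputable section

namespace Pool.Agent.DT.F

open Pool.Agent.DT

/-- `S_Lead`. -/
theorem xLead (hB12 : S_B12) (hC7 : S_C7) (hR5 : S_R5) (hD9 : S_D9) (hE10 : S_E10) (hKf : S_Kf) :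
    S_Lead :=
  have hHm : S_Hm := tHm hB12 hC7
  have hAl : S_Al := tAl hC7
  tLead hR5 hD9 (tCoL hKf hE10 hR5 hHm hAl) (tHas hR5 hC7 hAl) (tV1b hC7 (tV1a hC7))

/-- `S_Psi`. -/
theorem xPsi (hB1 : S_B1) (hB2 : S_B2) (hB6 : S_B6) (hB7 : S_B7) (hB12 : S_B12) (hC3 : S_C3)
    (hC7 : S_C7) (hR1 : S_R1) (hR5 : S_R5) (hKf : S_Kf) (hLead : S_Lead) : S_Psi :=
  sPsi (tGt hB1 hB2 hB6 hB7 hB12) (tPsG hC7 (tCus hC3))
    (tPsE tCjt (tHex hKf tTWg (tTWc tTWg) tCub tMer (tLaF hR1 hR5 hB1 hB12) (tuA hLead) (tKL hB7 hR5)))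

end Pool.Agent.DT.F
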