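import Pool.Agent.Lib.DT.F.SpecK
import Pool.Agent.Lib.DI.F.VPB
import Pool.Agent.Lib.DI.F5.All

/-!
# Theorem DT, part F, module Asm: assembly of Proposition F (helper79)
-/

set_option autoImplicit false
set_option linter.unusedSectionVars false

open scoped Pointwise Topology MatrixGroups
open Filter CongruenceSubgroup

noncomputable section

namespace Pool.Agent.DT.F

open Pool.Agent.MuZ Pool.Agent.FW NumberField IsDedekindDomain Pool.Agent.DT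
open Pool.Agent.DI (io ofC io_inj exists_io io_ofC ofC_io VP MP UP TP ex)

private theorem Asm_qq (z : UpperHalfPlane) : DIF5.qq z = ex (z : ℂ) := rfl

private theorem Asm_g0 {M : ℕ} {γ : SL(2, ℤ)} (hγ : γ ∈ Gamma1 (9 * M)) :
    G0 (3 * M) (γ 0 0) (γ 0 1) (γ 1 0) (γ 1 1) ∧ (3 * M : ℤ) ∣ γ 1 1 - 1 := by
  obtain ⟨g1, g2, g3⟩ := (Gamma1_mem _ γ).mp hγ
  have hdet : γ 0 0 * γ 1 1 - γ 0 1 * γ 1 0 = 1 := by
    have h := γ.det_coe
    rw [Matrix.det_fin_two] at h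
    exact h
  have h39 : (3 * M : ℤ) ∣ ((9 * M : ℕ) : ℤ) := ⟨3, by push_cast; ring⟩
  have hc : ((9 * M : ℕ) : ℤ) ∣ γ 1 0 := (ZMod.intCast_zmod_eq_zero_iff_dvd _ _).mp g3
  have hd : ((9 * M : ℕ) : ℤ) ∣ γ 1 1 - 1 := by
    have h : ((γ 1 1 - 1 : ℤ) : ZMod (9 * M)) = 0 := by
      push_cast
      rw [g2, sub_self]
    exact (ZMod.intCast_zmod_eq_zero_iff_dvd _ _).mp h
  exact ⟨⟨hdet, h39.trans hc⟩, h39.trans hd⟩

private theorem Asm_co (γ : SL(2, ℤ)) (z : UpperHalfPlane) : ((γ • z : UpperHalfPlane) : ℂ) =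
    ((γ 0 0 : ℤ) * (z : ℂ) + (γ 0 1 : ℤ)) / ((γ 1 0 : ℤ) * (z : ℂ) + (γ 1 1 : ℤ)) := by
  rw [UpperHalfPlane.coe_specialLinearGroup_apply]
  simp

theorem tAsm (hKf : S_Kf) (hF1 : S_F1) (hLead : S_Lead) (hPsi : S_Psi) (hFH : S_FH) : S_F := by
  intro k t _ f M m R hm hR hRC hlv hmt χ hχ e he P hP
  by_contra hcon
  have hcon' : ∀ a b c d : ℤ, G0 (3 * M) a b c d → (3 * M : ℤ) ∣ d - 1 →
      MP P (etaX f m R χ (b / d) + e * etaX f m R χ (-(b / d)) - (1 + e) * etaX f m R χ 0) := by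
    intro a b c d h1 h2
    by_contra h3
    exact hcon ⟨a, b, c, d, h1, h2, h3⟩
  have hPp : P.IsPrime := hP.1.1
  obtain ⟨hfin, -, ⟨σ, hσ⟩, -, -, -, -, -, -, ⟨c, hc⟩, -⟩ := hKf k t f hm.toFok
  obtain ⟨N0, β, hN0, hβ, hu, hvp, hQ27, hα⟩ :=
    hF1 k t f M m R hm hR hRC hlv χ hχ e he P hP σ hσ hcon'
  have hUA : UP P (aF f m R σ N0 β 1) :=
    (hLead k t f m R hm hR hRC σ hσ N0 β hβ).2.2.2 hmt P hP hN0 hu
  obtain ⟨Ψ, hmero, hinv, hcusp, T, W, Z, ψ, γ, Y, j, L, hL, hψL, hTW, hZ, hψ0, hγ0, hrel, hsum⟩ :=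
    hPsi k t f M m R hm hR hRC hlv σ hσ c hc N0 β hβ (DI.UP.ne_zero hUA) e he
  have hM : NeZero (9 * M) := ⟨by
    have := hlv.pos
    omega⟩
  obtain ⟨L', -, hfin', Q1, Q2, -, hQ2, hQ, hco⟩ := DIF5.tW2 (9 * M) io
    (DI.F.VS hP.1.1 hP.1.2) L Ψ ψ j Y hmero
    (fun g hg z => by
      obtain ⟨h1, h2⟩ := Asm_g0 hg
      obtain ⟨α, α', hpar, hz⟩ := hα _ _ _ _ h1 h2
      have hz' : 0 < (-(starRingEnd ℂ) (z : ℂ)).im := by
        rw [Complex.neg_im, Complex.conj_im, neg_neg]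
        exact z.im_pos
      have e1 := (hz (z : ℂ) z.im_pos).1
      have e2 := (hz _ hz').2
      rw [← g0_conj, ← Asm_co] at e2
      rw [← Asm_co] at e1
      exact hinv (z : ℂ) _ z.im_pos (g • z).im_pos α α' hpar e1 e2)
    hcusp hψ0 hψL
    (fun z hz => by
      have h := hsum (z : ℂ) hz
      rw [Asm_qq]
      exact h)
  exact hFH k t f m R hm hR hRC P hP σ hσ c hc N0 β hβ hvp hUA hQ27 T W Z ψ Q1 Q2 γ hTW hZ hψ0 hγ0
    hrel hQ2 hQ L' hfin' (fun n => (hco n).1) (fun n => (hco n).2.2.1) (fun n => (hco n).2.1)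
    (fun n => (hco n).2.2.2)

end Pool.Agent.DT.F
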