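import Pool.Agent.Lib.DT.F.SpecK

/-!
# Theorem DT, part F, module Bet: the element `β`
-/

set_option autoImplicit false
set_option linter.unusedSectionVars false

open scoped Pointwise Topology

noncomputable section

namespace Pool.Agent.DT.F

open Pool.Agent.MuZ Pool.Agent.FW NumberField IsDedekindDomain Pool.Agent.DT
open Pool.Agent.DI (io ofC io_inj exists_io io_ofC ofC_io VP MP UP TP ex)
open Pool.Agent.DI.F (RF red red_one red_mul red_zero red_add red_eq_iff red_eq_zero_iff red_sum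
  vp_mul vp_add vp_sub vp_one vp_zero vp_neg vp_natCast vp_integral vp_sum
  mp_vp mp_coe)

variable {k t : ℕ} [SqT k t]

/-- The ring `A`. -/
def Bet_A (k t : ℕ) [SqT k t] (f : ℕ) {P : Ideal ZZ} (hP : P.IsPrime) : Subring Om where
  carrier := {x | x ∈ Kf k t f ∧ ∀ τ ∈ GK k t, VP P (τ x)}
  mul_mem' := by
    rintro x y ⟨hx, hx'⟩ ⟨hy, hy'⟩
    refine ⟨mul_mem hx hy, fun τ hτ => ?_⟩
    rw [map_mul]
    exact vp_mul hP (hx' τ hτ) (hy' τ hτ)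
  one_mem' := by
    refine ⟨one_mem _, fun τ _ => ?_⟩
    rw [map_one]
    exact vp_one hP
  add_mem' := by
    rintro x y ⟨hx, hx'⟩ ⟨hy, hy'⟩
    refine ⟨add_mem hx hy, fun τ hτ => ?_⟩
    rw [map_add]
    exact vp_add hP (hx' τ hτ) (hy' τ hτ)
  zero_mem' := by
    refine ⟨zero_mem _, fun τ _ => ?_⟩
    rw [map_zero]
    exact vp_zero hP
  neg_mem' := by
    rintro x ⟨hx, hx'⟩
    refine ⟨neg_mem hx, fun τ hτ => ?_⟩
    rw [map_neg]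
    exact vp_neg hP (hx' τ hτ)

/-- The residue maps. -/
def Bet_r (k t : ℕ) [SqT k t] (f : ℕ) {P : Ideal ZZ} (hP : P.IsPrime) (h0 : P ≠ ⊥)
    (τ : Gal(Om/ℚ)) (hτ : τ ∈ GK k t) : Bet_A k t f hP →+* RF hP h0 where
  toFun x := red hP h0 (τ (x : Om))
  map_one' := by
    change red hP h0 (τ (1 : Om)) = 1
    rw [map_one]
    exact red_one hP h0
  map_mul' x y := by
    change red hP h0 (τ ((x : Om) * (y : Om))) = _
    rw [map_mul]
    exact red_mul hP h0 (x.2.2 τ hτ) (y.2.2 τ hτ)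
  map_zero' := by
    change red hP h0 (τ (0 : Om)) = 0
    rw [map_zero]
    exact red_zero hP h0
  map_add' x y := by
    change red hP h0 (τ ((x : Om) + (y : Om))) = _
    rw [map_add]
    exact red_add hP h0 (x.2.2 τ hτ) (y.2.2 τ hτ)

/-- The Galois theory which is used. -/
private structure Bet_G (k t f : ℕ) (R : Finset (Ideal (OO k t))) (σ : Ideal (OO k t) → Gal(Om/ℚ)) :
    Prop where
  pos : 0 < f
  rc : IsRC (cnd k t f) R
  sig : IsSig k t f σ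
  psi : ∀ τ ∈ GK k t, ∃ a : Ideal (OO k t), Psi τ (cnd k t f) a
  gal : ∀ τ ∈ GK k t, ∀ τ' ∈ GK k t, ∀ a a' : Ideal (OO k t), Psi τ (cnd k t f) a →
    Psi τ' (cnd k t f) a' → ((∀ x ∈ Kf k t f, τ x = τ' x) ↔ Ray (cnd k t f) a a')

section sums

variable {f : ℕ} {R : Finset (Ideal (OO k t))} {σ : Ideal (OO k t) → Gal(Om/ℚ)}

/-- The class function `σ b x`. -/
private theorem Bet_cls (h : Bet_G k t f R σ) {x : Om} (hx : x ∈ Kf k t f) (b b' : Ideal (OO k t))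
    (hb : FB f b) (hb' : FB f b') (hr : Ray (cnd k t f) b b') : σ b x = σ b' x :=
  (h.gal _ (h.sig.mem b hb) _ (h.sig.mem b' hb') b b' (h.sig.psi b hb) (h.sig.psi b' hb')).2 hr x hx

private theorem Bet_left (h : Bet_G k t f R σ) {τ : Gal(Om/ℚ)} (hτ : τ ∈ GK k t) {x : Om}
    (hx : x ∈ Kf k t f) : ∑ b ∈ R, τ (σ b x) = ∑ b ∈ R, σ b x := by
  obtain ⟨a, ha⟩ := h.psi τ hτ
  rw [← sum_mul h.pos h.rc (fb_psi ha) (fun b => σ b x) (Bet_cls h hx)]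
  apply Finset.sum_congr rfl
  intro b hb
  have hb' := rc_fb h.rc hb
  have hab := fb_mul (fb_psi ha) hb'
  exact (h.gal (τ * σ b) ((GK k t).mul_mem hτ (h.sig.mem b hb')) _ (h.sig.mem _ hab) (a * b) (a * b)
    (Eb.psi_mul ha (h.sig.psi b hb')) (h.sig.psi _ hab)).2 (ray_refl (cnd_ne h.pos) _) x hx

private theorem Bet_right (h : Bet_G k t f R σ) {ρ : Gal(Om/ℚ)} (hρ : ρ ∈ GK k t) {x : Om}
    (hx : x ∈ Kf k t f) : ∑ b ∈ R, σ b (ρ x) = ∑ b ∈ R, σ b x := by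
  obtain ⟨a, ha⟩ := h.psi ρ hρ
  rw [← sum_mul h.pos h.rc (fb_psi ha) (fun b => σ b x) (Bet_cls h hx)]
  apply Finset.sum_congr rfl
  intro b hb
  have hb' := rc_fb h.rc hb
  have hab := fb_mul (fb_psi ha) hb'
  have h1 : Psi (σ b * ρ) (cnd k t f) (a * b) := by
    rw [mul_comm a b]
    exact Eb.psi_mul (h.sig.psi b hb') ha
  exact (h.gal (σ b * ρ) ((GK k t).mul_mem (h.sig.mem b hb') hρ) _ (h.sig.mem _ hab) (a * b) (a * b)
    h1 (h.sig.psi _ hab)).2 (ray_refl (cnd_ne h.pos) _) x hx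

end sums

/-- The first step: the element `β₀`. -/
private theorem Bet_ex (hKf : S_Kf) (hKP : S_KP) {f : ℕ} {R : Finset (Ideal (OO k t))}
    {σ : Ideal (OO k t) → Gal(Om/ℚ)} (hG : Bet_G k t f R σ) {P : Ideal ZZ} (hf : Fok f)
    (hP : AbP k t P) (κ : Ideal (OO k t) → Om) (S : Set Om) (hκ : ∀ b ∈ R, UP P (κ b))
    (hS : ∀ w ∈ S, w ∈ Kf k t f ∧ VP P w)
    (hS' : ∀ w ∈ S, ∀ τ ∈ GK k t, τ w ∈ S)
    (hS'' : ∀ w ∈ S, MP P (∑ b ∈ R, κ b * σ b w)) (b1 : Ideal (OO k t)) (hb1 : b1 ∈ R) :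
    ∃ x ∈ Bet_A k t f hP.1.1, (∃ s ∈ R, ¬ MP P (σ s x)) ∧ ∀ w ∈ S, MP P (∑ b ∈ R, σ b (x * w)) := by
  classical
  obtain ⟨⟨hPp, h0⟩, hP3, hw⟩ := id hP
  obtain ⟨hfd, -, -, hst, hfix, -, hdist, -, -, -⟩ := hKf k t f hf
  have h3 : (3 : ZZ) ∈ P := (mp_coe hPp 3).1 hP3
  have := charP_RF3 hPp h0 h3
  have hm : ∀ b ∈ R, σ b ∈ GK k t := fun b hb => hG.sig.mem b (rc_fb hG.rc hb)
  have hvS : ∀ w ∈ S, ∀ τ ∈ GK k t, VP P (τ w) := fun w hw τ hτ => (hS _ (hS' w hw τ hτ)).2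
  have hSA : ∀ w ∈ S, w ∈ Bet_A k t f hPp := fun w hw => ⟨(hS w hw).1, hvS w hw⟩
  let r : {b // b ∈ R} → Bet_A k t f hPp →+* RF hPp h0 :=
    fun b => Bet_r k t f hPp h0 (σ b.1) (hm b.1 b.2)
  have hinj : Function.Injective r := by
    intro b b' h
    apply Subtype.ext
    apply hG.rc.uni b.1 b.2 b'.1 b'.2
    refine (hG.gal _ (hm b.1 b.2) _ (hm b'.1 b'.2) b.1 b'.1 (hG.sig.psi _ (rc_fb hG.rc b.2))
      (hG.sig.psi _ (rc_fb hG.rc b'.2))).1 ?_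
    apply hdist P hP _ (hm b.1 b.2) _ (hm b'.1 b'.2)
    intro x hx hxi
    have hxv : ∀ τ : Gal(Om/ℚ), VP P (τ x) := fun τ =>
      vp_integral hPp (hxi.map ((τ : Om ≃ₐ[ℚ] Om).toAlgHom.restrictScalars ℤ))
    have hxR : x ∈ Bet_A k t f hPp := ⟨hx, fun τ _ => hxv τ⟩
    have h4 := RingHom.congr_fun h ⟨x, hxR⟩
    rw [← red_eq_iff hPp h0 (hxv (σ b.1)) (hxv (σ b'.1))]
    exact h4
  have hfin : (Set.range fun (x : Bet_A k t f hPp) (i : {b // b ∈ R}) => r i x).Finite := by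
    have h4 := tResFin3 P hPp h0 h3 (Kf k t f) hfd
    apply (Set.Finite.pi (fun _ : {b // b ∈ R} => h4)).subset
    rintro _ ⟨x, rfl⟩ i _
    exact ⟨σ i.1 (x : Om), hst _ (hm _ i.2) _ x.2.1, x.2.2 _ (hm _ i.2), rfl⟩
  have hsum : ∀ x : Om, x ∈ Bet_A k t f hPp → ∀ i0 : RF hPp h0,
      i0 = ∑ i : {b // b ∈ R}, red hPp h0 (σ i.1 x) → i0 = red hPp h0 (∑ b ∈ R, σ b x) := by
    intro x hx i0 hi
    rw [hi, red_sum hPp h0 R (fun b => σ b x) fun b hb => hx.2 _ (hm b hb)]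
    exact (Finset.sum_coe_sort R fun b => red hPp h0 (σ b x))
  have hnat : ∀ n : ℕ, red hPp h0 (n : Om) = (n : RF hPp h0) := by
    intro n
    induction n with
    | zero =>
      rw [Nat.cast_zero, Nat.cast_zero]
      exact red_zero hPp h0
    | succ n ih =>
      rw [Nat.cast_succ, Nat.cast_succ, red_add hPp h0 (vp_natCast hPp n) (vp_one hPp), ih,
        red_one hPp h0]
  have hval : ∀ x : Bet_A k t f hPp, ∃ n : ℕ, ∑ i, r i x = (n : RF hPp h0) := by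
    intro x
    have h4 := hsum x x.2 (∑ i, r i x) rfl
    have hv : VP P (∑ b ∈ R, σ b (x : Om)) := vp_sum hPp _ _ fun b hb => x.2.2 _ (hm b hb)
    have hK : (∑ b ∈ R, σ b (x : Om)) ∈ KQ k t := by
      apply hfix
      intro τ hτ
      rw [map_sum]
      exact Bet_left hG hτ x.2.1
    obtain ⟨n, hn⟩ := (hKP k t P hP).1 _ hK hv
    refine ⟨n, ?_⟩
    rw [h4, ← hnat n]
    exact (red_eq_iff hPp h0 hv (vp_natCast hPp n)).2 hn
  obtain ⟨x, ⟨i, hi⟩, hx⟩ := tLin3 (Bet_A k t f hPp) (RF hPp h0) {b // b ∈ R} r hinj hfin hval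
    (fun i => red hPp h0 (κ i.1)) {w | (w : Om) ∈ S}
    ⟨⟨b1, hb1⟩, fun h => (hκ b1 hb1).2 ((red_eq_zero_iff hPp h0 (hκ b1 hb1).1).1 h)⟩ (by
      intro w hw
      have hw' : (w : Om) ∈ S := hw
      have h4 := (red_eq_zero_iff hPp h0 (mp_vp (hS'' _ hw'))).2 (hS'' _ hw')
      rw [red_sum hPp h0 R _ fun b hb =>
        vp_mul hPp (hκ b hb).1 (hvS _ hw' _ (hm b hb))] at h4
      rw [← h4, ← Finset.sum_coe_sort R fun b => red hPp h0 (κ b * σ b (w : Om))]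
      apply Finset.sum_congr rfl
      intro b _
      exact (red_mul hPp h0 (hκ b.1 b.2).1 (hvS _ hw' _ (hm b.1 b.2))).symm)
  refine ⟨x, x.2, ⟨i.1, i.2, fun h => hi ?_⟩, ?_⟩
  · exact (red_eq_zero_iff hPp h0 (mp_vp h)).2 h
  · intro w hw
    have h4 := hx ⟨w, hSA w hw⟩ hw
    have hv : ∀ b ∈ R, VP P (σ b ((x : Om) * w)) := by
      intro b hb
      rw [map_mul]
      exact vp_mul hPp (x.2.2 _ (hm b hb)) (hvS w hw _ (hm b hb))
    rw [← red_eq_zero_iff hPp h0 (vp_sum hPp _ _ hv), red_sum hPp h0 R _ hv, ← h4,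
      ← Finset.sum_coe_sort R fun b => red hPp h0 (σ b ((x : Om) * w))]
    apply Finset.sum_congr rfl
    intro b _
    rw [map_mul]
    exact red_mul hPp h0 (x.2.2 _ (hm b.1 b.2)) (hvS w hw _ (hm b.1 b.2))

/-- **The element `β`.** -/
theorem tBet (hE1 : S_E1) (hKf : S_Kf) (hKP : S_KP) : S_Bet := by
  intro k t _ f R hf hR P hP σ hσ κ S hκ hS hS' hS'' b1 hb1
  have hf0 : 0 < f := hf.pos
  obtain ⟨-, -, -, hst, -, hgal, -, -, -, -⟩ := hKf k t f hf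
  have hpsi : ∀ τ ∈ GK k t, ∃ a : Ideal (OO k t), Psi τ (cnd k t f) a := by
    intro τ hτ
    obtain ⟨a, ha⟩ := (hE1 k t (cnd k t f) (cnd_ne hf0)).1 τ hτ 1 one_pos
    exact ⟨a, ha.1⟩
  have hG : Bet_G k t f R σ := ⟨hf0, hR, hσ, hpsi, hgal⟩
  obtain ⟨x, hxA, ⟨s, hs, hsx⟩, hx⟩ := Bet_ex hKf hKP hG hf hP κ S hκ hS hS' hS'' b1 hb1
  have hm : ∀ b ∈ R, σ b ∈ GK k t := fun b hb => hσ.mem b (rc_fb hR hb)
  obtain ⟨ρ, hρ⟩ : ∃ ρ, ρ = (σ b1)⁻¹ * σ s := ⟨_, rfl⟩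
  have hρG : ρ ∈ GK k t := by
    rw [hρ]
    exact (GK k t).mul_mem ((GK k t).inv_mem (hm b1 hb1)) (hm s hs)
  refine ⟨ρ x, hst _ hρG _ hxA.1, ?_, ?_, ?_⟩
  · have h4 : σ b1 (ρ x) = σ s x := by
      change (σ b1 * ρ) x = σ s x
      rw [hρ, mul_inv_cancel_left]
    rw [h4]
    exact ⟨hxA.2 _ (hm s hs), hsx⟩
  · intro τ hτ
    exact hxA.2 (τ * ρ) ((GK k t).mul_mem hτ hρG)
  · intro w' hw'
    have h4 := hx (ρ⁻¹ w') (hS' w' hw' _ ((GK k t).inv_mem hρG))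
    have h5 : x * ρ⁻¹ w' ∈ Kf k t f :=
      mul_mem hxA.1 (hst _ ((GK k t).inv_mem hρG) _ (hS w' hw').1)
    rw [← Bet_right hG hρG h5] at h4
    have h6 : ρ (x * ρ⁻¹ w') = ρ x * w' := by
      rw [map_mul]
      have h7 : ρ (ρ⁻¹ w') = w' := by
        change (ρ * ρ⁻¹) w' = w'
        rw [mul_inv_cancel]
        rfl
      rw [h7]
    rw [h6] at h4
    exact h4

end Pool.Agent.DT.F
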