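import Pool.Agent.Lib.DT.F.SpecK

/-!
# Theorem DT, part F: module `F1` (`S_F1`)
-/

set_option autoImplicit false
set_option linter.unusedSectionVars false

open scoped Pointwise Topology MatrixGroups
open Filter

noncomputable section

namespace Pool.Agent.DT.F

open Pool.Agent.MuZ Pool.Agent.FW NumberField IsDedekindDomain Pool.Agent.DT
open Pool.Agent.DI (io ofC io_inj exists_io io_ofC ofC_io VP MP UP TP ex)

private theorem F1_neg (b d : ℤ) : -((b : ℚ) / d) = ((-b : ℤ) : ℚ) / d := by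
  push_cast
  ring

private theorem F1_la {k t : ℕ} (f : ℕ) (m : Ideal (OO k t)) (e b d : ℤ) :
    laT f m b d + e * laT f m (-b) d = muT f m e b d := by
  unfold laT muT
  rw [F1_neg]
  ring

theorem tF1 (hKf : S_Kf) (hBet : S_Bet) (hMu : S_Mu) (hSm : S_Sm) (hCoQ : S_CoQ) (hPb : S_Pb) :
    S_F1 := by
  intro k t _ f M m R hm hFR hR hLv χ hχ e he P hP σ hσ hyp
  have hPp : P.IsPrime := hP.1.1
  obtain ⟨-, kw, -, k4, -⟩ := hKf k t f hm.toFok
  obtain ⟨b1, hb1, hb2, hb3⟩ := exists_Ld hm hR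
  have hmu := hMu k t f M m R hm hLv
  have h0 : (0 : ℚ).den.Coprime M := by
    rw [Rat.den_zero]
    exact Nat.coprime_one_left M
  obtain ⟨sm1, sm2⟩ := hSm k t f M m R hm hFR hR hLv χ hχ P hP σ hσ e
  -- the numbers `muT`
  have hmK : ∀ a b c d : ℤ, G0 (3 * M) a b c d → (3 * M : ℤ) ∣ d - 1 →
      muT f m e b d ∈ Kf k t f := by
    intro a b c d h1 h2
    have e1 := (hmu _ (den_cop h1 h2 dvd_rfl)).1
    have e2 := (hmu _ (den_cop (g0_inv h1) h2 dvd_rfl)).1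
    have e3 := (hmu _ h0).1
    rw [← F1_neg] at e2
    unfold muT
    have e4 : (e : Om) ∈ Kf k t f := intCast_mem (Kf k t f) e
    exact sub_mem (add_mem e1 (mul_mem e4 e2)) (mul_mem (add_mem (one_mem _) e4) e3)
  have hmV : ∀ a b c d : ℤ, G0 (3 * M) a b c d → (3 * M : ℤ) ∣ d - 1 → ∀ τ ∈ GK k t,
      VP P (τ (muT f m e b d)) := by
    intro a b c d h1 h2 τ hτ
    have e1 := (hmu _ (den_cop h1 h2 dvd_rfl)).2.1 P hP τ hτ
    have e2 := (hmu _ (den_cop (g0_inv h1) h2 dvd_rfl)).2.1 P hP τ hτ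
    have e3 := (hmu _ h0).2.1 P hP τ hτ
    rw [← F1_neg] at e2
    unfold muT
    rw [map_sub, map_add, map_mul, map_mul, map_add, map_one, map_intCast]
    exact (e1.add ((DI.VP.int e).mul e2)).sub ((DI.VP.one.add (DI.VP.int e)).mul e3)
  -- the set `S`
  let S : Set Om := {w | ∃ τ ∈ GK k t, ∃ a b c d : ℤ, G0 (3 * M) a b c d ∧
    (3 * M : ℤ) ∣ d - 1 ∧ w = τ (muT f m e b d)}
  have hS1 : ∀ w ∈ S, w ∈ Kf k t f ∧ VP P w := by
    rintro w ⟨τ, hτ, a, b, c, d, h1, h2, rfl⟩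
    exact ⟨k4 τ hτ _ (hmK a b c d h1 h2), hmV a b c d h1 h2 τ hτ⟩
  have hS2 : ∀ w ∈ S, ∀ τ ∈ GK k t, τ w ∈ S := by
    rintro w ⟨τ', hτ', a, b, c, d, h1, h2, rfl⟩ τ hτ
    exact ⟨τ * τ', mul_mem hτ hτ', a, b, c, d, h1, h2, rfl⟩
  have hS3 : ∀ w ∈ S, MP P (∑ b ∈ R, χ b * σ b w) := by
    rintro w ⟨τ, hτ, a, b, c, d, h1, h2, rfl⟩
    exact sm2 a b c d h1 h2 (hyp a b c d h1 h2) τ hτ
  obtain ⟨β₀, hβK, hβ1, hβ2, hβ3⟩ := hBet k t f R hm.toFok hR P hP σ hσ χ S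
    (fun b hb => sm1 b (rc_fb hR hb)) hS1 hS2 hS3 b1 hb1
  obtain ⟨J1, hJ1⟩ := hCoQ k t f m R hm hFR σ hσ β₀
  obtain ⟨J2, hJ2⟩ := hPb k t f M m R hm hFR hR hLv P hP σ hσ β₀ hβK hβ2
  obtain ⟨N0, hN0, hper⟩ := hJ2 (max J1 J2) (le_max_right _ _)
  obtain ⟨j, hj⟩ : ∃ j, j = max J1 J2 := ⟨_, rfl⟩
  rw [← hj] at hper
  refine ⟨N0, (1 - wO k t) ^ j * β₀, hN0,
    mul_mem (pow_mem (sub_mem (one_mem _) kw) j) hβK, ?_, ?_, ?_, ?_⟩
  · intro b hb hLd
    rw [hb3 b hb hLd, map_mul, wb_fix (hσ.mem b1 (rc_fb hR hb1)) j]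
    exact ((up_wb hP).pow j).mul hβ1
  · intro τ hτ
    rw [map_mul, wb_fix hτ j]
    exact ((up_wb hP).1.pow j).mul (hβ2 τ hτ)
  · intro Q hQ n
    exact hJ1 j (hj ▸ le_max_left _ _) Q hQ N0 n
  · intro a b c d h1 h2
    obtain ⟨α, hα1, hα2⟩ := hper a b c d h1 h2
    obtain ⟨α', hα'1, hα'2⟩ := hper a (-b) (-c) d (g0_inv h1) h2
    refine ⟨α, α', ?_, fun z hz => ⟨hα2 z hz, ?_⟩⟩
    · rw [← mp_iff hP, toO_add, toO_mul, toO_int, ← hα1, ← hα'1]
      have e1 : (N0 : Om) * perA f m R σ ((1 - wO k t) ^ j * β₀) b d +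
          (e : Om) * ((N0 : Om) * perA f m R σ ((1 - wO k t) ^ j * β₀) (-b) d) =
          ((N0 : Om) * (1 - wO k t) ^ j) * ∑ b' ∈ R, σ b' (β₀ * muT f m e b d) := by
        unfold perA
        have e2 : ∀ b' ∈ R, σ b' ((1 - wO k t) ^ j * β₀ * laT f m b d) +
            (e : Om) * σ b' ((1 - wO k t) ^ j * β₀ * laT f m (-b) d) =
            (1 - wO k t) ^ j * σ b' (β₀ * muT f m e b d) := by
          intro b' hb'
          rw [← F1_la f m e b d]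
          simp only [map_mul, map_add, map_intCast, wb_fix (hσ.mem b' (rc_fb hR hb')) j]
          ring
        have e4 : ∑ b' ∈ R, σ b' ((1 - wO k t) ^ j * β₀ * laT f m b d) +
            (e : Om) * ∑ b' ∈ R, σ b' ((1 - wO k t) ^ j * β₀ * laT f m (-b) d) =
            (1 - wO k t) ^ j * ∑ b' ∈ R, σ b' (β₀ * muT f m e b d) := by
          rw [Finset.mul_sum, Finset.mul_sum, ← Finset.sum_add_distrib]
          exact Finset.sum_congr rfl e2
        linear_combination (N0 : Om) * e4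
      rw [e1]
      refine MP.mul_left ((DI.VP.nat N0).mul ((up_wb hP).1.pow j)) ?_
      exact hβ3 _ ⟨1, one_mem _, a, b, c, d, h1, h2, rfl⟩
    · have h3 := hα'2 z hz
      rw [Int.cast_neg, Int.cast_neg, ← sub_eq_add_neg] at h3
      exact h3

end Pool.Agent.DT.F
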