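import Pool.Agent.Lib.DT.F.SpecK

/-!
# Theorem DT, part F, module KP: the field `K` at the primes above `3`
-/

set_option autoImplicit false

open scoped Pointwise Topology MatrixGroups
open Filter

noncomputable section

namespace Pool.Agent.DT.F

open Pool.Agent.MuZ Pool.Agent.FW NumberField IsDedekindDomain Pool.Agent.DT
open Pool.Agent.DI (io ofC io_inj exists_io io_ofC ofC_io VP MP UP TP ex)

variable {k t : ℕ} [SqT k t] {P : Ideal ZZ}

/-- elements of `KQ` are `a + b w` -/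
private theorem KP_form (x : Om) (hx : x ∈ KQ k t) : ∃ a b : ℚ, x = (a : Om) + (b : Om) * wO k t := by
  have hint : IsIntegral ℚ (wO k t) := (Algebra.IsAlgebraic.isAlgebraic (wO k t)).isIntegral
  have h1 : x ∈ Algebra.adjoin ℚ {wO k t} := by
    rw [← IntermediateField.adjoin_simple_toSubalgebra_of_isAlgebraic hint.isAlgebraic]
    exact hx
  clear hx
  induction h1 using Algebra.adjoin_induction with
  | mem y hy =>
      rw [Set.mem_singleton_iff] at hy
      exact ⟨0, 1, by rw [hy]; simp⟩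
  | algebraMap r => exact ⟨r, 0, by simp⟩
  | add y z hy hz ihy ihz =>
      obtain ⟨a, b, h⟩ := ihy
      obtain ⟨a', b', h'⟩ := ihz
      refine ⟨a + a', b + b', ?_⟩
      rw [h, h']
      push_cast
      ring
  | mul y z hy hz ihy ihz =>
      obtain ⟨a, b, h⟩ := ihy
      obtain ⟨a', b', h'⟩ := ihz
      refine ⟨a * a' - 3 * k * (b * b'), a * b' + b * a' + t * (b * b'), ?_⟩
      rw [h, h']
      push_cast
      linear_combination ((b : Om) * b') * wO_sq (k := k) (t := t)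

private theorem KP_den (x : Om) (hx : x ∈ KQ k t) :
    ∃ (N : ℕ) (v : OO k t), 0 < N ∧ x * (N : Om) = toO v := by
  obtain ⟨a, b, h⟩ := KP_form x hx
  refine ⟨a.den * b.den, ⟨a.num * b.den, b.num * a.den⟩, Nat.mul_pos a.pos b.pos, ?_⟩
  have ha : (a : Om) * (a.den : Om) = (a.num : Om) := by
    have h1 := Rat.mul_den_eq_num a
    exact_mod_cast congrArg (fun r : ℚ => (r : Om)) h1
  have hb : (b : Om) * (b.den : Om) = (b.num : Om) := by
    have h1 := Rat.mul_den_eq_num b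
    exact_mod_cast congrArg (fun r : ℚ => (r : Om)) h1
  rw [toO_apply, h]
  push_cast
  linear_combination (b.den : Om) * ha + (a.den : Om) * wO k t * hb

/-- `x / 3 ^ (j + 1)` in `V_P` implies `x` in `M_P` -/
private theorem KP_mp [P.IsPrime] (h3 : MP P 3) {x : Om} {j : ℕ} (h : VP P (x / 3 ^ (j + 1))) :
    MP P x := by
  have e : x = 3 * (3 ^ j * (x / 3 ^ (j + 1))) := by
    field_simp
    ring
  rw [e]
  exact MP.mul_right h3 ((h3.vp.pow j).mul h)

private theorem KP_wI : wI k t ∈ pp k t := by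
  rw [mem_pp]
  exact dvd_zero 3

private theorem KP_wb : 1 - wI k t ∈ ppb k t := by
  rw [mem_ppb, QuadraticAlgebra.re_sub, QuadraticAlgebra.im_sub, re_one, im_one]
  change (3 : ℤ) ∣ 1 - 0 + (0 - 1)
  norm_num

private theorem KP_three {u v : OO k t} (hu : u ∈ pp k t) (hv : v ∈ ppb k t) :
    ∃ s : OO k t, u * v = 3 * s := by
  have h1 : u * v ∈ sN k t 3 := by
    rw [← pp_mul_ppb]
    exact Ideal.mul_mem_mul hu hv
  obtain ⟨s, hs⟩ := Ideal.mem_span_singleton.1 h1
  exact ⟨s, by rw [hs]; push_cast; rfl⟩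

private theorem KP_toO3 : toO (3 : OO k t) = 3 := by
  have h := toO_nat (k := k) (t := t) 3
  exact_mod_cast h

private theorem KP_toOb : toO (1 - wI k t) = 1 - wO k t := by
  rw [toO_sub, toO_one, toO_wI]

/-- (a) -/
private theorem KP_a (hP : AbP k t P) (j : ℕ) : ∀ v : OO k t, VP P (toO v / 3 ^ j) →
    ∃ s : OO k t, (1 - wI k t) ^ j * v = 3 ^ j * s := by
  have hPp : P.IsPrime := hP.1.1
  induction j with
  | zero =>
    intro v _
    exact ⟨v, by rw [pow_zero, pow_zero]⟩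
  | succ j ih =>
    intro v hv
    have h1 : v ∈ pp k t := (mp_iff hP v).1 (KP_mp hP.2.1 hv)
    obtain ⟨v', hv'⟩ := KP_three h1 (KP_wb (k := k) (t := t))
    have e : toO v' / 3 ^ j = (1 - wO k t) * (toO v / 3 ^ (j + 1)) := by
      have e1 : toO v * (1 - wO k t) = 3 * toO v' := by
        rw [← KP_toOb, ← toO_mul, hv', toO_mul, KP_toO3]
      rw [pow_succ]
      field_simp
      linear_combination -e1
    obtain ⟨s, hs⟩ := ih v' (by
      rw [e]
      exact (DI.VP.one.sub (by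
        rw [← toO_wI]
        exact toO_VP _)).mul hv)
    refine ⟨s, ?_⟩
    calc (1 - wI k t) ^ (j + 1) * v = (1 - wI k t) ^ j * (v * (1 - wI k t)) := by ring
      _ = 3 * ((1 - wI k t) ^ j * v') := by rw [hv']; ring
      _ = 3 ^ (j + 1) * s := by rw [hs]; ring

/-- the elements of `O` at the primes above `𝔭̄` -/
private theorem KP_mpb {Q : Ideal ZZ} (hQ : AbPb k t Q) {v : OO k t} (h : MP Q (toO v)) :
    v ∈ ppb k t := by
  have hQp : Q.IsPrime := hQ.1.1
  have h1 : MP Q (((v.re + v.im : ℤ)) : Om) := by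
    have h2 : MP Q ((v.im : Om) * (1 - wO k t)) := MP.mul_left (DI.VP.int _) hQ.2.2
    have h3 := h.add h2
    have e : toO v + (v.im : Om) * (1 - wO k t) = ((v.re + v.im : ℤ) : Om) := by
      rw [toO_apply]
      push_cast
      ring
    rwa [e] at h3
  rw [mem_ppb]
  by_contra hcon
  have hcop : IsCoprime (3 : ℤ) (v.re + v.im) :=
    (Int.prime_three.coprime_iff_not_dvd).2 hcon
  obtain ⟨a, b, hab⟩ := hcop
  have e : (1 : Om) = a * 3 + b * ((v.re + v.im : ℤ) : Om) := by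
    have h2 : ((a * 3 + b * (v.re + v.im) : ℤ) : Om) = ((1 : ℤ) : Om) := congrArg _ hab
    push_cast at h2 ⊢
    exact h2.symm
  apply MP.one_not (P := Q)
  rw [e]
  exact (MP.mul_left (DI.VP.int a) hQ.2.1).add (MP.mul_left (DI.VP.int b) h1)

/-- (b) -/
private theorem KP_b {Q : Ideal ZZ} (hQ : AbPb k t Q) (j : ℕ) : ∀ v : OO k t,
    VP Q (toO v / 3 ^ j) → ∃ s : OO k t, wI k t ^ j * v = 3 ^ j * s := by
  have hQp : Q.IsPrime := hQ.1.1
  induction j with
  | zero =>
    intro v _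
    exact ⟨v, by rw [pow_zero, pow_zero]⟩
  | succ j ih =>
    intro v hv
    have h1 : v ∈ ppb k t := KP_mpb hQ (KP_mp hQ.2.1 hv)
    obtain ⟨v', hv'⟩ := KP_three (KP_wI (k := k) (t := t)) h1
    have e : toO v' / 3 ^ j = wO k t * (toO v / 3 ^ (j + 1)) := by
      have e1 : wO k t * toO v = 3 * toO v' := by
        rw [← toO_wI, ← toO_mul, hv', toO_mul, KP_toO3]
      rw [pow_succ]
      field_simp
      linear_combination -e1
    obtain ⟨s, hs⟩ := ih v' (by
      rw [e]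
      exact (by
        rw [← toO_wI]
        exact toO_VP _ : VP Q (wO k t)).mul hv)
    refine ⟨s, ?_⟩
    calc wI k t ^ (j + 1) * v = wI k t ^ j * (wI k t * v) := by ring
      _ = 3 * (wI k t ^ j * v') := by rw [hv']; ring
      _ = 3 ^ (j + 1) * s := by rw [hs]; ring

/-- (c) -/
private theorem KP_c {Q : Ideal ZZ} (hP : AbP k t P) (hQ : AbPb k t Q) (j : ℕ) (v : OO k t)
    (h1 : VP P (toO v / 3 ^ j)) (h2 : VP Q (toO v / 3 ^ j)) : ∃ s : OO k t, v = 3 ^ j * s := by
  obtain ⟨s, hs⟩ := KP_a hP j v h1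
  obtain ⟨s', hs'⟩ := KP_b hQ j v h2
  have hcop : IsCoprime (wI k t) (1 - wI k t) := ⟨1, 1, by ring⟩
  obtain ⟨A, B, hAB⟩ := hcop.pow (m := j) (n := j)
  refine ⟨A * s' + B * s, ?_⟩
  calc v = (A * wI k t ^ j + B * (1 - wI k t) ^ j) * v := by rw [hAB, one_mul]
    _ = A * (wI k t ^ j * v) + B * ((1 - wI k t) ^ j * v) := by ring
    _ = 3 ^ j * (A * s' + B * s) := by rw [hs, hs']; ring

private theorem KP_toO3pow (j : ℕ) : toO ((3 : OO k t) ^ j) = 3 ^ j := by
  rw [toO_pow, KP_toO3]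

/-- the denominator -/
private theorem KP_den3 (x : Om) (hx : x ∈ KQ k t) : ∃ (j n : ℕ) (v : OO k t), n.Coprime 3 ∧
    (n : Om) * x = toO v / 3 ^ j := by
  obtain ⟨N, v, hN, h⟩ := KP_den x hx
  obtain ⟨j, n, hn, hj⟩ := Nat.exists_eq_pow_mul_and_not_dvd hN.ne' 3 (by norm_num)
  refine ⟨j, n, v, ?_, ?_⟩
  · exact ((Nat.Prime.coprime_iff_not_dvd Nat.prime_three).2 hn).symm
  · rw [eq_div_iff (pow_ne_zero j three_ne_zero), ← h, hj]
    push_cast
    ring

private theorem KP_one [P.IsPrime] (hw : MP P (wO k t)) (j : ℕ) : MP P ((1 - wO k t) ^ j - 1) := by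
  induction j with
  | zero =>
    rw [pow_zero, sub_self]
    exact MP.zero
  | succ j ih =>
    have e : (1 - wO k t) ^ (j + 1) - 1 = (1 - wO k t) * ((1 - wO k t) ^ j - 1) - wO k t := by ring
    rw [e]
    exact (MP.mul_left (DI.VP.one.sub hw.vp) ih).sub hw

private theorem KP_mod [P.IsPrime] (h3 : MP P 3) (m : ℤ) :
    MP P ((m : Om) - (((m % 3).toNat : ℕ) : Om)) := by
  have h5 : 0 ≤ m % 3 := Int.emod_nonneg _ (by norm_num)
  have e6 : (((m % 3).toNat : ℕ) : Om) = ((m % 3 : ℤ) : Om) := by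
    have h7 : (((m % 3).toNat : ℕ) : ℤ) = m % 3 := Int.toNat_of_nonneg h5
    exact_mod_cast congrArg (fun r : ℤ => (r : Om)) h7
  have e7 : (m : Om) - ((m % 3 : ℤ) : Om) = ((m / 3 : ℤ) : Om) * 3 := by
    have h8 : 3 * (m / 3) + m % 3 = m := Int.mul_ediv_add_emod _ _
    have h9 : ((3 * (m / 3) + m % 3 : ℤ) : Om) = ((m : ℤ) : Om) := congrArg _ h8
    rw [Int.cast_add, Int.cast_mul] at h9
    rw [← h9]
    push_cast
    ring
  rw [e6, e7]
  exact MP.mul_left (DI.VP.int _) h3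

theorem tKP : S_KP := by
  intro k t _ P hP
  have hPp : P.IsPrime := hP.1.1
  refine ⟨?_, ?_⟩
  · intro x hx hv
    obtain ⟨j, n, v, hn, h⟩ := KP_den3 x hx
    have hnx : VP P ((n : Om) * x) := (DI.VP.nat n).mul hv
    obtain ⟨s, hs⟩ := KP_a hP j v (h ▸ hnx)
    have e1 : (1 - wO k t) ^ j * ((n : Om) * x) = toO s := by
      have h1 : (1 - wO k t) ^ j * toO v = 3 ^ j * toO s := by
        rw [← KP_toOb, ← toO_pow, ← toO_mul, hs, toO_mul, KP_toO3pow]
      rw [h, mul_div_assoc', h1, mul_div_cancel_left₀ _ (pow_ne_zero j three_ne_zero)]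
    have h2 : MP P ((n : Om) * x - s.re) := by
      have e2 : (n : Om) * x - s.re =
          (s.im : Om) * wO k t - ((n : Om) * x) * ((1 - wO k t) ^ j - 1) := by
        have e3 : toO s = s.re + s.im * wO k t := toO_apply s
        rw [e3] at e1
        linear_combination e1
      rw [e2]
      exact (MP.mul_left (DI.VP.int _) hP.2.2).sub (MP.mul_left hnx (KP_one hP.2.2 j))
    obtain ⟨n', u, hn'⟩ : IsCoprime (n : ℤ) 3 := by
      exact_mod_cast Nat.isCoprime_iff_coprime.2 hn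
    have h3 : MP P (x - ((n' * s.re : ℤ) : Om)) := by
      have e4 : x - ((n' * s.re : ℤ) : Om) = (u * x) * 3 + n' * ((n : Om) * x - s.re) := by
        have e5 : ((n' * n + u * 3 : ℤ) : Om) = ((1 : ℤ) : Om) := congrArg _ hn'
        push_cast at e5 ⊢
        linear_combination -x * e5
      rw [e4]
      exact (MP.mul_left ((DI.VP.int u).mul hv) hP.2.1).add (MP.mul_left (DI.VP.int n') h2)
    refine ⟨((n' * s.re) % 3).toNat, ?_⟩
    have h6 : MP P (((n' * s.re : ℤ) : Om) - ((((n' * s.re) % 3).toNat : ℕ) : Om)) :=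
      KP_mod hP.2.1 _
    have h10 := h3.add h6
    rwa [sub_add_sub_cancel] at h10
  · intro Q hQ x hx hvP hvQ
    have hQp : Q.IsPrime := hQ.1.1
    obtain ⟨j, n, v, hn, h⟩ := KP_den3 x hx
    obtain ⟨s, hs⟩ := KP_c hP hQ j v (h ▸ (DI.VP.nat n).mul hvP) (h ▸ (DI.VP.nat n).mul hvQ)
    refine ⟨n, hn, s, ?_⟩
    rw [h, hs, toO_mul, KP_toO3pow, mul_div_cancel_left₀ _ (pow_ne_zero j three_ne_zero)]

end Pool.Agent.DT.F
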