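import Pool.Agent.Lib.DT.F.SpecK
import Pool.Agent.Lib.MuZ.Inst

/-!
# Theorem DT, part F, module `Kf`: Galois theory of the ray class field `Kf k t f`
-/

set_option autoImplicit false

open scoped Pointwise Topology MatrixGroups
open Filter

noncomputable section

namespace Pool.Agent.DT.F

open Pool.Agent.MuZ Pool.Agent.FW NumberField IsDedekindDomain Pool.Agent.DT
open Pool.Agent.DI (io ofC io_inj exists_io io_ofC ofC_io VP MP UP TP ex)

/-- A Frobenius element at `P` in `Gal(Om/K)`. -/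
private theorem Kf_frob {k t : ℕ} [SqT k t] {P : Ideal ZZ} (hP : AbP k t P) :
    ∃ φ ∈ GK k t, Fro P 3 φ := by
  obtain ⟨hN, h3, hw⟩ := hP
  have : P.IsPrime := hN.1
  have h3' : ((3 : ℕ) : ZZ) ∈ P := (DI.MP.nat_iff (P := P) 3).1 (by exact_mod_cast h3)
  obtain ⟨φ, hφ⟩ := Eb.tF0 P 3 hN Nat.prime_three h3'
  refine ⟨φ, ?_, hφ⟩
  rw [mem_GK_iff]
  have hsq := wO_sq (k := k) (t := t)
  have h4 : (φ (wO k t) - wO k t) * (φ (wO k t) - (t - wO k t)) = 0 := by
    have h5 := congrArg φ hsq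
    simp only [map_sub, map_mul, map_pow, map_ofNat, map_natCast] at h5
    linear_combination h5 - hsq
  rcases mul_eq_zero.1 h4 with h5 | h5
  · exact sub_eq_zero.1 h5
  · exfalso
    have h6 : φ (wO k t) = t - wO k t := sub_eq_zero.1 h5
    have h7 := DI.VP.frob (P := P) (φ := φ) (l := 3) hφ (DI.MP.vp hw)
    rw [h6] at h7
    have h8 : MP P (wO k t + wO k t ^ 3) := by
      have h9 : wO k t ^ 3 = wO k t * wO k t ^ 2 := by ring
      rw [h9]
      exact DI.MP.add hw (DI.MP.mul_right hw (DI.VP.pow (DI.MP.vp hw) 2))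
    have h9 := DI.MP.add h7 h8
    have h10 : (t : Om) - wO k t - wO k t ^ 3 + (wO k t + wO k t ^ 3) = t := by ring
    rw [h10] at h9
    rcases (inferInstance : SqT k t).out with ⟨ht, -⟩ | ⟨ht, -⟩
    · rw [ht, Nat.cast_one] at h9
      exact DI.MP.one_not h9
    · rw [ht] at h9
      have h11 := h9.sub h3
      have h12 : ((4 : ℕ) : Om) - 3 = 1 := by
        push_cast
        ring
      rw [h12] at h11
      exact DI.MP.one_not h11

theorem tKf (hE1 : S_E1) (hE7 : S_E7) (hE8 : S_E8) (hKfI : S_KfI) (hKfU : S_KfU)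
    (hIne : FW.S_Ine) : S_Kf := by
  intro k t _ f hfo
  have hf : 0 < f := hfo.pos
  have hn : cnd k t f ≠ ⊥ := cnd_ne hf
  have hray : ∀ a a' : Ideal (OO k t), Ray (cnd k t f) a ⊤ → Ray (cnd k t f) a a' →
      Ray (cnd k t f) a' ⊤ := fun a a' h h' => ray_trans hn (ray_symm hn h') h
  obtain ⟨hfd, hle, hfix⟩ := hE8 k t (cnd k t f) (fun a : Ideal (OO k t) => Ray (cnd k t f) a ⊤) hn
    (ray_refl hn ⊤)
    (fun a h => ⟨(ray_fb hf (ray_symm hn h) (fb_top f)).ne,
      (ray_fb hf (ray_symm hn h) (fb_top f)).cop⟩)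
    hray
    (fun a a' h h' => by
      have h1 := ray_mul hn h h'
      rwa [Ideal.mul_top] at h1)
  have hnor : ∀ τ ∈ GK k t, ∀ x ∈ Kf k t f, τ x ∈ Kf k t f :=
    Eb.tAb hE1 aO7 k t (cnd k t f) (fun a : Ideal (OO k t) => Ray (cnd k t f) a ⊤) hn hray
  refine ⟨hfd, hle (IntermediateField.mem_adjoin_simple_self ℚ (wO k t)), ?_, hnor, ?_, ?_, ?_,
    hKfU k t f hfo, fun P hP => Kf_frob hP, DI.tA1, ?_⟩
  · -- representatives
    choose! σ hσ using fun (b : Ideal (OO k t)) (hb : FB f b) =>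
      hE7 k t (cnd k t f) b hn hb.ne hb.cop
    exact ⟨σ, fun b hb => (hσ b hb).1, fun b hb => (hσ b hb).2⟩
  · -- the fixed field
    intro x hx
    have h2 : x ∈ IntermediateField.fixedField (KQ k t).fixingSubgroup := by
      rintro ⟨τ, hτ⟩
      exact hx τ hτ
    rwa [InfiniteGalois.fixedField_fixingSubgroup] at h2
  · -- the Galois group
    intro τ hτ τ' hτ' a a' ha ha'
    have hρ : τ⁻¹ * τ' ∈ GK k t := mul_mem (inv_mem hτ) hτ'
    obtain ⟨s, hs, -⟩ := (hE1 k t (cnd k t f) hn).1 _ hρ 1 one_pos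
    have h2 := Eb.psi_mul ha hs
    rw [mul_inv_cancel_left] at h2
    have h3 : Ray (cnd k t f) (a * s) a' := (hE1 k t (cnd k t f) hn).2.1 τ' _ _ h2 ha'
    have h4 : (∀ x ∈ Kf k t f, τ x = τ' x) ↔ Ray (cnd k t f) s ⊤ := by
      rw [← hfix _ hρ s hs]
      constructor
      · intro h x hx
        have h5 := h x hx
        rw [AlgEquiv.mul_apply, ← h5, ← AlgEquiv.mul_apply, inv_mul_cancel]
        rfl
      · intro h x hx
        have h5 := h x hx
        have h6 : τ' x = (τ * (τ⁻¹ * τ')) x := by rw [mul_inv_cancel_left]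
        rw [h6, AlgEquiv.mul_apply, h5]
    rw [h4]
    constructor
    · intro h
      have h5 : Ray (cnd k t f) (a * s) (a * ⊤) := ray_mul hn (ray_refl hn a) h
      rw [Ideal.mul_top] at h5
      exact ray_trans hn (ray_symm hn h5) h3
    · intro h
      have h5 : Ray (cnd k t f) (a * s) (a * ⊤) := by
        rw [Ideal.mul_top]
        exact ray_trans hn h3 (ray_symm hn h)
      exact ray_cancel' hn ha.ne ha.cop h5
  · -- reduction is injective
    intro P hP τ hτ τ' hτ' h x hx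
    have hP' : AbP k t (τ'⁻¹ • P) := abp_smul hP (inv_mem hτ')
    have hp : P.IsPrime := hP.1.1
    have hρ : τ'⁻¹ * τ ∈ GK k t := mul_mem (inv_mem hτ') hτ
    obtain ⟨s, hs, -, hsx⟩ := hIne (KQ k t) (Kf k t f) hfd hle (τ'⁻¹ • P) hP'.1.1 hP'.1.2 _ hρ
      (hnor _ hρ) (by
      intro y hy
      have h3 := (DI.MP.smul (P := P) τ'⁻¹ (x := τ (y : Om) - τ' (y : Om))).2 (h _ hy y.2)
      have h4 : τ'⁻¹ (τ (y : Om) - τ' (y : Om)) = (((τ'⁻¹ * τ) • y - y : ZZ) : Om) := by
        rw [map_sub, ← AlgEquiv.mul_apply, ← AlgEquiv.mul_apply, inv_mul_cancel]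
        rfl
      rw [h4] at h3
      have hp' : (τ'⁻¹ • P).IsPrime := hP'.1.1
      exact (DI.MP.coe_iff _).1 h3)
    have h5 : (τ'⁻¹ * τ) x = x := by
      rw [← hsx x hx]
      exact (hKfI k t f hfo _ hP' s hs).2.1 x hx
    have h6 : τ x = (τ' * (τ'⁻¹ * τ)) x := by rw [mul_inv_cancel_left]
    rw [h6, AlgEquiv.mul_apply, h5]
  · -- complex conjugation
    intro c hc
    refine ⟨?_, cj_wO hc⟩
    apply AlgEquiv.ext
    intro x
    rw [AlgEquiv.mul_apply, cj_cj hc]
    rfl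

end Pool.Agent.DT.F
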