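import Pool.Agent.Lib.DT.F.SpecK
import Pool.Agent.Lib.DT.G.RUp
import Pool.Agent.Lib.DT.G.Cop
import Pool.Agent.Lib.DT.GL.Tp

/-!
# Theorem DT, part F, module KfI: inertia at `P` is trivial on `Kf`
-/

set_option autoImplicit false
set_option linter.unusedSectionVars false

open scoped Pointwise

noncomputable section

namespace Pool.Agent.DT.F

open Pool.Agent.MuZ Pool.Agent.FW Pool.Agent.DT
open Pool.Agent.DI (io ofC io_inj exists_io io_ofC ofC_io VP MP UP TP ex)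

variable {k t : ℕ}

private theorem KfI_GK [hs : SqT k t] {P : Ideal ZZ} (hP : AbP k t P) {τ : Gal(Om/ℚ)}
    (hτ : τ ∈ P.inertia Gal(Om/ℚ)) : τ ∈ GK k t := by
  obtain ⟨⟨hP1, hP2⟩, h3, hw⟩ := hP
  rw [mem_GK_iff]
  have e1 : wO k t ^ 2 = t * wO k t - 3 * k := wO_sq
  have e2 : τ (wO k t) ^ 2 = t * τ (wO k t) - 3 * k := by
    have := congrArg τ e1
    rw [map_pow, map_sub, map_mul, map_mul, map_natCast, map_natCast, map_ofNat] at this
    exact this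
  have e3 : (τ (wO k t) - wO k t) * (τ (wO k t) + wO k t - t) = 0 := by
    linear_combination e2 - e1
  rcases mul_eq_zero.1 e3 with h | h
  · exact sub_eq_zero.1 h
  · exfalso
    have hm : MP P (τ (wO k t) - wO k t) := DI.VP.inertia hτ hw.vp
    have e4 : τ (wO k t) - wO k t + wO k t + wO k t = (t : Om) := by
      linear_combination h
    have ht : MP P (t : Om) := by
      rw [← e4]
      exact (hm.add hw).add hw
    have h1 : MP P (1 : Om) := by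
      rcases hs.out with ⟨rfl, -⟩ | ⟨rfl, -⟩
      · simpa using ht
      · have e5 : (1 : Om) = ((4 : ℕ) : Om) - 3 := by norm_num
        rw [e5]
        exact ht.sub h3
    exact DI.MP.one_not h1

/-- `sN (3 f) = 𝔭 ⊓ cnd`. -/
private theorem KfI_inf [SqT k t] {f : ℕ} (hf : Fok f) :
    sN k t (3 * f) = pp k t ⊓ cnd k t f := by
  rw [← Ideal.mul_eq_inf_of_coprime (fb_pp hf).cop]
  have e' : ((3 * f : ℕ) : OO k t) = (f : OO k t) * ((3 : ℕ) : OO k t) := by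
    rw [Nat.mul_comm, Nat.cast_mul]
  change Ideal.span {((3 * f : ℕ) : OO k t)} = pp k t * (Ideal.span {(f : OO k t)} * ppb k t)
  rw [e', ← Ideal.span_singleton_mul_span_singleton]
  have e'' : Ideal.span {((3 : ℕ) : OO k t)} = pp k t * ppb k t := pp_mul_ppb.symm
  rw [e'']
  ac_rfl

/-- **KfI.** Inertia at `P` is trivial on `Kf`. -/
theorem tKfI (hE1 : S_E1) (hE4 : S_E4) (hE6 : S_E6) : S_KfI := by
  intro k t _ f hf P hP τ hτ
  have hG : τ ∈ GK k t := KfI_GK hP hτ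
  have hf0 : 0 < f := hf.pos
  have hpos : 0 < 3 * f := by omega
  have m1 : sN k t (3 * f) ≠ ⊥ := Eb.ne_sN hpos
  have m3 : cnd k t f ≠ ⊥ := cnd_ne hf0
  have n3 : sN k t (3 * f) ≤ cnd k t f := sN_le_cnd f
  have htop : Psi τ (cnd k t f) (⊤ : Ideal (OO k t)) :=
    ((hE4 k t P hP.1 τ hG hτ).1 _ m3).1 hP (by
      have h : pp k t ⊔ cnd k t f = ⊤ := (fb_pp hf).cop
      change cnd k t f ⊔ pp k t = ⊤
      rw [sup_comm]
      exact h)
  refine ⟨hG, fun x hx => hx τ hG ⊤ htop (ray_refl m3 ⊤), ?_⟩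
  intro hz x hx
  obtain ⟨a, ha, haF⟩ := (hE1 k t _ m1).1 τ hG (3 * f) hpos
  have hac : Psi τ (cnd k t f) a := (hE1 k t _ m1).2.2.2.2 τ _ a ha n3
  have hray : Ray (cnd k t f) a ⊤ := (hE1 k t _ m3).2.1 τ a ⊤ hac htop
  have hC := G.tCop aO4 aO6
  obtain ⟨β, hβ0, hβ1, hβ2, hβ3⟩ := G.tRUp aO6 hC k t (cnd k t f) (sN k t (3 * f)) ⊤ a m1 n3
    top_ne_bot ha.ne ((hC k t).2.2.2.2.1 _).2 haF hray
  rw [Ideal.mul_top] at hβ3
  have n7 : sN k t (3 * f) ≤ sN k t 3 := Eb.sN_le (Dvd.intro _ rfl)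
  have ha3 : Psi τ (sN k t 3) a := (hE1 k t _ m1).2.2.2.2 τ _ a ha n7
  have hpr : IsPrimitiveRoot (zet 3) 3 := GL.zet3_prim
  have e1 : τ (zet 3) = zet 3 ^ NI a := hE6 k t τ 3 a hG (by norm_num) ha3 _ hpr.pow_eq_one
  have d1 : (3 : ℤ) ∣ (NI a : ℤ) - 1 := by
    rw [hz] at e1
    have hN0 : NI a ≠ 0 := (NI_pos ha.ne).ne'
    obtain ⟨n, hn⟩ := Nat.exists_eq_succ_of_ne_zero hN0
    rw [hn, Nat.succ_eq_add_one, pow_succ] at e1
    have hz0 : zet 3 ≠ 0 := hpr.ne_zero (by norm_num)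
    have e2 : zet 3 ^ n = 1 := by
      have : (zet 3 ^ n - 1) * zet 3 = 0 := by linear_combination -e1
      rcases mul_eq_zero.1 this with h | h
      · exact sub_eq_zero.1 h
      · exact absurd h hz0
    obtain ⟨c, hc⟩ := (hpr.pow_eq_one_iff_dvd n).1 e2
    rw [hn, hc]
    exact ⟨c, by push_cast; ring⟩
  have d2 : (3 : ℤ) ∣ (NI a : ℤ) - NI (sp β) :=
    aO9 k t 3 (by norm_num) a (sp β) ((aO7 k t _ m1).2.2.2.2.2.2.1 _ _ _ n7 hβ3)
  rw [NI_sp] at d2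
  have d3 : (3 : ℤ) ∣ Nm β - 1 := by
    have := dvd_sub d1 d2
    have e : (NI a : ℤ) - 1 - ((NI a : ℤ) - Nm β) = Nm β - 1 := by ring
    rwa [e] at this
  have hpp : β - 1 ∈ pp k t :=
    ((hC k t).2.2.2.2.2.2.2.2.1 β (cnd_le_ppb f hβ1)).1.1 d3
  have hF : β - 1 ∈ sN k t (3 * f) := by
    rw [KfI_inf hf]
    exact ⟨hpp, hβ1⟩
  have hr : Ray (sN k t (3 * f)) (sp β) ⊤ :=
    ray_of one_ne_zero hβ0 (by rw [sub_self]; exact zero_mem _) hF (by rw [sp_one, Ideal.top_mul, Ideal.mul_top])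
  exact hx τ hG a ha (ray_trans m1 hβ3 hr)

end Pool.Agent.DT.F
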