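import Pool.Agent.Lib.DT.F.SpecK
import Pool.Agent.Lib.DT.GL.Tp

/-!
# Theorem DT, part F: module `KfN` (the ray class field modulo `3 f`)
-/

set_option autoImplicit false
set_option linter.unusedSectionVars false
set_option linter.unusedVariables false

open scoped Pointwise Topology MatrixGroups
open Filter

noncomputable section

namespace Pool.Agent.DT.F

open Pool.Agent.MuZ Pool.Agent.FW NumberField IsDedekindDomain Pool.Agent.DT
open Pool.Agent.DI (io ofC io_inj exists_io io_ofC ofC_io VP MP UP TP ex)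

variable {k t : ℕ} [SqT k t]

private theorem KfN_pow {ζ : Om} (h3 : ζ ^ 3 = 1) {n : ℕ} (h : (3 : ℤ) ∣ (n : ℤ) - 1) : ζ ^ n = ζ := by
  have h1 : n % 3 = 1 := by omega
  have h2 : n = 3 * (n / 3) + 1 := by omega
  rw [h2, pow_add, pow_mul, h3, one_pow, one_mul, pow_one]

theorem tKfN (hE1 : S_E1) (hE6 : S_E6) (hE8 : S_E8) (hE9 : S_E9) : S_KfN := by
  intro k t _ f hf
  have hf0 : 0 < 3 * f := by
    have := hf.pos
    omega
  have hn : sN k t (3 * f) ≠ ⊥ := Eb.ne_sN hf0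
  have H1 : Ray (sN k t (3 * f)) (⊤ : Ideal (OO k t)) ⊤ := ray_refl hn ⊤
  have H2 : ∀ a : Ideal (OO k t), Ray (sN k t (3 * f)) a ⊤ → a ≠ ⊥ ∧ PrI a (sN k t (3 * f)) := by
    intro a ha
    obtain ⟨h1, h2⟩ := (aO7 k t _ hn).2.2.2.2.2.1 a ⊤ ha
    exact ⟨h1.2 Eb.ne_top, h2.2 (Eb.pri_top _)⟩
  have H3 : ∀ a a' : Ideal (OO k t), Ray (sN k t (3 * f)) a ⊤ → Ray (sN k t (3 * f)) a a' →
      Ray (sN k t (3 * f)) a' ⊤ := by
    intro a a' ha haa
    exact ray_trans hn (ray_symm hn haa) ha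
  have H4 : ∀ a a' : Ideal (OO k t), Ray (sN k t (3 * f)) a ⊤ → Ray (sN k t (3 * f)) a' ⊤ →
      Ray (sN k t (3 * f)) (a * a') ⊤ := by
    intro a a' ha ha'
    have h := ray_mul hn ha ha'
    rwa [Ideal.top_mul] at h
  refine ⟨?_, ?_, ?_, ?_⟩
  · exact (hE8 k t (sN k t (3 * f)) (fun a => Ray (sN k t (3 * f)) a ⊤) hn H1 H2 H3 H4).1
  · intro x hx
    have hx' := kf_mem.1 hx
    intro τ hτ a ha hr
    exact hx' τ hτ a (Eb.psi_level ha (sN_le_cnd f))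
      ((aO7 k t _ hn).2.2.2.2.2.2.1 (cnd k t f) a ⊤ (sN_le_cnd f) hr)
  · intro τ hτ a ha hr
    have h3 : sN k t (3 * f) ≤ sN k t 3 := Eb.sN_le (Dvd.intro _ rfl)
    have hps : Psi τ (sN k t 3) a := Eb.psi_level ha h3
    have hr3 : Ray (sN k t 3) a ⊤ := (aO7 k t _ hn).2.2.2.2.2.2.1 (sN k t 3) a ⊤ h3 hr
    have h9 := aO9 k t 3 (by norm_num) a ⊤ hr3
    rw [NI_top] at h9
    rw [hE6 k t τ 3 a hτ (by norm_num) hps (zet 3) GL.zet3_cube]
    exact KfN_pow GL.zet3_cube (by exact_mod_cast h9)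
  · have hcj : cjI (sN k t (3 * f)) = sN k t (3 * f) := (aO3 k t).2.2.2.2.1 (3 * f)
    exact (hE9 k t).2.1 (sN k t (3 * f)) (fun a => Ray (sN k t (3 * f)) a ⊤) hn H1 H2 H3 H4 hcj
      (fun a ha => by
        have h := ray_cj ha
        rw [hcj, cjI_top] at h
        exact h)

end Pool.Agent.DT.F
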