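import Pool.Agent.Lib.DT.F.SpecK
import Pool.Agent.Lib.DT.GL.UnrT
import Pool.Agent.Lib.DT.GL.Iu
import Pool.Agent.Lib.DT.GL.Tp

/-!
# Theorem DT, part F: module `KfU` (`Kf` is unramified at `P`)
-/

set_option autoImplicit false
set_option linter.unusedSectionVars false

open scoped Pointwise Topology MatrixGroups
open Filter

noncomputable section

namespace Pool.Agent.DT.F

open Pool.Agent.MuZ Pool.Agent.FW NumberField IsDedekindDomain Pool.Agent.DT
open Pool.Agent.DI (io ofC io_inj exists_io io_ofC ofC_io VP MP UP TP ex)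

variable {k t : ℕ} [SqT k t]

/-- `Tam` in the form for `x / λ`. -/
private theorem KfU_tam {P : Ideal ZZ} [P.IsPrime] {M : IntermediateField ℚ Om} (hT : GL.Tam P M)
    {x : Om} (hx : x ∈ M) (hm : MP P x) : VP P (x / GL.lam) := by
  refine DI.VP.of_pow (n := 2) (by norm_num) ?_
  have h1 := hT x hx hm
  have e : (x / GL.lam) ^ 2 = -(zet 3 ^ 2) * (x ^ 2 / 3) := by
    have hz : zet 3 ≠ 0 := by
      intro h
      have h3 := GL.zet3_cube
      rw [h] at h3
      norm_num at h3
    rw [div_pow, GL.lam_sq]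
    rw [div_eq_iff (mul_ne_zero (by norm_num) hz)]
    have h3 := GL.zet3_cube
    linear_combination (-(x ^ 2)) * h3
  rw [e]
  exact DI.VP.mul (DI.VP.neg (DI.VP.pow GL.zet3_vp 2)) h1

theorem tKfU (hKfI : S_KfI) (hKfN : S_KfN) : S_KfU := by
  intro k t _ f hf P hP x hx hm
  have hPp : P.IsPrime := hP.1.1
  obtain ⟨N1, N2, N3, N4⟩ := hKfN k t f hf
  have hT : GL.Tam P (NN k t f) := by
    intro z hz hmz
    exact GL.tUnrT (NN k t f) N1 N4 N3 P hP.1.1 hP.1.2 hP.2.1
      (fun τ hτ h3 y hy => (hKfI k t f hf P hP τ hτ).2.2 h3 y hy) z hz hmz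
  have hl : GL.lam ∈ NN k t f := by
    unfold GL.lam
    exact sub_mem (one_mem _) N3
  have hxN : x ∈ NN k t f := N2 hx
  have hyN : x / GL.lam ∈ NN k t f := div_mem hxN hl
  have hyV : VP P (x / GL.lam) := KfU_tam hT hxN hm
  obtain ⟨ι, hι, hιz⟩ := GL.tIu P hP.1.1 hP.2.1 1 2 (by norm_num)
  have hιz3 : ι (zet 3) = zet 3 ^ 2 := hιz (zet 3) (by rw [pow_one]; exact GL.zet3_cube)
  have hιx : ι x = x := (hKfI k t f hf P hP ι hι).2.1 x hx
  have hιl : ι GL.lam = -(zet 3 ^ 2) * GL.lam := by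
    unfold GL.lam
    rw [map_sub, map_one, hιz3]
    have h2 := GL.zet3_sq
    have h3 := GL.zet3_cube
    linear_combination (-1 : Om) * h3
  have hιy : ι (x / GL.lam) = -(zet 3) * (x / GL.lam) := by
    have hz : zet 3 ≠ 0 := by
      intro h
      have h3 := GL.zet3_cube
      rw [h] at h3
      norm_num at h3
    rw [map_div₀, hιx, hιl]
    have hl0 := GL.lam_ne
    rw [div_eq_iff (mul_ne_zero (neg_ne_zero.2 (pow_ne_zero 2 hz)) hl0)]
    have h3 := GL.zet3_cube
    field_simp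
    linear_combination (-x) * h3
  have hmy0 := DI.VP.inertia hι hyV
  rw [hιy] at hmy0
  have hmy : MP P (x / GL.lam) := by
    have h := DI.MP.mul_left (P := P) GL.zet3_vp hmy0
    have e : zet 3 * (-(zet 3) * (x / GL.lam) - x / GL.lam) = x / GL.lam := by
      have h2 := GL.zet3_sq
      linear_combination (-(x / GL.lam)) * h2
    rwa [e] at h
  have hyy : VP P (x / GL.lam / GL.lam) := KfU_tam hT hyN hmy
  have e : x / 3 = -(zet 3) * (x / GL.lam / GL.lam) := by
    rw [div_div, ← pow_two, GL.lam_sq]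
    have hz : zet 3 ≠ 0 := by
      intro h
      have h3 := GL.zet3_cube
      rw [h] at h3
      norm_num at h3
    field_simp
  rw [e]
  exact DI.VP.mul (DI.VP.neg GL.zet3_vp) hyy

end Pool.Agent.DT.F
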