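import Pool.Agent.Lib.DT.F.SpecK

/-!
# Theorem DT, part F, module Mu: the numbers `etaM f m ⊤ r`
-/

set_option autoImplicit false

open scoped Pointwise

noncomputable section

namespace Pool.Agent.DT.F

open Pool.Agent.MuZ Pool.Agent.FW NumberField IsDedekindDomain Pool.Agent.DT
open Pool.Agent.DI (io ofC io_inj exists_io io_ofC ofC_io VP MP UP TP ex)

theorem tMu (hC6 : S_C6) (hC8 : S_C8) (hC9 : S_C9) : S_Mu := by
  intro k t _ f M m R hm hlv r hr
  have hr' : r.den.Coprime (NI m) := Nat.Coprime.coprime_dvd_right (lv_m hlv) hr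
  refine ⟨?_, ?_, ?_⟩
  · rw [kf_mem]
    intro τ hτ a hψ hray
    rw [hC8 k t f m ⊤ hm (fb_top f) r hr' τ hτ a hψ, Ideal.mul_top]
    exact ((hC6 k t f m a hm (fb_psi hψ)).1 ⊤ (fb_top f) hray).2 r
  · intro P hP τ hτ
    have h1 := hC9 k t f M m ⊤ hm (fb_top f) (Eb.pri_top _) (lv_top hlv) r hr (τ⁻¹ • P)
      (abp_smul hP (inv_mem hτ))
    have h2 := (VP.smul (P := τ⁻¹ • P) τ (x := etaM f m ⊤ r)).2 h1
    rwa [smul_inv_smul] at h2
  · intro σ hσ b hb
    rw [hC8 k t f m ⊤ hm (fb_top f) r hr' (σ b) (hσ.mem b hb) b (hσ.psi b hb), Ideal.mul_top]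

end Pool.Agent.DT.F
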