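import Pool.Agent.Lib.DT.F.SpecK

/-!
# Theorem DT, part F, module `Pa`: the periods of `A`
-/

set_option autoImplicit false
set_option linter.unusedSectionVars false

open scoped Pointwise Topology MatrixGroups
open Filter

noncomputable section

namespace Pool.Agent.DT.F

open Pool.Agent.MuZ Pool.Agent.FW NumberField IsDedekindDomain Pool.Agent.DT
open Pool.Agent.DI (io ofC io_inj exists_io io_ofC ofC_io VP MP UP TP ex)

theorem tPa (hE1 : S_E1) (hKf : S_Kf) (hMu : S_Mu) (hC2 : S_C2) : S_Pa := by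
  intro k t _ f M m R hFM hFR hR hLv P hP σ hσ β hβ hβV a b c' d hg hd
  have hf : 0 < f := hFM.pos
  have hp : P.IsPrime := hP.1.1
  obtain ⟨-, -, -, hst, hfix, hiff, -⟩ := hKf k t f hFM.toFok
  obtain ⟨hE, -⟩ := hE1 k t (cnd k t f) (cnd_ne hf)
  have hden : ((b : ℚ) / d).den.Coprime M := den_cop hg hd dvd_rfl
  have hden0 : (0 : ℚ).den.Coprime M := by simp
  obtain ⟨hr1, hr2, hr3⟩ := hMu k t f M m R hFM hLv _ hden
  obtain ⟨h01, h02, h03⟩ := hMu k t f M m R hFM hLv _ hden0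
  have hla : laT f m b d ∈ Kf k t f := (Kf k t f).sub_mem hr1 h01
  have hlaV : ∀ τ ∈ GK k t, VP P (τ (laT f m b d)) := by
    intro τ hτ
    unfold laT
    rw [map_sub]
    exact (hr2 P hP τ hτ).sub (h02 P hP τ hτ)
  have hy : β * laT f m b d ∈ Kf k t f := (Kf k t f).mul_mem hβ hla
  have hcl : ∀ b1 b2 : Ideal (OO k t), FB f b1 → FB f b2 → Ray (cnd k t f) b1 b2 →
      σ b1 (β * laT f m b d) = σ b2 (β * laT f m b d) := by
    intro b1 b2 h1 h2 h3
    exact (hiff _ (hσ.mem b1 h1) _ (hσ.mem b2 h2) _ _ (hσ.psi b1 h1) (hσ.psi b2 h2)).2 h3 _ hy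
  refine ⟨?_, ?_, ?_⟩
  · intro z hz
    have h1 : ∀ b' ∈ R, io (σ b' β) * ThM f m b' ((a * z + b) / (c' * z + d)) =
        io (σ b' β) * ThM f m b' z + io (σ b' (β * laT f m b d)) := by
      intro b' hb'
      have hfb := fr_fb hFR hb'
      have h2 := hC2 k t f M m b' hFM hfb (pri_three (hFR b' hb').2) (lv_one hLv hb') a b c' d
        hg hd z hz
      rw [h2, ← hr3 σ hσ b' hfb, ← h03 σ hσ b' hfb, ← map_sub (σ b'), mul_add, ← map_mul io,
        ← map_mul (σ b')]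
      rfl
    unfold AF perA
    rw [Finset.sum_congr rfl h1, Finset.sum_add_distrib, map_sum]
    push_cast
    ring
  · refine hfix _ fun τ hτ => ?_
    obtain ⟨e, he, -⟩ := hE τ hτ 1 one_pos
    have hfe : FB f e := fb_psi he
    have h1 := sum_mul hf hR hfe (fun b' => σ b' (β * laT f m b d)) hcl
    unfold perA
    rw [map_sum, ← h1]
    refine Finset.sum_congr rfl fun b' hb' => ?_
    have hfb := rc_fb hR hb'
    have h2 := (hiff (τ * σ b') ((GK k t).mul_mem hτ (hσ.mem b' hfb)) (σ (e * b'))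
      (hσ.mem _ (fb_mul hfe hfb)) (e * b') (e * b') (Eb.psi_mul he (hσ.psi b' hfb))
      (hσ.psi _ (fb_mul hfe hfb))).2 (ray_refl (cnd_ne hf) _) _ hy
    rw [← h2, AlgEquiv.mul_apply]
  · refine VP.sum _ _ fun b' hb' => ?_
    rw [map_mul]
    exact (hβV _ (hσ.mem b' (rc_fb hR hb'))).mul (hlaV _ (hσ.mem b' (rc_fb hR hb')))

end Pool.Agent.DT.F
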