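import Pool.Agent.Lib.DT.F.SpecK

set_option autoImplicit false

open scoped Pointwise

noncomputable section

namespace Pool.Agent.DT.F

open Pool.Agent.MuZ Pool.Agent.FW NumberField Pool.Agent.DT
open Pool.Agent.DI (io ofC io_inj exists_io io_ofC ofC_io VP MP UP TP ex)

private theorem WbQ_one (k t : ℕ) [h : SqT k t] (Q : Ideal ZZ) (hQ : AbPb k t Q) :
    VP Q ((1 - wO k t) / 3) := by
  have hQp : Q.IsPrime := hQ.1.1
  obtain ⟨-, h3, hw⟩ := hQ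
  have hsq := wO_sq (k := k) (t := t)
  obtain ⟨c, hc, hm⟩ : ∃ c : ℤ, 1 - (t : Om) + 3 * k = 3 * c ∧ MP Q ((t : Om) - 1) := by
    rcases h.out with ⟨ht, -⟩ | ⟨ht, -⟩
    · refine ⟨k, ?_, ?_⟩
      · rw [ht]; push_cast; ring
      · rw [ht, Nat.cast_one, sub_self]; exact DI.MP.zero
    · refine ⟨k - 1, ?_, ?_⟩
      · rw [ht]; push_cast; ring
      · rw [ht]
        have e : ((4 : ℕ) : Om) - 1 = 3 := by norm_num
        rw [e]; exact h3
  have hu : UP Q (1 - t + wO k t) := by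
    refine DI.UP.congr DI.UP.one ?_
    have e : 1 - (t : Om) + wO k t - 1 = -((t : Om) - 1) - (1 - wO k t) := by ring
    rw [e]; exact hm.neg.sub hw
  have e : (1 - wO k t) / 3 = c * (1 - t + wO k t)⁻¹ := by
    rw [div_eq_iff (by norm_num : (3 : Om) ≠ 0), mul_right_comm, ← div_eq_mul_inv,
      eq_div_iff hu.ne_zero]
    linear_combination hc - hsq
  rw [e]
  exact (DI.VP.int c).mul hu.inv.1

private theorem WbQ_nat (n : ℕ) (hn : ¬ 3 ∣ n) (Q : Ideal ZZ) (hQ : Npr Q) (h3 : MP Q 3) :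
    UP Q (n : Om) := by
  have hQp : Q.IsPrime := hQ.1
  refine ⟨DI.VP.nat n, fun hm => ?_⟩
  have hco : IsCoprime (3 : ℤ) (n : ℤ) :=
    Nat.isCoprime_iff_coprime.2 ((Nat.Prime.coprime_iff_not_dvd Nat.prime_three).2 hn)
  obtain ⟨u, v, huv⟩ := hco
  apply DI.MP.one_not (P := Q)
  have e : (1 : Om) = u * 3 + v * n := by exact_mod_cast huv.symm
  rw [e]
  exact (DI.MP.mul_left (DI.VP.int u) h3).add (DI.MP.mul_left (DI.VP.int v) hm)

private theorem WbQ_two (x : Om) :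
    ∃ K : ℕ, ∀ Q : Ideal ZZ, Npr Q → MP Q 3 → VP Q (3 ^ K * x) := by
  obtain ⟨a, n, hn, h⟩ := DI.F.exists_int_mul x
  obtain ⟨K, m, hm, hK⟩ := Nat.exists_eq_pow_mul_and_not_dvd hn.ne' 3 (by norm_num)
  refine ⟨K, fun Q hQ h3 => ?_⟩
  have hQp : Q.IsPrime := hQ.1
  have hu := WbQ_nat m hm Q hQ h3
  have e : 3 ^ K * x = (a : Om) * (m : Om)⁻¹ := by
    rw [eq_mul_inv_iff_mul_eq₀ hu.ne_zero, ← h, hK]
    push_cast
    ring
  rw [e]
  exact (DI.VP.coe a).mul hu.inv.1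

theorem tWbQ : S_WbQ := by
  refine ⟨WbQ_one, WbQ_two, fun k t _ x => ?_⟩
  obtain ⟨K, hK⟩ := WbQ_two x
  refine ⟨K, fun j hj Q hQ => ?_⟩
  have hQp : Q.IsPrime := hQ.1.1
  obtain ⟨i, rfl⟩ := Nat.exists_eq_add_of_le hj
  have e : (1 - wO k t) ^ (K + i) * x = ((1 - wO k t) / 3) ^ (K + i) * (((3 : ℕ) : Om) ^ i * (3 ^ K * x)) := by
    rw [div_pow, pow_add (3 : Om) K i]
    push_cast
    field_simp
  rw [e]
  exact ((WbQ_one k t Q hQ).pow _).mul (((DI.VP.nat 3).pow i).mul (hK Q hQ.1 hQ.2.1))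

end Pool.Agent.DT.F
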