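import Pool.Agent.Lib.DT.E.All
import Pool.Agent.Lib.DT.FH.FH
import Pool.Agent.Lib.DT.F.AllP
import Pool.Agent.Lib.DT.F.KfI
import Pool.Agent.Lib.DT.F.KfN
import Pool.Agent.Lib.DT.F.KfU
import Pool.Agent.Lib.DT.F.Kf
import Pool.Agent.Lib.DT.F.KP
import Pool.Agent.Lib.DT.F.Bet
import Pool.Agent.Lib.DT.F.Mu
import Pool.Agent.Lib.DT.F.Sm
import Pool.Agent.Lib.DT.F.Pa
import Pool.Agent.Lib.DT.F.WbQ
import Pool.Agent.Lib.DT.F.CoQ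
import Pool.Agent.Lib.DT.F.Pb
import Pool.Agent.Lib.DT.F.F1
import Pool.Agent.Lib.DT.F.Asm
import Pool.Agent.Lib.FW.G.Ine
import Pool.Agent.Lib.DT.B.All
import Pool.Agent.Lib.DT.C.All

/-!
# Theorem DT, part F: Proposition F (`S_F`), from the statements of parts B and C (helper79)
-/

set_option autoImplicit false

noncomputable section

namespace Pool.Agent.DT.F

open Pool.Agent.DT Pool.Agent.FW

/-- `S_Kf`. -/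
theorem xKf (hE1 : S_E1) (hE4 : S_E4) (hE6 : S_E6) (hE7 : S_E7) (hE8 : S_E8) (hE9 : S_E9) :
    S_Kf :=
  have hKfI : S_KfI := tKfI hE1 hE4 hE6
  have hKfN : S_KfN := tKfN hE1 hE6 hE8 hE9
  tKf hE1 hE7 hE8 hKfI (tKfU hKfI hKfN) tIne

/-- `S_F1`. -/
theorem xF1 (hE1 : S_E1) (hKf : S_Kf) (hC2 : S_C2) (hC6 : S_C6) (hC7 : S_C7) (hC8 : S_C8)
    (hC9 : S_C9) (hR5 : S_R5) : S_F1 :=
  have hKP : S_KP := tKP
  have hMu : S_Mu := tMu hC6 hC8 hC9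
  have hPa : S_Pa := tPa hE1 hKf hMu hC2
  have hWbQ : S_WbQ := tWbQ
  tF1 hKf (tBet hE1 hKf hKP) hMu (tSm hE1 hKf hMu) (tCoQ hC7 hR5 hWbQ) (tPb hKP hPa hWbQ hKf)

/-- **Proposition F**, from the statements of the other parts. -/
theorem xF (hB1 : S_B1) (hB2 : S_B2) (hB6 : S_B6) (hB7 : S_B7) (hB12 : S_B12) (hC2 : S_C2)
    (hC3 : S_C3) (hC6 : S_C6) (hC7 : S_C7) (hC8 : S_C8) (hC9 : S_C9) (hR1 : S_R1) (hR2 : S_R2)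
    (hR4 : S_R4) (hR5 : S_R5) (hD9 : S_D9) (hE1 : S_E1) (hE3 : S_E3) (hE4 : S_E4) (hE6 : S_E6)
    (hE7 : S_E7) (hE8 : S_E8) (hE9 : S_E9) (hE10 : S_E10) : S_F :=
  have hKf : S_Kf := xKf hE1 hE4 hE6 hE7 hE8 hE9
  have hLead : S_Lead := xLead hB12 hC7 hR5 hD9 hE10 hKf
  tAsm hKf (xF1 hE1 hKf hC2 hC6 hC7 hC8 hC9 hR5) hLead
    (xPsi hB1 hB2 hB6 hB7 hB12 hC3 hC7 hR1 hR5 hKf hLead)
    (tFH hB6 hB7 hB12 hR1 hR2 hR4 hR5 hD9 hC7 hE1 hE3 hE10 hKf hLead)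

/-- **Proposition F**, given parts B and C. -/
theorem xFB (B : HB) (hC2 : S_C2) (hC3 : S_C3) (hC6 : S_C6) (hC7 : S_C7) (hC8 : S_C8)
    (hC9 : S_C9) : S_F :=
  xF B.b1 B.b2 B.b6 B.b7 B.b12 hC2 hC3 hC6 hC7 hC8 hC9 (aR1 B) (aR2 B) (aR4 B) (aR5 B) (aD9 B)
    (aE1 B) (aE3 B) (aE4 B) (aE6 B) (aE7 B) (aE8 B) (aE9 B) (aE10 B)

end Pool.Agent.DT.F

namespace Pool.Agent.DT

/-- **Proposition F**, given part B. -/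
theorem aSF' (B : HB) : S_F :=
  F.xFB B (aC2 B.b10 (aR5 B)) aC3 (aC6 B.b12 (aR5 B)) aC7
    (aC8 B.b10 B.b12 (aR5 B) (aE1 B) (aE6 B) (aE10 B)) (aC9 B.b10 B.b12 (aR5 B) (aD9 B))

/-- **Proposition F.** -/
theorem aSF : S_F := aSF' hB

end Pool.Agent.DT
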