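import Pool.Agent.Lib.DT.IfaceF
import Pool.Agent.Lib.DT.O.All
import Pool.Agent.Lib.DT.E.SpecB

/-!
# Theorem DT, part F: elementary lemmas (complete; no task), author helper79

Ideals prime to the conductor `cnd k t f = f 𝔭̄` (`FB`), the ray class relation (`ray_..`), representatives
(`rep`), sums over a system of representatives (`sum_rep`, `sum_mul`), the conditions `FM`, `IsLv`, the point `v₀`,
complex conjugation on `Om` (`cj_..`), fractions `b / d`.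
-/

set_option autoImplicit false
set_option linter.unusedSectionVars false

open scoped Pointwise Topology
open Filter

noncomputable section

namespace Pool.Agent.DT.F

open Pool.Agent.MuZ Pool.Agent.FW NumberField IsDedekindDomain Pool.Agent.DT
open Pool.Agent.DI (io ofC io_inj exists_io io_ofC ofC_io VP MP UP TP ex)

variable {k t : ℕ} [SqT k t]

/-! ## Ideals -/

theorem cjI_top : cjI (⊤ : Ideal (OO k t)) = ⊤ := by
  have c4 := (aO3 k t).2.2.2.1
  have h := c4 (1 : OO k t)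
  rw [cjO_one] at h
  rwa [show sp (1 : OO k t) = ⊤ from Ideal.span_singleton_one] at h

theorem cjI_cjI (a : Ideal (OO k t)) : cjI (cjI a) = a := ((aO3 k t).2.2.1 a).1

theorem NI_cjI (a : Ideal (OO k t)) : NI (cjI a) = NI a := ((aO3 k t).2.2.1 a).2.1

theorem mul_cjI (a : Ideal (OO k t)) : a * cjI a = sN k t (NI a) := ((aO3 k t).2.2.1 a).2.2

theorem cjI_ne {a : Ideal (OO k t)} (h : a ≠ ⊥) : cjI a ≠ ⊥ := Eb.ne_cj aO3 h

theorem cjI_mul (a b : Ideal (OO k t)) : cjI (a * b) = cjI a * cjI b := (aO3 k t).2.1 a b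

theorem mem_cjI {a : Ideal (OO k t)} {v : OO k t} : v ∈ cjI a ↔ cjO v ∈ a := (aO3 k t).1 a v

theorem NI_mul (a b : Ideal (OO k t)) : NI (a * b) = NI a * NI b := (aO2 k t).2.2.2.2.1 a b

theorem NI_sp (v : OO k t) : (NI (sp v) : ℤ) = Nm v := (aO2 k t).2.2.2.1 v

theorem NI_top : NI (⊤ : Ideal (OO k t)) = 1 := by
  have h := NI_sp (1 : OO k t)
  rw [show sp (1 : OO k t) = ⊤ from Ideal.span_singleton_one, Nm_one] at h
  exact_mod_cast h

theorem NI_pos {a : Ideal (OO k t)} (h : a ≠ ⊥) : 0 < NI a :=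
  Nat.pos_of_ne_zero fun h1 => h (((aO2 k t).2.2.2.2.2.1 a).1 h1)

/-- Multiplication by a nonzero principal ideal is injective. -/
theorem sp_cancel {α : OO k t} (hα : α ≠ 0) {a b : Ideal (OO k t)} (h : sp α * a = sp α * b) : a = b :=
  (Ideal.span_singleton_mul_right_inj hα).1 h

theorem sp_mul (α β : OO k t) : sp (α * β) = sp α * sp β :=
  (Ideal.span_singleton_mul_span_singleton α β).symm

theorem sp_one : sp (1 : OO k t) = ⊤ := Ideal.span_singleton_one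

theorem mul_cancel {a b c : Ideal (OO k t)} (hc : c ≠ ⊥) (h : a * c = b * c) : a = b := by
  rw [← Ideal.zero_eq_bot] at hc
  exact mul_right_cancel₀ hc h

theorem ne_bot_of_le {a b : Ideal (OO k t)} (h : a ≤ b) (ha : a ≠ ⊥) : b ≠ ⊥ := by
  rintro rfl
  exact ha (le_bot_iff.1 h)

/-! ## The ideals `𝔭`, `𝔭̄`, `cnd` -/

theorem mem_pp {v : OO k t} : v ∈ pp k t ↔ (3 : ℤ) ∣ v.re := (aO4 k t).2.2.2.2.2.2.2.2.2.2.1 v

theorem mem_ppb {v : OO k t} : v ∈ ppb k t ↔ (3 : ℤ) ∣ v.re + v.im :=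
  (aO4 k t).2.2.2.2.2.2.2.2.2.2.2 v

theorem pp_ne : pp k t ≠ ⊥ := (aO4 k t).2.2.2.2.2.2.2.2.1

theorem ppb_ne : ppb k t ≠ ⊥ := (aO4 k t).2.2.2.2.2.2.2.2.2.1

theorem pp_prime : (pp k t).IsPrime := (aO4 k t).2.2.2.1

theorem ppb_prime : (ppb k t).IsPrime := (aO4 k t).2.2.2.2.1

theorem pp_mul_ppb : pp k t * ppb k t = sN k t 3 := (aO4 k t).1

theorem pp_sup_ppb : pp k t ⊔ ppb k t = ⊤ := (aO4 k t).2.2.2.2.2.2.2.1

theorem cjI_pp : cjI (pp k t) = ppb k t := (aO4 k t).2.1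

theorem cjI_ppb : cjI (ppb k t) = pp k t := (aO4 k t).2.2.1

theorem NI_pp : NI (pp k t) = 3 := (aO4 k t).2.2.2.2.2.1

theorem NI_ppb : NI (ppb k t) = 3 := (aO4 k t).2.2.2.2.2.2.1

theorem three_pp : (3 : OO k t) ∈ pp k t := by
  rw [mem_pp]
  have h : (3 : OO k t).re = 3 := by
    have := re_nat (k := k) (t := t) 3
    exact_mod_cast this
  rw [h]

theorem three_ppb : (3 : OO k t) ∈ ppb k t := by
  rw [mem_ppb]
  have h : (3 : OO k t).re = 3 := by
    have := re_nat (k := k) (t := t) 3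
    exact_mod_cast this
  have h' : (3 : OO k t).im = 0 := by
    have := im_nat (k := k) (t := t) 3
    exact_mod_cast this
  rw [h, h']
  norm_num

theorem cnd_ne {f : ℕ} (hf : 0 < f) : cnd k t f ≠ ⊥ := Eb.ne_mul (Eb.ne_sN hf) ppb_ne

theorem cnd_le_ppb (f : ℕ) : cnd k t f ≤ ppb k t := Ideal.mul_le_right

theorem cnd_le_sN (f : ℕ) : cnd k t f ≤ sN k t f := Ideal.mul_le_left

theorem sN_le_cnd (f : ℕ) : sN k t (3 * f) ≤ cnd k t f := by
  unfold cnd
  rw [Ideal.span_singleton_le_iff_mem]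
  push_cast
  rw [mul_comm (3 : OO k t)]
  exact Ideal.mul_mem_mul (Ideal.mem_span_singleton_self _) three_ppb

theorem nat_mem_cnd (f : ℕ) {v : OO k t} (hv : v ∈ ppb k t) : (f : OO k t) * v ∈ cnd k t f :=
  Ideal.mul_mem_mul (Ideal.mem_span_singleton_self _) hv

/-- `v ∈ f 𝔭̄` iff `v = f u`, `u ∈ 𝔭̄`. -/
theorem mem_cnd {f : ℕ} {v : OO k t} : v ∈ cnd k t f ↔ ∃ u ∈ ppb k t, (f : OO k t) * u = v :=
  Ideal.mem_span_singleton_mul

theorem pri_cnd {f : ℕ} {a : Ideal (OO k t)} (h : PrI a (sN k t (3 * f))) : PrI a (cnd k t f) :=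
  Eb.pri_mono h (sN_le_cnd f)

/-- The base point: `3 f v₀ = 3 + f w`. -/
theorem v0_mul {f : ℕ} (hf : 0 < f) : (3 * f : ℂ) * v0 k t f = toC (⟨3, f⟩ : OO k t) := by
  have hf' : (f : ℂ) ≠ 0 := by exact_mod_cast hf.ne'
  rw [toC_apply]
  unfold v0 S0
  push_cast
  field_simp
  ring

/-! ## `FB`, `FM`, `IsLv` -/

theorem fb_top (f : ℕ) : FB f (⊤ : Ideal (OO k t)) := ⟨Eb.ne_top, Eb.pri_top _⟩

theorem fb_mul {f : ℕ} {a b : Ideal (OO k t)} (h : FB f a) (h' : FB f b) : FB f (a * b) :=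
  ⟨Eb.ne_mul h.ne h'.ne, Eb.pri_mul h.cop h'.cop⟩

theorem fb_of_mul {f : ℕ} {a b : Ideal (OO k t)} (h : FB f (a * b)) : FB f a ∧ FB f b := by
  have h1 := ((aO6 k t).1 a b (cnd k t f)).1 h.cop
  refine ⟨⟨?_, h1.1⟩, ⟨?_, h1.2⟩⟩
  · rintro rfl
    exact h.ne (by simp)
  · rintro rfl
    exact h.ne (by simp)

theorem fb_psi {f : ℕ} {τ : Gal(Om/ℚ)} {a : Ideal (OO k t)} (h : Psi τ (cnd k t f) a) : FB f a :=
  ⟨h.ne, h.cop⟩

theorem fm_fb {f : ℕ} {m : Ideal (OO k t)} (h : FM f m) : FB f m := ⟨h.ne, pri_cnd h.prm⟩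

theorem fr_fb {f : ℕ} {R : Finset (Ideal (OO k t))} (h : FR f R) {b : Ideal (OO k t)} (hb : b ∈ R) :
    FB f b := ⟨(h b hb).1, pri_cnd (h b hb).2⟩

/-- Prime to `3 f` implies prime to `3`. -/
theorem pri_three {f : ℕ} {a : Ideal (OO k t)} (h : PrI a (sN k t (3 * f))) : PrI a (sN k t 3) :=
  Eb.pri_mono h (Eb.sN_le (Dvd.intro _ rfl))

theorem pri_pp {a : Ideal (OO k t)} (h : PrI a (sN k t 3)) : PrI a (pp k t) := by
  refine Eb.pri_mono h ?_
  rw [← pp_mul_ppb]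
  exact (Ideal.mul_le_left : pp k t * ppb k t ≤ pp k t)

theorem pri_ppb {a : Ideal (OO k t)} (h : PrI a (sN k t 3)) : PrI a (ppb k t) := by
  refine Eb.pri_mono h ?_
  rw [← pp_mul_ppb]
  exact (Ideal.mul_le_right : pp k t * ppb k t ≤ ppb k t)

theorem fb_ppb {f : ℕ} {a : Ideal (OO k t)} (h : FB f a) : PrI a (ppb k t) :=
  Eb.pri_mono h.cop (cnd_le_ppb f)

/-- `b` is not contained in the prime ideal `q`, if it is prime to `q`. -/
theorem not_le_of_pri {q b : Ideal (OO k t)} (hq : q ≠ ⊤) (h : PrI b q) : ¬ b ≤ q := by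
  intro h1
  apply hq
  rw [← show b ⊔ q = ⊤ from h]
  exact (sup_eq_right.2 h1).symm

/-- Prime to the prime ideal `q`, if not contained in it. -/
theorem pri_of_not_le {q b : Ideal (OO k t)} (hq : q.IsPrime) (hq0 : q ≠ ⊥) (h : ¬ b ≤ q) : PrI b q := by
  have hm : q.IsMaximal := hq.isMaximal hq0
  refine hm.1.2 _ (lt_of_le_of_ne le_sup_right fun h1 => h ?_)
  rw [h1]
  exact le_sup_left

theorem lv_one {f M : ℕ} {m : Ideal (OO k t)} {R : Finset (Ideal (OO k t))} (h : IsLv f m R M)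
    {b : Ideal (OO k t)} (hb : b ∈ R) : IsLv f m {b} M := by
  refine ⟨h.pos, h.cop, dvd_trans ?_ h.dvd⟩
  unfold lev
  rw [Finset.prod_singleton]
  exact mul_dvd_mul_left _ (pow_dvd_pow_of_dvd (mul_dvd_mul_left _ (Finset.dvd_prod_of_mem _ hb)) 3)

theorem lv_top {f M : ℕ} {m : Ideal (OO k t)} {R : Finset (Ideal (OO k t))} (h : IsLv f m R M) :
    IsLv f m {(⊤ : Ideal (OO k t))} M := by
  refine ⟨h.pos, h.cop, dvd_trans ?_ h.dvd⟩
  unfold lev
  rw [Finset.prod_singleton, NI_top, mul_one]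
  exact mul_dvd_mul_left _ (pow_dvd_pow_of_dvd (Dvd.intro _ rfl) 3)

theorem lv_m {f M : ℕ} {m : Ideal (OO k t)} {R : Finset (Ideal (OO k t))} (h : IsLv f m R M) :
    NI m ∣ M := by
  refine dvd_trans ?_ h.dvd
  unfold lev
  refine Dvd.dvd.mul_left ?_ _
  exact dvd_trans (Dvd.intro _ rfl) (dvd_pow_self _ (by norm_num))

/-! ## The ray class relation modulo `n` -/

theorem ray_refl {n : Ideal (OO k t)} (hn : n ≠ ⊥) (a : Ideal (OO k t)) : Ray n a a := (aO7 k t n hn).1 a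

theorem ray_symm {n : Ideal (OO k t)} (hn : n ≠ ⊥) {a b : Ideal (OO k t)} (h : Ray n a b) : Ray n b a :=
  (aO7 k t n hn).2.1 a b h

theorem ray_trans {n : Ideal (OO k t)} (hn : n ≠ ⊥) {a b c : Ideal (OO k t)} (h : Ray n a b)
    (h' : Ray n b c) : Ray n a c := (aO7 k t n hn).2.2.1 a b c h h'

theorem ray_mul {n : Ideal (OO k t)} (hn : n ≠ ⊥) {a b c d : Ideal (OO k t)} (h : Ray n a b)
    (h' : Ray n c d) : Ray n (a * c) (b * d) := (aO7 k t n hn).2.2.2.1 a b c d h h'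

theorem ray_cancel {n : Ideal (OO k t)} (hn : n ≠ ⊥) {a b c : Ideal (OO k t)} (hc : c ≠ ⊥)
    (hc' : PrI c n) (h : Ray n (a * c) (b * c)) : Ray n a b := (aO7 k t n hn).2.2.2.2.1 a b c hc hc' h

theorem ray_cancel' {n : Ideal (OO k t)} (hn : n ≠ ⊥) {a b c : Ideal (OO k t)} (hc : c ≠ ⊥)
    (hc' : PrI c n) (h : Ray n (c * a) (c * b)) : Ray n a b :=
  ray_cancel hn hc hc' (by rwa [mul_comm a c, mul_comm b c])

theorem ray_fb {f : ℕ} (hf : 0 < f) {a b : Ideal (OO k t)} (h : Ray (cnd k t f) a b) (ha : FB f a) :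
    FB f b := by
  obtain ⟨h1, h2⟩ := (aO7 k t _ (cnd_ne hf)).2.2.2.2.2.1 a b h
  exact ⟨h1.1 ha.ne, h2.1 ha.cop⟩

theorem ray_cj {n a b : Ideal (OO k t)} (h : Ray n a b) : Ray (cjI n) (cjI a) (cjI b) :=
  (aO3 k t).2.2.2.2.2.2.2 n a b h

theorem ray_inv {n : Ideal (OO k t)} (hn : n ≠ ⊥) {a : Ideal (OO k t)} (ha : a ≠ ⊥) (ha' : PrI a n) :
    ∃ a' : Ideal (OO k t), a' ≠ ⊥ ∧ PrI a' n ∧ Ray n (a * a') ⊤ :=
  (aO7 k t n hn).2.2.2.2.2.2.2.2.1 a ha ha'

/-- The normalised form of the relation. -/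
theorem ray_norm {n : Ideal (OO k t)} {a b : Ideal (OO k t)} (h : Ray n a b) :
    ∃ α α' : OO k t, α ≠ 0 ∧ α' ≠ 0 ∧ α - 1 ∈ n ∧ α' - 1 ∈ n ∧ sp α * a = sp α' * b := by
  obtain ⟨α, α', h1, h2, h3, h4, h5, h6⟩ := h
  obtain ⟨β, h8⟩ := Eb.pri_inv h3
  rcases eq_or_ne β 0 with rfl | hβ
  · -- `n = ⊤`
    rw [mul_zero, zero_sub] at h8
    have h9 : (1 : OO k t) ∈ n := by
      have := n.neg_mem h8
      rwa [neg_neg] at this
    have h10 : n = ⊤ := (Ideal.eq_top_iff_one n).2 h9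
    exact ⟨α, α', h1, h2, by rw [h10]; trivial, by rw [h10]; trivial, h6⟩
  · refine ⟨β * α, β * α', mul_ne_zero hβ h1, mul_ne_zero hβ h2, ?_, ?_, ?_⟩
    · rw [mul_comm β α]
      exact h8
    · have h9 : β * α' - 1 = (α * β - 1) - β * (α - α') := by ring
      rw [h9]
      exact n.sub_mem h8 (n.mul_mem_left _ h5)
    · have h6' : sp α * a = sp α' * b := h6
      rw [sp_mul, sp_mul, mul_assoc, mul_assoc, h6']

/-- `PrI (sp α) n` for `α = 1` modulo `n`. -/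
theorem pri_of_one {n : Ideal (OO k t)} {α : OO k t} (h : α - 1 ∈ n) : PrI (sp α) n := by
  unfold PrI
  rw [Ideal.eq_top_iff_one]
  have h1 : (1 : OO k t) = α - (α - 1) := by ring
  rw [h1]
  exact Ideal.sub_mem _ (Ideal.mem_sup_left (Ideal.mem_span_singleton_self α)) (Ideal.mem_sup_right h)

theorem ray_of {n : Ideal (OO k t)} {a b : Ideal (OO k t)} {α α' : OO k t} (h1 : α ≠ 0) (h2 : α' ≠ 0)
    (h3 : α - 1 ∈ n) (h4 : α' - 1 ∈ n) (h : sp α * a = sp α' * b) : Ray n a b := by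
  refine ⟨α, α', h1, h2, pri_of_one h3, pri_of_one h4, ?_, h⟩
  have h7 : α - α' = (α - 1) - (α' - 1) := by ring
  rw [h7]
  exact n.sub_mem h3 h4

/-! ## Representatives -/

open Classical in
/-- The representative of `b` in `R`. -/
def rep (f : ℕ) (R : Finset (Ideal (OO k t))) (b : Ideal (OO k t)) : Ideal (OO k t) :=
  if h : ∃ b' ∈ R, Ray (cnd k t f) b b' then h.choose else ⊤

theorem rep_spec {f : ℕ} {R : Finset (Ideal (OO k t))} (hR : IsRC (cnd k t f) R) {b : Ideal (OO k t)}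
    (hb : FB f b) : rep f R b ∈ R ∧ Ray (cnd k t f) b (rep f R b) := by
  have h := hR.ex b hb.ne hb.cop
  unfold rep
  rw [dif_pos h]
  exact h.choose_spec

theorem rc_fb {f : ℕ} {R : Finset (Ideal (OO k t))} (hR : IsRC (cnd k t f) R) {b : Ideal (OO k t)}
    (hb : b ∈ R) : FB f b := ⟨(hR.mem b hb).1, (hR.mem b hb).2⟩

/-- **Reindexing.** `F` is a class function, `g` is injective on the classes. -/
theorem sum_rep {A : Type} [AddCommMonoid A] {f : ℕ} (hf : 0 < f) {R : Finset (Ideal (OO k t))}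
    (hR : IsRC (cnd k t f) R) (g : Ideal (OO k t) → Ideal (OO k t)) (hg : ∀ b, FB f b → FB f (g b))
    (hinj : ∀ b b', FB f b → FB f b' → Ray (cnd k t f) (g b) (g b') → Ray (cnd k t f) b b')
    (F : Ideal (OO k t) → A)
    (hF : ∀ b b', FB f b → FB f b' → Ray (cnd k t f) b b' → F b = F b') :
    ∑ b ∈ R, F (g b) = ∑ b ∈ R, F b := by
  classical
  have hn := cnd_ne (k := k) (t := t) hf
  have h1 : ∀ b ∈ R, rep f R (g b) ∈ R := fun b hb => (rep_spec hR (hg b (rc_fb hR hb))).1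
  have h2 : ∀ b ∈ R, F (g b) = F (rep f R (g b)) := fun b hb =>
    hF _ _ (hg b (rc_fb hR hb)) (rc_fb hR (h1 b hb)) (rep_spec hR (hg b (rc_fb hR hb))).2
  have h3 : ∀ b ∈ R, ∀ b' ∈ R, rep f R (g b) = rep f R (g b') → b = b' := by
    intro b hb b' hb' h
    apply hR.uni b hb b' hb'
    apply hinj b b' (rc_fb hR hb) (rc_fb hR hb')
    have h4 := (rep_spec hR (hg b (rc_fb hR hb))).2
    have h5 := (rep_spec hR (hg b' (rc_fb hR hb'))).2
    rw [h] at h4
    exact ray_trans hn h4 (ray_symm hn h5)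
  rw [Finset.sum_congr rfl h2]
  have h4 : R.image (fun b => rep f R (g b)) = R := by
    apply Finset.eq_of_subset_of_card_le
    · intro b hb
      rw [Finset.mem_image] at hb
      obtain ⟨b', hb', rfl⟩ := hb
      exact h1 b' hb'
    · rw [Finset.card_image_of_injOn]
      intro b hb b' hb' h
      exact h3 b hb b' hb' h
  conv_rhs => rw [← h4]
  rw [Finset.sum_image (fun b hb b' hb' h => h3 b hb b' hb' h)]

/-- Reindexing by multiplication with `a`. -/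
theorem sum_mul {A : Type} [AddCommMonoid A] {f : ℕ} (hf : 0 < f) {R : Finset (Ideal (OO k t))}
    (hR : IsRC (cnd k t f) R) {a : Ideal (OO k t)} (ha : FB f a) (F : Ideal (OO k t) → A)
    (hF : ∀ b b', FB f b → FB f b' → Ray (cnd k t f) b b' → F b = F b') :
    ∑ b ∈ R, F (a * b) = ∑ b ∈ R, F b :=
  sum_rep hf hR (fun b => a * b) (fun _ hb => fb_mul ha hb)
    (fun _ _ _ _ h => ray_cancel' (cnd_ne hf) ha.ne ha.cop h) F hF

/-- The class of the leading coefficient exists and is unique in `R`: for every `c` prime to `f 𝔭̄`. -/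
theorem exists_rep {f : ℕ} (hf : 0 < f) {m : Ideal (OO k t)} (hm : FB f m)
    {R : Finset (Ideal (OO k t))} (hR : IsRC (cnd k t f) R) {c : Ideal (OO k t)} (hc : FB f c) :
    ∃ b1 ∈ R, Ray (cnd k t f) (m * b1) c ∧ ∀ b ∈ R, Ray (cnd k t f) (m * b) c → b = b1 := by
  have hn := cnd_ne (k := k) (t := t) hf
  obtain ⟨a, ha, ha', h1⟩ := ray_inv hn hm.ne hm.cop
  obtain ⟨h2, h3⟩ := rep_spec hR (fb_mul (⟨ha, ha'⟩ : FB f a) hc)
  have h4 : Ray (cnd k t f) (m * rep f R (a * c)) c := by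
    have h5 : Ray (cnd k t f) (m * rep f R (a * c)) (m * (a * c)) :=
      ray_mul hn (ray_refl hn m) (ray_symm hn h3)
    have h6 : Ray (cnd k t f) (m * (a * c)) (⊤ * c) := by
      rw [← mul_assoc]
      exact ray_mul hn h1 (ray_refl hn c)
    rw [Ideal.top_mul] at h6
    exact ray_trans hn h5 h6
  refine ⟨rep f R (a * c), h2, h4, fun b hb h => ?_⟩
  apply hR.uni b hb _ h2
  exact ray_cancel' hn hm.ne hm.cop (ray_trans hn h (ray_symm hn h4))

/-! ## Complex conjugation on `Om` -/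

theorem cj_wO {c : Gal(Om/ℚ)} (hc : IsCj c) : c (wO k t) = t - wO k t := by
  apply io_inj
  rw [hc, io_wO, map_sub, map_natCast, io_wO, conj_wC]

theorem cj_cj {c : Gal(Om/ℚ)} (hc : IsCj c) (x : Om) : c (c x) = x := by
  apply io_inj
  rw [hc, hc, Complex.conj_conj]

theorem cj_toO {c : Gal(Om/ℚ)} (hc : IsCj c) (v : OO k t) : c (toO v) = toO (cjO v) := by
  apply io_inj
  rw [hc, io_toO, io_toO, conj_toC]

/-- The definition of `Kf`. -/
theorem kf_mem {f : ℕ} {x : Om} :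
    x ∈ Kf k t f ↔ ∀ τ ∈ GK k t, ∀ a : Ideal (OO k t), Psi τ (cnd k t f) a →
      Ray (cnd k t f) a ⊤ → τ x = x := Iff.rfl

/-! ## Fractions -/

theorem g0_cop {M : ℕ} {a b c d : ℤ} (_h : G0 (3 * M) a b c d) (hd : (3 * M : ℤ) ∣ d - 1) :
    IsCoprime d (3 * M : ℤ) := by
  obtain ⟨e, he⟩ := hd
  exact ⟨1, -e, by linear_combination he⟩

theorem g0_ne {M : ℕ} (hM : 0 < M) {a b c d : ℤ} (h : G0 (3 * M) a b c d)
    (hd : (3 * M : ℤ) ∣ d - 1) : d ≠ 0 := by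
  rintro rfl
  have h1 := g0_cop h hd
  have h2 : IsUnit (3 * M : ℤ) := isCoprime_zero_left.1 h1
  rw [Int.isUnit_iff] at h2
  omega

/-- The denominator of `b / d` is prime to `N`, if `d` is prime to `3 M` and `N ∣ 3 M`. -/
theorem den_cop' {M N : ℕ} {a b c d : ℤ} (h : G0 (3 * M) a b c d) (hd : (3 * M : ℤ) ∣ d - 1)
    (hN : N ∣ 3 * M) : ((b : ℚ) / d).den.Coprime N := by
  have h1 : IsCoprime d (3 * M : ℤ) := g0_cop h hd
  have h2 : (((b : ℚ) / d).den : ℤ) ∣ d := by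
    have h3 := Rat.den_dvd b d
    have e : Rat.divInt b d = (b : ℚ) / d := by
      rw [Rat.divInt_eq_div]
    rw [e] at h3
    exact h3
  have h3 : IsCoprime (((b : ℚ) / d).den : ℤ) (N : ℤ) :=
    (h1.of_isCoprime_of_dvd_left h2).of_isCoprime_of_dvd_right (by exact_mod_cast hN)
  exact Nat.isCoprime_iff_coprime.1 h3

theorem den_cop {M N : ℕ} {a b c d : ℤ} (h : G0 (3 * M) a b c d) (hd : (3 * M : ℤ) ∣ d - 1)
    (hN : N ∣ M) : ((b : ℚ) / d).den.Coprime N := den_cop' h hd (hN.mul_left 3)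

/-- The matrix `g' = (a -b; -c d)`. -/
theorem g0_inv {M : ℤ} {a b c d : ℤ} (h : G0 M a b c d) : G0 M a (-b) (-c) d :=
  ⟨by linear_combination h.1, (dvd_neg).2 h.2⟩

/-- The action of `g'`: `- conj (g z) = g' (- conj z)`. -/
theorem g0_conj (a b c d : ℤ) (z : ℂ) :
    -(starRingEnd ℂ) ((a * z + b) / (c * z + d)) =
      (a * (-(starRingEnd ℂ) z) - b) / (-c * (-(starRingEnd ℂ) z) + d) := by
  rw [map_div₀, map_add, map_add, map_mul, map_mul, map_intCast, map_intCast, map_intCast,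
    map_intCast, ← neg_div]
  congr 1 <;> ring

end Pool.Agent.DT.F
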