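import Pool.Agent.Lib.DT.F.SpecK
import Pool.Agent.Lib.DT.FH.Co

/-!
# Theorem DT (`p = 3`), part F: module `CoQ` (the coefficients at the primes above `𝔭̄`)

See the docstring of `S_CoQ` (`DT/F/SpecK.lean`).
-/

set_option autoImplicit false
set_option linter.unusedSectionVars false

open scoped Pointwise Topology MatrixGroups
open Filter

noncomputable section

namespace Pool.Agent.DT.F

open Pool.Agent.MuZ Pool.Agent.FW NumberField IsDedekindDomain Pool.Agent.DT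
open Pool.Agent.DI (io ofC io_inj exists_io io_ofC ofC_io VP MP UP TP ex)

variable {k t : ℕ} [SqT k t]

/-- An element of `O` which is not in `𝔭̄` is a unit at the primes above `𝔭̄`. -/
theorem CoQ_unit {Q : Ideal ZZ} (hQ : AbPb k t Q) {u : OO k t} (hu : u ∉ ppb k t) :
    UP Q (toO u) := by
  have hQp : Q.IsPrime := hQ.1.1
  refine ⟨toO_VP u, fun h => hu ?_⟩
  rw [toO_apply] at h
  have h1 := DI.MP.add h (DI.MP.mul_left (DI.VP.int u.im) hQ.2.2)
  have e : ((u.re : Om) + u.im * wO k t) + u.im * (1 - wO k t) = ((u.re + u.im : ℤ) : Om) := by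
    push_cast
    ring
  rw [e] at h1
  rw [mem_ppb]
  by_contra h3
  have h4 : Prime (3 : ℤ) := Int.prime_three
  have hc : IsCoprime (u.re + u.im) 3 := ((Prime.coprime_iff_not_dvd h4).2 h3).symm
  exact (CV_up_cop hQp hQ.2.1 hc).2 h1

theorem CoQ_nu {f : ℕ} (hf : Fok f) : nu k t f ∉ ppb k t := fun h =>
  not_le_of_pri ppb_prime.ne_top (fb_ppb (fb_nu (k := k) (t := t) hf))
    ((Ideal.span_singleton_le_iff_mem _).2 h)

/-- Step (a). -/
theorem CoQ_a (hC7 : S_C7) {f : ℕ} {m b : Ideal (OO k t)} (hm : FM f m) (hb : FB f b) {n : ℕ} {v : ℂ}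
    (hv : v ∈ vN f (m * b) n) :
    ∃ y u : OO k t, u ∉ ppb k t ∧ 3 * (f : ℂ) * v * toC y = toC u := by
  obtain ⟨-, h1, -⟩ := hC7 k t f m b hm hb
  obtain ⟨h3, -⟩ := (h1 n v).1 hv
  have hmb : FB f (m * b) := fb_mul (fm_fb hm) hb
  have hn : ¬ m * b ≤ ppb k t := not_le_of_pri ppb_prime.ne_top (fb_ppb hmb)
  obtain ⟨y, hy, hy'⟩ := SetLike.not_le_iff_exists.1 hn
  obtain ⟨u1, hu1⟩ := h3 y hy
  refine ⟨y, nu k t f * y + (f : OO k t) * u1 * 3, fun h => ?_, ?_⟩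
  · have h4 : nu k t f * y ∈ ppb k t := by
      have h5 := (ppb k t).sub_mem h ((ppb k t).mul_mem_left ((f : OO k t) * u1) three_ppb)
      rwa [add_sub_cancel_right] at h5
    rcases ppb_prime.mem_or_mem h4 with h5 | h5
    · exact CoQ_nu hm.toFok h5
    · exact hy' h5
  · have h6 := nu_v0 (k := k) (t := t) hm.pos
    have h7 : toC (3 : OO k t) = 3 := by
      have := toC_nat (k := k) (t := t) 3
      exact_mod_cast this
    rw [toC_add, toC_mul, toC_mul, toC_mul, toC_nat, h7, ← h6, ← hu1]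
    ring

/-- Step (b). -/
theorem CoQ_b (hC7 : S_C7) {f : ℕ} {m b : Ideal (OO k t)} (hm : FM f m) (hb : FB f b) {n : ℕ} {v : ℂ}
    (hv : v ∈ vN f (m * b) n) {Q : Ideal ZZ} (hQ : AbPb k t Q) : VP Q (ofC v⁻¹ / 3) := by
  have hQp : Q.IsPrime := hQ.1.1
  obtain ⟨y, u, hu, hyu⟩ := CoQ_a hC7 hm hb hv
  have hU := CoQ_unit hQ hu
  have hu0 : toC u ≠ 0 := toC_ne fun h => hu (by rw [h]; exact (ppb k t).zero_mem)
  have e : v⁻¹ = io (3 * ((f : Om) * toO y * (toO u)⁻¹)) := by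
    rw [map_mul, map_mul, map_mul, map_inv₀, map_natCast, map_ofNat, io_toO, io_toO]
    refine inv_eq_of_mul_eq_one_right ?_
    have e1 : v * (3 * ((f : ℂ) * toC y * (toC u)⁻¹)) = 3 * (f : ℂ) * v * toC y * (toC u)⁻¹ := by ring
    rw [e1, hyu, mul_inv_cancel₀ hu0]
  rw [e, ofC_io, mul_div_cancel_left₀ _ (three_ne_zero)]
  exact DI.VP.mul (DI.VP.mul (DI.VP.nat f) (toO_VP y)) (DI.UP.inv hU).1

/-- Step (c). -/
theorem CoQ_c (hC7 : S_C7) {f : ℕ} {m b : Ideal (OO k t)} (hm : FM f m) (hb : FB f b) (n : ℕ)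
    {Q : Ideal ZZ} (hQ : AbPb k t Q) : VP Q (ofC (cM f m b n) / 3) := by
  have hQp : Q.IsPrime := hQ.1.1
  rw [(FHm.ofC_cM hC7 hm hb n).1, Finset.sum_div]
  refine DI.VP.sum _ _ fun v hv => ?_
  rw [mul_div_assoc]
  refine DI.VP.mul ?_ (CoQ_b hC7 hm hb hv hQ)
  split_ifs
  · exact DI.VP.sub DI.VP.one (DI.VP.nat _)
  · exact DI.VP.one

/-- **The coefficients at the primes above `𝔭̄`.** -/
theorem tCoQ (hC7 : S_C7) (_hR5 : S_R5) (hWbQ : S_WbQ) : S_CoQ := by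
  intro k t _ f m R hm hR σ hσ β
  choose K hK using fun b : Ideal (OO k t) => hWbQ.2.2 k t (σ b β * rO b ⊤ / 9)
  refine ⟨R.sup K, fun j hj Q hQ N0 n => ?_⟩
  have hQp : Q.IsPrime := hQ.1.1
  have e : aF f m R σ N0 ((1 - wO k t) ^ j * β) n / 27 = N0 * ∑ b ∈ R,
      ((1 - wO k t) ^ j * (σ b β * rO b ⊤ / 9)) * (ofC (cM f m b n) / 3) := by
    unfold aF
    rw [mul_div_assoc, Finset.sum_div]
    congr 1
    refine Finset.sum_congr rfl fun b hb => ?_
    rw [map_mul, wb_fix (hσ.mem b (fr_fb hR hb)) j]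
    ring
  rw [e]
  refine DI.VP.mul (DI.VP.nat N0) (DI.VP.sum _ _ fun b hb => ?_)
  exact DI.VP.mul (hK b j (le_trans (Finset.le_sup hb) hj) Q hQ)
    (CoQ_c hC7 hm (fr_fb hR hb) n hQ)

end Pool.Agent.DT.F
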