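import Pool.Agent.Lib.DT.F.SpecL

/-!
# Theorem DT, part F: module `Hm` (homogeneity)
-/

set_option autoImplicit false
set_option linter.unusedSectionVars false

open scoped Pointwise Topology MatrixGroups
open Filter

noncomputable section

namespace Pool.Agent.DT.F

open Pool.Agent.MuZ Pool.Agent.FW NumberField IsDedekindDomain Pool.Agent.DT
open Pool.Agent.DI (io ofC io_inj exists_io io_ofC ofC_io VP MP UP TP ex)

variable {k t : ℕ} [SqT k t]

private theorem Hm_lam {f : ℕ} (hf : 0 < f) (b : Ideal (OO k t)) {α : OO k t}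
    (hα : α - 1 ∈ cnd k t f) (v : ℂ) :
    v - v0 k t f ∈ Lam (sp α * b) ↔ toC α * v - v0 k t f ∈ Lam b := by
  rw [lam_sp]
  obtain ⟨u, hu⟩ := v0_period hf hα
  have h2 : toC α * (v - v0 k t f) - (toC α * v - v0 k t f) ∈ Lam b := by
    have e : toC α * (v - v0 k t f) - (toC α * v - v0 k t f) = -toC u := by
      linear_combination -hu
    rw [e]
    apply lam_neg
    intro x _
    exact ⟨x * u, (toC_mul x u).symm⟩
  exact lam_sub_iff h2

private theorem Hm_norm (α : OO k t) (b : Ideal (OO k t)) (v : ℂ) (f : ℝ) :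
    3 * f ^ 2 * NI (sp α * b) * ‖v‖ ^ 2 = 3 * f ^ 2 * NI b * ‖toC α * v‖ ^ 2 := by
  have h1 : ((NI (sp α) : ℕ) : ℝ) = ‖toC α‖ ^ 2 := by
    rw [← Nm_norm, ← NI_sp α]
    push_cast
    rfl
  rw [NI_mul, norm_mul]
  push_cast
  rw [h1]
  ring

theorem tHm (hB12 : S_B12) (hC7 : S_C7) : S_Hm := by
  intro k t _ f m b hm hb α hα hα1
  have hf : 0 < f := hm.pos
  have hsp : FB f (sp α) := ⟨Eb.ne_sp hα, pri_of_one hα1⟩
  have hb' : FB f (sp α * b) := fb_mul hsp hb
  refine ⟨hb', (hB12 k t b hb.ne (fb_ppb hb)).2.2.2.2.2.1 α hα (cnd_le_ppb f hα1), fun n => ?_⟩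
  have hmb : m * (sp α * b) = sp α * (m * b) := mul_left_comm m (sp α) b
  have h7 := (hC7 k t f m b hm hb).2.1 n
  have h7' := (hC7 k t f m (sp α * b) hm hb').2.1 n
  have hα0 : toC α ≠ 0 := toC_ne hα
  have key : ∀ v : ℂ, v ∈ vN f (m * (sp α * b)) n ↔ toC α * v ∈ vN f (m * b) n := by
    intro v
    rw [h7, h7', hmb, Hm_lam hf (m * b) hα1 v, Hm_norm]
  unfold cM
  rw [Finset.mul_sum]
  refine Finset.sum_bij (fun v _ => toC α * v) (fun v hv => (key v).1 hv) ?_ ?_ ?_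
  · intro v _ v' _ h
    exact mul_left_cancel₀ hα0 h
  · intro w hw
    refine ⟨(toC α)⁻¹ * w, ?_, ?_⟩
    · rw [key, mul_inv_cancel_left₀ hα0]
      exact hw
    · exact mul_inv_cancel_left₀ hα0 w
  · intro v _
    have e : v - v0 k t f ∈ Lam (sp α * b) ↔ toC α * v - v0 k t f ∈ Lam b := Hm_lam hf b hα1 v
    rw [mul_inv, mul_left_comm, mul_inv_cancel_left₀ hα0]
    by_cases h : toC α * v - v0 k t f ∈ Lam b
    · rw [if_pos h, if_pos (e.2 h)]
    · rw [if_neg h, if_neg (fun h' => h (e.1 h'))]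

end Pool.Agent.DT.F
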