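import Pool.Agent.Lib.DT.F.SpecP
import Pool.Agent.Lib.DK.B.Scl

/-!
# Theorem DT, part F, module LaF: the lattice `φ O`
-/

set_option autoImplicit false

open scoped Pointwise Topology MatrixGroups
open Filter

noncomputable section

namespace Pool.Agent.DT.F

open Pool.Agent.MuZ Pool.Agent.FW NumberField IsDedekindDomain Pool.Agent.DT
open Pool.Agent.DI (io ofC io_inj exists_io io_ofC ofC_io VP MP UP TP ex)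
open Pool.Agent.DI.F (tay Co Cf P0 P1)

theorem tLaF (hR1 : S_R1) (hR5 : S_R5) (hB1 : S_B1) (hB12 : S_B12) : S_LaF := by
  intro k t _
  have ht : (⊤ : Ideal (OO k t)) ≠ ⊥ := Eb.ne_top
  have hpt : ∀ n : Ideal (OO k t), PrI (⊤ : Ideal (OO k t)) n := fun n => Eb.pri_top n
  obtain ⟨hφ0, ha0', -, -⟩ := hR5 k t ⊤ ⊤ ⊤ ht ht ht (hpt _) (hpt _) (hpt _)
  obtain ⟨hio, -⟩ := hR1 k t ⊤ ht
  obtain ⟨-, hw0, e1, e2, -, -, -, -⟩ := hB12 k t ⊤ ht (hpt _)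
  obtain ⟨-, -, hr0, -, -, -, -, -, -, b10, -, -, b13, b14⟩ := hB1 k t ⊤ ht
  have ha0 : AC (⊤ : Ideal (OO k t)) ≠ 0 := by
    rw [← hio]
    intro h
    exact ha0' (io_inj (h.trans (map_zero io).symm))
  refine ⟨hφ0, ha0, hio, ?_⟩
  have hka : io (kaO k t) = (AC (⊤ : Ideal (OO k t)) ^ 3)⁻¹ := by
    unfold kaO
    rw [map_inv₀, map_pow, hio]
  obtain ⟨φ, hφ⟩ : ∃ φ, φ = fr (⊤ : Ideal (OO k t)) := ⟨_, rfl⟩
  obtain ⟨a, ha⟩ : ∃ a, a = AC (⊤ : Ideal (OO k t)) := ⟨_, rfl⟩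
  obtain ⟨r, hr⟩ : ∃ r, r = r2 (⊤ : Ideal (OO k t)) := ⟨_, rfl⟩
  obtain ⟨w0, hw⟩ : ∃ w0, w0 = wdC (⊤ : Ideal (OO k t)) (S0 k t) := ⟨_, rfl⟩
  rw [← hφ] at hφ0 e1 e2 ⊢
  rw [← ha] at ha0 e1 e2 hka b10 b13 b14 ⊢
  rw [← hr] at hr0 e1 e2 b10 b13 b14
  rw [← hw] at hw0 e1
  have e3 : φ ^ 3 = a ^ 3 * w0 := by linear_combination φ * e2 + a ^ 2 * e1
  rw [hka]
  -- the lattice
  obtain ⟨Λ, hΛ⟩ := DKB.tScl.2.2 (LP (⊤ : Ideal (OO k t))) φ⁻¹ (inv_ne_zero hφ0)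
  obtain ⟨s1, s2', -, g2, g3⟩ :=
    DKB.tScl.1 (LP (⊤ : Ideal (OO k t))) Λ φ⁻¹ (inv_ne_zero hφ0) hΛ
  have hlat : ∀ z : ℂ, z ∈ Lam (⊤ : Ideal (OO k t)) ↔ φ * z ∈ Λ.lattice := by
    intro z
    have h := hΛ (φ * z)
    rw [inv_mul_cancel_left₀ hφ0] at h
    have h4 : φ * z ∈ Λ.lattice ↔ z ∈ (LP (⊤ : Ideal (OO k t))).lattice := h
    rw [h4]
    have h5 := aL1 k t ⊤ ht
    rw [← h5]
    exact Iff.rfl
  have hwp : ∀ z : ℂ, Λ.weierstrassP (φ * z) = wpC (⊤ : Ideal (OO k t)) z / φ ^ 2 := by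
    intro z
    have h := s1 (φ * z)
    rw [inv_mul_cancel_left₀ hφ0] at h
    have h4 : Λ.weierstrassP (φ * z) = φ⁻¹ ^ 2 * wpC (⊤ : Ideal (OO k t)) z := h
    rw [h4, inv_pow, div_eq_inv_mul]
  have hwd : ∀ z : ℂ, Λ.derivWeierstrassP (φ * z) = wdC (⊤ : Ideal (OO k t)) z / φ ^ 3 := by
    intro z
    have h := s2' (φ * z)
    rw [inv_mul_cancel_left₀ hφ0] at h
    have h4 : Λ.derivWeierstrassP (φ * z) = φ⁻¹ ^ 3 * wdC (⊤ : Ideal (OO k t)) z := h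
    rw [h4, inv_pow, div_eq_inv_mul]
  have e4 : φ ^ 4 = a ^ 4 * r ^ 2 := by linear_combination (φ ^ 2 + a ^ 2 * r) * e2
  have e6 : φ ^ 6 = a ^ 6 * r ^ 3 := by
    linear_combination (φ ^ 4 + φ ^ 2 * (a ^ 2 * r) + (a ^ 2 * r) ^ 2) * e2
  refine ⟨Λ, ⟨?_, ?_⟩, hlat, ?_⟩
  · rw [g2, b13, inv_pow, e4]
    field_simp
  · rw [g3, b14, inv_pow, e6]
    field_simp
  · intro z
    unfold YC
    rw [← hw, ← ha, hwp, hwd, b10 z, e3, e2]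
    field_simp
    ring

end Pool.Agent.DT.F
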