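import Pool.Agent.Lib.DT.F.Base

/-!
# Theorem DT (`p = 3`), part F: the cube root `G` of `Y` and the function `Ψ` (statements), author helper9

(4.1) - (4.3) of note F' of helper67. Modules: `Gt` (`tGt : S_Gt`), `Cus` (`tCus : S_Cus`), `PsG` (`tPsG : S_PsG`);
all three are written by helper9.
-/

set_option autoImplicit false
set_option linter.unusedSectionVars false

open scoped Pointwise Topology MatrixGroups
open Filter

noncomputable section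

namespace Pool.Agent.DT.F

open Pool.Agent.MuZ Pool.Agent.FW NumberField IsDedekindDomain Pool.Agent.DT
open Pool.Agent.DI (io ofC io_inj exists_io io_ofC ofC_io VP MP UP TP ex)

/-- The function `Y = (W - Al X - 1)/2` of the lattice `O`, `W = ℘'(z)/℘'(S₀)`. -/
def YC (k t : ℕ) (z : ℂ) : ℂ :=
  (wdC (⊤ : Ideal (OO k t)) z / wdC (⊤ : Ideal (OO k t)) (S0 k t) -
    AC (⊤ : Ideal (OO k t)) * XC (⊤ : Ideal (OO k t)) z - 1) / 2

/-- `G` is a cube root of `Y`, with the periods in `O` multiplied by cube roots of unity (`G(z)` is the function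
`Gt(z/3)` of the note; `om ≠ 1` is true but not used). -/
structure IsG (k t : ℕ) (G : ℂ → ℂ) (om : ℂ) : Prop where
  om3 : om ^ 3 = 1
  mer : Meromorphic G
  cube : ∀ z : ℂ, z ∉ Lam (⊤ : Ideal (OO k t)) → G z ^ 3 = YC k t z
  per : ∀ (z : ℂ) (α : OO k t), G (z + toC α) = om ^ α.re * G z

/-- MODULE `Gt` (from `S_B1`, `S_B2`, `S_B6`, `S_B7`, `S_B12`). -/
def S_Gt : Prop := ∀ (k t : ℕ) [SqT k t], ∃ (G : ℂ → ℂ) (om : ℂ), IsG k t G om

/-- The function `Ψ = G(A(z)) conj(G(A(- conj z)))^(-e)`. -/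
def PsG {k t : ℕ} (G : ℂ → ℂ) (f : ℕ) (m : Ideal (OO k t)) (R : Finset (Ideal (OO k t)))
    (σ : Ideal (OO k t) → Gal(Om/ℚ)) (N0 : ℕ) (β : Om) (e : ℤ) (z : ℂ) : ℂ :=
  G (AF f m R σ N0 β z) * ((starRingEnd ℂ) (G (AF f m R σ N0 β (-(starRingEnd ℂ) z)))) ^ (-e)

/-- MODULE `Cus` (from `S_C3`). The cusps: `A(γ z)` is an analytic function of `ex (z/(9 M))`. -/
def S_Cus : Prop := ∀ (k t : ℕ) [SqT k t] (f M : ℕ) (m : Ideal (OO k t)) (R : Finset (Ideal (OO k t))),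
  FM f m → FR f R → IsLv f m R M → ∀ (σ : Ideal (OO k t) → Gal(Om/ℚ)) (N0 : ℕ) (β : Om) (a b c d : ℤ),
  a * d - b * c = 1 → ∃ al : ℂ → ℂ, AnalyticAt ℂ al 0 ∧ ∀ z : ℂ, 0 < z.im →
    AF f m R σ N0 β ((a * z + b) / (c * z + d)) = al (ex (z / (9 * M)))

/-- MODULE `PsG` (from `S_C7`, `S_Cus`). The first three items of `S_Psi` for `Ψ = PsG G ..`. -/
def S_PsG : Prop := ∀ (k t : ℕ) [SqT k t] (f M : ℕ) (m : Ideal (OO k t)) (R : Finset (Ideal (OO k t))),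
  FM f m → FR f R → IsLv f m R M → ∀ (σ : Ideal (OO k t) → Gal(Om/ℚ)) (N0 : ℕ) (β : Om) (e : ℤ),
  (e = 1 ∨ e = -1) → ∀ (G : ℂ → ℂ) (om : ℂ), IsG k t G om →
    (∀ z : ℂ, 0 < z.im → MeromorphicAt (PsG G f m R σ N0 β e) z) ∧
    (∀ z z' : ℂ, 0 < z.im → 0 < z'.im → ∀ α α' : OO k t, α + e * α' ∈ pp k t →
      AF f m R σ N0 β z' = AF f m R σ N0 β z + toC α →
      AF f m R σ N0 β (-(starRingEnd ℂ) z') = AF f m R σ N0 β (-(starRingEnd ℂ) z) + toC α' →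
      PsG G f m R σ N0 β e z' = PsG G f m R σ N0 β e z) ∧
    ∀ γ : SL(2, ℤ), ∃ (F : ℂ → ℂ) (Y : ℝ), MeromorphicAt F 0 ∧
      ∀ z : UpperHalfPlane, Y < z.im → PsG G f m R σ N0 β e ((γ • z : UpperHalfPlane) : ℂ) =
        F (Complex.exp (2 * Real.pi * Complex.I * (z : ℂ) / ((9 * M : ℕ) : ℂ)))

end Pool.Agent.DT.F
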