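import Pool.Agent.Lib.DT.F.SpecL
import Pool.Agent.Lib.DT.F.Lin3
import Pool.Agent.Lib.DT.E.Ab
import Pool.Agent.Lib.DT.E.F0
import Pool.Agent.Lib.DI.B.A12

/-!
# Theorem DT (`p = 3`), part F: `S_Kf`, `S_F1`, `S_F` (statements of the modules with complete proofs), author helper79

Every `def S_.. : Prop` is a statement with a complete proof in its docstring. The module `DT/F/<Name>.lean` (first line
`import Pool.Agent.Lib.DT.F.SpecK`) proves, in `namespace Pool.Agent.DT.F`, `theorem t<Name> : S_<Name>` with the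
statements named after (from ..) as hypotheses, in this order; all other lemmas `private` or with names starting with
the module name. MOST MODULES ARE ADAPTATIONS OF `DK/F/<Name>.lean` (same name; copy it and edit). Changes against `DK`:
parameters `(k t : ℕ) [SqT k t]`; the modulus is the ideal `cnd k t f = f 𝔭̄`, `Kf` has this modulus; the level is `3 * M`; `p = 3`; there is
a sign `e`; there is no second function `B` (no `c` in `S_Bet`, `S_Pa`, `S_Pb`).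

May be used freely (complete): `DT/Base.lean`, `DT/F/Base.lean`, `DT/F/SpecL.lean` (first part: `nu`, `fb_pp`, `exists_Ld`, `mp_iff`), `DT/O/All.lean` (parts 0
and L: `aO2`, .., `aL6`), `DT/E/SpecB.lean` (`Eb.psi_top`, `Eb.psi_mul`, `Eb.psi_level`, `Eb.ne_..`, `Eb.pri_..`), `Eb.tAb : S_E1 → S_O7 → Eb.S_Ab` (`DT/E/Ab.lean`), `Eb.tF0` (`DT/E/F0.lean`),
`DI/Val.lean` (`VP.add`, `VP.mul`, `VP.sum`, `MP.add`, `MP.mul_left`, `MP.one_not`, `UP.mul`, `UP.inv`, `UP.of_pow`, `UP.congr`, `VP.smul`, `MP.smul`, ..; with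
`have : P.IsPrime := hP.1.1`), `DI/F/VPB.lean` (`red`, `RF`, `exists_int_mul`), `DT/F/Lin3.lean` (`tLin3`, `tResFin3`, `charP_RF3`), and the lemmas below.
-/

set_option autoImplicit false
set_option linter.unusedSectionVars false

open scoped Pointwise Topology MatrixGroups
open Filter

noncomputable section

namespace Pool.Agent.DT.F

open Pool.Agent.MuZ Pool.Agent.FW NumberField IsDedekindDomain Pool.Agent.DT
open Pool.Agent.DI (io ofC io_inj exists_io io_ofC ofC_io VP MP UP TP ex)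

variable {k t : ℕ} [SqT k t]

/-! ## Complete lemmas -/

theorem npr_smul (τ : Gal(Om/ℚ)) {Q : Ideal ZZ} (hQ : Npr Q) : Npr (τ • Q) := by
  refine ⟨hQ.1.smul _, ?_⟩
  intro h
  apply hQ.2
  have h1 : Q = τ⁻¹ • (τ • Q) := (inv_smul_smul τ Q).symm
  rw [h1, h, Ideal.pointwise_smul_def, Ideal.map_bot]

theorem mp_three_smul (τ : Gal(Om/ℚ)) {Q : Ideal ZZ} (h : MP Q 3) : MP (τ • Q) 3 := by
  have h1 := (DI.MP.smul (P := Q) τ (x := (3 : Om))).2 h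
  rwa [map_ofNat] at h1

/-- `τ • P` is above `𝔭` for `τ ∈ Gal(Om/K)`. -/
theorem abp_smul {P : Ideal ZZ} (hP : AbP k t P) {τ : Gal(Om/ℚ)} (hτ : τ ∈ GK k t) :
    AbP k t (τ • P) := by
  refine ⟨npr_smul τ hP.1, mp_three_smul τ hP.2.1, ?_⟩
  have h1 := (DI.MP.smul (P := P) τ (x := wO k t)).2 hP.2.2
  rwa [mem_GK_iff.1 hτ] at h1

/-- The conjugate of a prime above `𝔭` is above `𝔭̄`. -/
theorem abpb_cj {P : Ideal ZZ} (hP : AbP k t P) {c : Gal(Om/ℚ)} (hc : IsCj c) :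
    AbPb k t (c • P) := by
  have hN := npr_smul c hP.1
  have h3 := mp_three_smul c hP.2.1
  refine ⟨hN, h3, ?_⟩
  have : (c • P).IsPrime := hN.1
  have h1 := (DI.MP.smul (P := P) c (x := wO k t)).2 hP.2.2
  rw [cj_wO hc] at h1
  rcases (inferInstance : SqT k t).out with ⟨ht, -⟩ | ⟨ht, -⟩
  · rw [ht] at h1 ⊢
    simpa using h1
  · rw [ht] at h1 ⊢
    have h2 := h1.sub h3
    have e : (((4 : ℕ) : Om) - wO k 4) - 3 = 1 - wO k 4 := by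
      push_cast
      ring
    rwa [e] at h2

/-- `1 - w` is a unit at the primes above `𝔭`. -/
theorem up_wb {P : Ideal ZZ} (hP : AbP k t P) : UP P (1 - wO k t) := by
  have hPp : P.IsPrime := hP.1.1
  refine DI.UP.congr DI.UP.one ?_
  have h : 1 - wO k t - 1 = -wO k t := by ring
  rw [h]
  exact hP.2.2.neg

/-- `(1 - w) ^ j` is fixed by `Gal(Om/K)`. -/
theorem wb_fix {τ : Gal(Om/ℚ)} (hτ : τ ∈ GK k t) (j : ℕ) :
    τ ((1 - wO k t) ^ j) = (1 - wO k t) ^ j := by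
  rw [map_pow, map_sub, map_one, mem_GK_iff.1 hτ]

/-! ## A. The field `Kf` -/

/-- The ray class field modulo `3 f`. -/
def NN (k t f : ℕ) : IntermediateField ℚ Om :=
  FixI (sN k t (3 * f)) (fun a : Ideal (OO k t) => Ray (sN k t (3 * f)) a ⊤)

/-- MODULE `KfI` (110 lines; from `S_E1`, `S_E4`, `S_E6`). INERTIA AT `P` IS TRIVIAL ON `Kf`. Adapt `DT/G/Inr.lean` (`import Pool.Agent.Lib.DT.G.RUp`, `import Pool.Agent.Lib.DT.G.Cop`;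
`G.tRUp aO6 (G.tCop aO4 aO6)`, `G.tCop aO4 aO6`). PROOF. (1) `τ ∈ GK`: `τ w` is a root of `X ^ 2 - t X + 3 k`, so `w` or `t - w`; `MP P (τ w - w)` (`DI.VP.inertia`); if `τ w = t - w` then `MP P t`, `MP P 1` (`t = 1` or
`t = 4 = 1 + 3`) (`Inr_GK` there). (2) `pp` is prime to `cnd` (`fb_pp`), so `Psi τ cnd ⊤` by `S_E4`; `x ∈ Kf` means `τ x = x` for all `τ ∈ GK` with `Psi τ cnd a`, `Ray cnd a ⊤` (`a = ⊤`, `ray_refl`). (3) Let `τ ζ = ζ`, `ζ = zet 3`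
(`GL.zet3_prim`, `import Pool.Agent.Lib.DT.GL.Tp`; `G.ZT` there is not needed). `S_E1`: `Psi τ (sN (3 f)) a`, `PrI a (sN (3 f))`, so `Psi τ cnd a` (`sN_le_cnd`), `Ray cnd a ⊤` (`S_E1` (2)). `RUp` (`n = cnd`,
`n' = sN (3 f)`, `b = ⊤`, `b' = a`): `β ≠ 0`, `β - 1 ∈ cnd`, `Ray (sN (3 f)) a (sp β)`. `ζ = τ ζ = ζ ^ NI a` (`S_E6` for `N = 3`), so `3 ∣ NI a - 1`; `aO9`, `NI_sp`: `3 ∣ Nm β - 1`, so `β - 1 ∈ pp` (`Cop`), so `β - 1 ∈ pp ⊓ cnd = sN (3 f)`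
(as there). So `Ray (sN (3 f)) (sp β) ⊤` (`ray_of` with `α = 1`, `α' = β`, or directly) and `Ray (sN (3 f)) a ⊤`: `τ x = x` for `x ∈ NN`. -/
def S_KfI : Prop := ∀ (k t : ℕ) [SqT k t] (f : ℕ), Fok f → ∀ P : Ideal ZZ, AbP k t P →
  ∀ τ ∈ P.inertia Gal(Om/ℚ), τ ∈ GK k t ∧ (∀ x ∈ Kf k t f, τ x = x) ∧
    (τ (zet 3) = zet 3 → ∀ x ∈ NN k t f, τ x = x)

/-- MODULE `KfN` (90 lines; from `S_E1`, `S_E6`, `S_E8`, `S_E9`). THE FIELD `NN`. PROOF. `n = sN (3 f) ≠ ⊥` (`Eb.ne_sN`), `H a = Ray n a ⊤`: `H ⊤` (`ray_refl`); `H a → a ≠ ⊥ ∧ PrI a n` (`aO7` (6): `Ray n a ⊤` gives `a ≠ ⊥ ↔ ⊤ ≠ ⊥`,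
`PrI a n ↔ PrI ⊤ n`); `H a → Ray n a a' → H a'` (`ray_symm`, `ray_trans`); `H a → H a' → H (a * a')` (`ray_mul`, `⊤ * ⊤ = ⊤`). (1) `S_E8`. (2) `x ∈ Kf`, `τ ∈ GK`, `Psi τ n a`, `Ray n a ⊤`: `Psi τ cnd a` (`Eb.psi_level` or `S_E1` (5), `sN_le_cnd`) and `Ray cnd a ⊤`
(`aO7` (7)), so `τ x = x`. (3) `τ ∈ GK`, `Psi τ n a`, `Ray n a ⊤`: `Psi τ (sN 3) a` (`Eb.sN_le`), `τ ζ = ζ ^ NI a` (`S_E6`, `ζ ^ 3 = 1`: `GL.zet3_cube`, `import Pool.Agent.Lib.DT.GL.Tp`), `3 ∣ NI a - NI ⊤ = NI a - 1` (`aO9`, `aO7` (7), `NI_top`), so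
`ζ ^ NI a = ζ`. (4) `S_E9` (2): `cjI n = n` (`aO3`), `H a → H (cjI a)` (`ray_cj`, `cjI_top`). -/
def S_KfN : Prop := ∀ (k t : ℕ) [SqT k t] (f : ℕ), Fok f →
  FiniteDimensional ℚ (NN k t f) ∧ Kf k t f ≤ NN k t f ∧ zet 3 ∈ NN k t f ∧
    ∀ τ : Gal(Om/ℚ), ∀ x ∈ NN k t f, τ x ∈ NN k t f

/-- MODULE `KfU` (70 lines; from `S_KfI`, `S_KfN`). `Kf` IS UNRAMIFIED AT `P`. Imports `DT/GL/UnrT.lean` (`GL.tUnrT`), `DT/GL/Iu.lean` (`GL.tIu`), `DT/GL/Tp.lean` (`GL.lam = 1 - zet 3`, `GL.lam_sq : lam ^ 2 = -3 * zet 3`, `GL.zet3_cube`, `GL.zet3_sq`, `GL.zet3_vp`).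
PROOF. `GL.Tam P NN` by `GL.tUnrT` with `S_KfN`, `S_KfI` (3). Let `ζ = zet 3`, `l = GL.lam`, `y = x/l ∈ NN` (`x`, `ζ ∈ NN`). `Tam`: `VP P (x ^ 2/3)`, and `y ^ 2 = x ^ 2/(-3 ζ) = -ζ² (x ^ 2/3)`, so `VP P y` (`VP.of_pow`). `GL.tIu P hP h3 1 2`: `ι ∈ P.inertia`, `ι ζ = ζ²`,
`ι x = x` (`S_KfI` (2)). `ι l = 1 - ζ² = (1 - ζ)(1 + ζ) = -ζ² l`, so `ι y = -ζ y` (`ζ³ = 1`). `MP P (ι y - y)` (`DI.VP.inertia`), and `ι y - y = -(1 + ζ) y = ζ² y`, so `MP P y` (multiply by `ζ`). `Tam` for `y`: `VP P (y ^ 2/3)`, so `VP P (y/l)` as before, and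
`x/3 = l y/3 = -ζ (y/l)` (`3 = -ζ² l²`). -/
def S_KfU : Prop := ∀ (k t : ℕ) [SqT k t] (f : ℕ), Fok f → ∀ P : Ideal ZZ, AbP k t P →
  ∀ x ∈ Kf k t f, MP P x → VP P (x / 3)

/-- MODULE `Kf` (150 lines; from `S_E1`, `S_E7`, `S_E8`, `S_KfI`, `S_KfU`, `FW.S_Ine`): `S_Kf`. Adapt `DK/F/Kf.lean`. PROOF. `H = (Ray cnd · ⊤)`, `n = cnd` (`cnd_ne`); the properties of `H` as in `S_KfN`. (1) `S_E8` for `H`. (2) `KQ ≤ Kf` (`S_E8`), `wO ∈ KQ`. (3) `S_E7`, choice.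
(4) `Eb.tAb hE1 aO7`. (5) infinite Galois theory (`InfiniteGalois.fixedField_fixingSubgroup`). (6) `ρ = τ⁻¹ * τ' ∈ GK`, `Psi ρ cnd s` (`S_E1` (1)); `τ`, `τ'` agree on `Kf` iff `ρ` fixes it iff `Ray cnd s ⊤` (`S_E8`, last item); `Psi τ' cnd (a * s)` (`Eb.psi_mul`), so
`Ray cnd (a * s) a'`; cancellation (`ray_mul`, `ray_cancel'`, `fb_psi`). (7) `ρ = τ'⁻¹ * τ`, `P' = τ'⁻¹ • P` (`abp_smul`). For `y : ZZ` with `(y : Om) ∈ Kf`: `MP P' (ρ y - y)` (`MP.smul`). `FW.S_Ine` for `KQ ≤ Kf`, `ρ`: there is `s ∈ P'.inertia` equal to `ρ` on `Kf`, and `s` is trivial on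
`Kf` (`S_KfI` (2)). (8) `S_KfU`. (9) `Eb.tF0` gives `φ` with `Fro P 3 φ` (`(3 : ZZ) ∈ P`); `φ w` is `w` or `t - w`, `MP P (φ w - w ^ 3)` (`VP.frob`), `MP P w`; if `φ w = t - w` then `MP P t`, so `MP P 1` (`t = 1` or `t = 4 = 1 + 3`); `mem_GK_iff`. (10) `Pool.Agent.DI.tA1`.
(11) `cj_cj`, `cj_wO`. -/
abbrev M_Kf : Prop := S_Kf

/-! ## B. `S_F1` -/

/-- MODULE `KP` (150 lines; no hypotheses). THE FIELD `K` AT THE PRIMES ABOVE `3`. `KP_form`, `KP_den` as in `DK/F/KP.lean`. PROOF. `w = wO`. (a) For `v : OO k t` and `j`: if `VP P (toO v/3 ^ j)` then `(1 - wI) ^ j * v = 3 ^ j * s` for some `s : OO k t`. Induction on `j` for all `v`: `j + 1`: `MP P (toO v)`, so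
`v ∈ pp` (`mp_iff`), `(1 - wI) * v ∈ ppb * pp = sN 3` (`pp_mul_ppb`; `1 - wI ∈ ppb`: `mem_ppb`), `(1 - wI) * v = 3 * v'`, `toO v'/3 ^ j = (1 - w) toO v/3 ^ (j+1)` is in `V_P`. (b) In the same way at `Q`: if `VP Q (toO v/3 ^ j)` then `wI ^ j * v = 3 ^ j * s'`; here `MP Q (toO v)`
gives `v ∈ ppb`: `toO v = (re + im) - im (1 - w)`, so `MP Q ((re + im : ℤ) : Om)`, so `3 ∣ re + im` (otherwise `re + im` and `3` are coprime and `MP Q 1`). (c) `wI + (1 - wI) = 1`, so `A wI ^ j + B (1 - wI) ^ j = 1` (`IsCoprime.pow`); so if both hold, `v = 3 ^ j (A s' + B s)`.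
(d) SECOND CLAIM: `x N = toO v`, `N = 3 ^ j n > 0`, `n` prime to `3`: `toO v/3 ^ j = n x` is in `V_P` and in `V_Q`, `v = 3 ^ j v''`, `n x = toO v''`. (e) FIRST CLAIM: `x n (1 - w) ^ j = toO s` by (a), `MP P ((1 - w) ^ j - 1)`, `MP P (toO s - s.re)`, so `MP P (x n - s.re)`;
`n n' = 1 + 3 u` for some `n'`, so `MP P (x - n' s.re)`, and `i = (n' s.re) mod 3` (`Int.emod`). -/
def S_KP : Prop := ∀ (k t : ℕ) [SqT k t] (P : Ideal ZZ), AbP k t P →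
  (∀ x ∈ KQ k t, VP P x → ∃ i : ℕ, MP P (x - i)) ∧
  ∀ Q : Ideal ZZ, AbPb k t Q → ∀ x ∈ KQ k t, VP P x → VP Q x →
    ∃ n : ℕ, n.Coprime 3 ∧ ∃ v : OO k t, (n : Om) * x = toO v

/-- MODULE `Bet` (170 lines; from `S_E1`, `S_Kf`, `S_KP`). THE ELEMENT `β`. Adapt `DK/F/Bet.lean`, steps (1) and (2) only (the complex conjugation does not occur); `tLin3`, `tResFin3`, `charP_RF3` in place of `tLin`, `tResFin`, `charP_RF`. PROOF. `L = Kf`. (1) `A = {x ∈ L : VP P (τ x) for all τ ∈ GK}`,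
a subring of `L` which contains the algebraic integers of `L`, stable under `GK` (`S_Kf` (4)). For `b` in the subtype `R`: `r_b(x) = red (σ b x)`, a ring homomorphism `A → RF`. INJECTIVE: `S_Kf` (7), (6), `IsRC.uni`. FINITE RANGE: `tResFin3`. For `x ∈ A` the sum `y = ∑_(b ∈ R) σ b x`
is fixed by `GK` (`Bet_left`), so `y ∈ KQ` (`S_Kf` (5)), `VP P y`, and `red y = n` in `RF` for some `n : ℕ` (`S_KP` (1)). `tLin3` with `k_b = red (κ b) ≠ 0` and the set `S` (`S ⊆ A`, because `S` is stable under `GK` and `VP P w` for `w ∈ S`) gives `β₀ ∈ A` with `¬ MP P (σ s β₀)` for some `s ∈ R`, and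
`MP P (∑ σ b (β₀ w))` for `w ∈ S`. (2) `ρ = (σ b1)⁻¹ * σ s ∈ GK`, `β = ρ β₀ ∈ A`: `UP P (σ b1 β)`, and `∑_b σ_b(β w) = ∑_b (σ_b ρ)(β₀ ρ⁻¹ w) = ∑_b σ_b(β₀ w')`, `w' = ρ⁻¹ w ∈ S` (`Bet_right`). -/
def S_Bet : Prop := ∀ (k t : ℕ) [SqT k t] (f : ℕ) (R : Finset (Ideal (OO k t))), Fok f →
  IsRC (cnd k t f) R → ∀ P : Ideal ZZ, AbP k t P → ∀ σ : Ideal (OO k t) → Gal(Om/ℚ), IsSig k t f σ →
  ∀ (κ : Ideal (OO k t) → Om) (S : Set Om), (∀ b ∈ R, UP P (κ b)) →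
  (∀ w ∈ S, w ∈ Kf k t f ∧ VP P w) → (∀ w ∈ S, ∀ τ ∈ GK k t, τ w ∈ S) →
  (∀ w ∈ S, MP P (∑ b ∈ R, κ b * σ b w)) →
  ∀ b1 ∈ R, ∃ β ∈ Kf k t f, UP P (σ b1 β) ∧ (∀ τ ∈ GK k t, VP P (τ β)) ∧
    ∀ w ∈ S, MP P (∑ b ∈ R, σ b (β * w))

/-- MODULE `Mu` (60 lines; from `S_C6`, `S_C8`, `S_C9`). THE NUMBERS `etaM f m ⊤ r`. Adapt `DK/F/Mu.lean`. PROOF. `r.den` is prime to `NI m` (`lv_m`). (1) `kf_mem`: if `Psi τ cnd a`, `Ray cnd a ⊤` then `τ (etaM ⊤ r) = etaM (a * ⊤) r = etaM ⊤ r` (`S_C8`, `S_C6` (1), `fb_psi`). (2) `S_C9`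
for `b = ⊤` (`fb_top`, `Eb.pri_top`, `lv_top`) at the prime `τ⁻¹ • P` (`abp_smul`, `VP.smul`). (3) `S_C8` for `Psi (σ b) cnd b`, `b * ⊤ = b`. -/
def S_Mu : Prop := ∀ (k t : ℕ) [SqT k t] (f M : ℕ) (m : Ideal (OO k t)) (R : Finset (Ideal (OO k t))),
  FM f m → IsLv f m R M → ∀ r : ℚ, r.den.Coprime M →
    etaM f m ⊤ r ∈ Kf k t f ∧
    (∀ P : Ideal ZZ, AbP k t P → ∀ τ ∈ GK k t, VP P (τ (etaM f m ⊤ r))) ∧
    ∀ σ : Ideal (OO k t) → Gal(Om/ℚ), IsSig k t f σ → ∀ b : Ideal (OO k t), FB f b →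
      σ b (etaM f m ⊤ r) = etaM f m b r

/-- `μ = η_⊤(b/d) + e η_⊤(-b/d) - (1 + e) η_⊤(0)`. -/
def muT {k t : ℕ} (f : ℕ) (m : Ideal (OO k t)) (e b d : ℤ) : Om :=
  etaM f m ⊤ (b / d) + e * etaM f m ⊤ (-(b / d)) - (1 + e) * etaM f m ⊤ 0

/-- `λ = η_⊤(b/d) - η_⊤(0)`. -/
def laT {k t : ℕ} (f : ℕ) (m : Ideal (OO k t)) (b d : ℤ) : Om := etaM f m ⊤ (b / d) - etaM f m ⊤ 0

/-- MODULE `Sm` (110 lines; from `S_E1`, `S_Kf`, `S_Mu`). THE SUMS WITH `χ`. Adapt `DK/F/Sm.lean`. PROOF. (1) `χ b ^ j = 1` with `j` prime to `3` (`IsChi.cop`; `j > 0`), `UP.of_pow`. (2) `etaX r = ∑ χ b * etaM b r = ∑ χ b * σ b (etaM ⊤ r)` (`S_Mu` (3); `r = b/d`, `-(b/d)`, `0` have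
denominators prime to `M`: `den_cop`, also for `-b`), so the hypothesis is `MP P (∑ F b)`, `F b' = χ b' * σ b' (muT e b d)`, a class function (`IsChi.ray`; `S_Kf` (6), `muT ∈ Kf`). Let `τ ∈ GK`, `Psi τ cnd a` (`S_E1` (1)). `σ_b' τ = σ_(a b')` on `Kf` (`Eb.psi_mul`, `S_Kf` (6),
`ray_refl`, `mul_comm`), so `χ a * ∑ χ b' σ_b' (τ μ) = ∑ χ (a b') σ_(a b') μ = ∑ F (a * b') = ∑ F b'` (`IsChi.mul`, `sum_mul`), in `M_P`; `χ a` is a unit. -/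
def S_Sm : Prop := ∀ (k t : ℕ) [SqT k t] (f M : ℕ) (m : Ideal (OO k t)) (R : Finset (Ideal (OO k t))),
  FM f m → FR f R → IsRC (cnd k t f) R → IsLv f m R M → ∀ χ : Ideal (OO k t) → Om,
  IsChi (cnd k t f) χ → ∀ P : Ideal ZZ, AbP k t P → ∀ σ : Ideal (OO k t) → Gal(Om/ℚ),
  IsSig k t f σ → ∀ e : ℤ, (∀ b : Ideal (OO k t), FB f b → UP P (χ b)) ∧
    ∀ a b c d : ℤ, G0 (3 * M) a b c d → (3 * M : ℤ) ∣ d - 1 →
      MP P (etaX f m R χ (b / d) + e * etaX f m R χ (-(b / d)) - (1 + e) * etaX f m R χ 0) →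
      ∀ τ ∈ GK k t, MP P (∑ b' ∈ R, χ b' * σ b' (τ (muT f m e b d)))

/-- The period of `A`. -/
def perA {k t : ℕ} (f : ℕ) (m : Ideal (OO k t)) (R : Finset (Ideal (OO k t)))
    (σ : Ideal (OO k t) → Gal(Om/ℚ)) (β : Om) (b d : ℤ) : Om := ∑ b' ∈ R, σ b' (β * laT f m b d)

/-- MODULE `Pa` (90 lines; from `S_E1`, `S_Kf`, `S_Mu`, `S_C2`). THE PERIODS OF `A`. Adapt `DK/F/Pa.lean` (without `c`). PROOF. `laT ∈ Kf` (`S_Mu`, `den_cop`; `0` has denominator `1`). (1) `S_C2` for `b' ∈ R` (`lv_one`, `fr_fb`, `pri_three`): `ThM b' (g z) - ThM b' z = io (etaM b' (b/d) - etaM b' 0) =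
io (σ b' (laT b d))`; `AF .. 1 β = ∑ io (σ b' β) * ThM b'`. (2) `F b' = σ b' (β * laT)` is a class function (`S_Kf` (6)); `τ ∈ GK`, `Psi τ cnd a`: `τ σ_b' = σ_(a b')` on `Kf`, `sum_mul`: `perA` is fixed by `GK`, `S_Kf` (5). (3) every term is in `V_P` (`S_Mu` (2)). -/
def S_Pa : Prop := ∀ (k t : ℕ) [SqT k t] (f M : ℕ) (m : Ideal (OO k t)) (R : Finset (Ideal (OO k t))),
  FM f m → FR f R → IsRC (cnd k t f) R → IsLv f m R M → ∀ P : Ideal ZZ, AbP k t P →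
  ∀ σ : Ideal (OO k t) → Gal(Om/ℚ), IsSig k t f σ → ∀ β ∈ Kf k t f, (∀ τ ∈ GK k t, VP P (τ β)) →
  ∀ a b c' d : ℤ, G0 (3 * M) a b c' d → (3 * M : ℤ) ∣ d - 1 →
    (∀ z : ℂ, 0 < z.im → AF f m R σ 1 β ((a * z + b) / (c' * z + d)) =
      AF f m R σ 1 β z + io (perA f m R σ β b d)) ∧
    perA f m R σ β b d ∈ KQ k t ∧ VP P (perA f m R σ β b d)

/-- MODULE `WbQ` (70 lines; no hypotheses). THE NUMBERS `(1 - w)/3`, `3 ^ K x` AT THE PRIMES ABOVE `𝔭̄`. PROOF. (1) `(1 - w)(1 - t + w) = 1 - t + 3 k` (`wO_sq`), and `1 - t + 3 k = 3 k'` (`k' = k` if `t = 1`, `k' = k - 1` if `t = 4`). `1 - t + w` is a unit at `Q`: `1 - t + w - 1 = -(t - 1) - (1 - w)`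
is in `M_Q` (`t - 1 ∈ {0, 3}`) (`UP.congr`). So `(1 - w)/3 = k'/(1 - t + w)`. (2) `x n = a`, `a : ZZ`, `n > 0` (`DI.F.exists_int_mul`), `n = 3 ^ K n'`, `n'` prime to `3`, so `UP Q n'` for all `Q` with `MP Q 3` (Bezout: otherwise `MP Q 1`), `3 ^ K x = a/n'`. (3) is (1) and (2): `(1 - w) ^ j x = ((1 - w)/3) ^ j 3 ^ j x`, `j ≥ K`. -/
def S_WbQ : Prop := (∀ (k t : ℕ) [SqT k t] (Q : Ideal ZZ), AbPb k t Q → VP Q ((1 - wO k t) / 3)) ∧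
  (∀ x : Om, ∃ K : ℕ, ∀ Q : Ideal ZZ, Npr Q → MP Q 3 → VP Q (3 ^ K * x)) ∧
  ∀ (k t : ℕ) [SqT k t] (x : Om), ∃ K : ℕ, ∀ j : ℕ, K ≤ j → ∀ Q : Ideal ZZ, AbPb k t Q →
    VP Q ((1 - wO k t) ^ j * x)

/-- MODULE `CoQ` (130 lines; from `S_C7`, `S_R5`, `S_WbQ`). THE COEFFICIENTS AT `Q`. `import Pool.Agent.Lib.DT.FH.Co` (`FHm.ofC_cM hC7 hm hb n`, `FHm.vN_one`). PROOF. For `b ∈ R` (`fr_fb`) and `v ∈ vN f (m * b) n`: (a) THERE ARE `y ∈ m * b`, `y ∉ ppb` (`m b` is prime to `ppb`: `fb_ppb`, `not_le_of_pri`) and `u : OO k t` with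
`3 f v toC y = toC u`, `u ∉ ppb`: `(v - v0) toC y = toC u₁` (`v - v0 ∈ Lam (m * b)`, `S_C7` (2)), `3 f v0 = toC (nu k t f)` (`nu_v0`), `u = nu * y + 3 f u₁`, `3 ∈ ppb`, `nu ∉ ppb` (`mem_ppb`: `3 + f`, `f` prime to `3`), `ppb` prime. (b) `ofC v⁻¹ = 3 f toO y/toO u` (`ofC_io`, `io_toO`), and `UP Q (toO u)`
(`MP Q (toO u)` only if `u ∈ ppb`, as in `S_KP` (b)); so `VP Q (ofC v⁻¹/3)`. (c) `FHm.ofC_cM` (1): `VP Q (ofC (cM f m b n)/3)`. (d) `aF` for `(1 - w) ^ j β`: `σ b ((1 - w) ^ j β) = (1 - w) ^ j σ b β` (`wb_fix`, `IsSig.mem`), so `aF n/27 = N0 ∑_b ((1 - w) ^ j x_b) (ofC (cM b n)/3)/9`, `x_b = σ b β * rO b ⊤`.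
`S_WbQ` (3) for `x_b/9`, and the maximum of the `K` over `R`. -/
def S_CoQ : Prop := ∀ (k t : ℕ) [SqT k t] (f : ℕ) (m : Ideal (OO k t)) (R : Finset (Ideal (OO k t))),
  FM f m → FR f R → ∀ σ : Ideal (OO k t) → Gal(Om/ℚ), IsSig k t f σ → ∀ β : Om,
  ∃ J : ℕ, ∀ j : ℕ, J ≤ j → ∀ Q : Ideal ZZ, AbPb k t Q → ∀ N0 n : ℕ,
    VP Q (aF f m R σ N0 ((1 - wO k t) ^ j * β) n / 27)

/-- MODULE `Pb` (140 lines; from `S_KP`, `S_Pa`, `S_WbQ`, `S_Kf`). FINITELY MANY GENERATORS. Adapt `DK/F/Pb.lean`; `DI.F.tFg : S_Fg` (`DI/F/Fg.lean`) is complete. PROOF. `φ g = perA β b d` for `g = (a b; c d) ∈ SL(2, ℤ)`. For `g ∈ Gamma1 (3 * M)` `S_Pa` applies. ADDITIVE on `Gamma1 (3 * M)` (`Pb_per_mul`). `S_Fg` with `3 * M` (`NeZero`): a finite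
set `T` of values of `φ` which generates all values. Every `x ∈ T` is in `KQ` and in `V_P` (`S_Pa`). By `S_WbQ` (3) and the maximum over `T` there is `J` with `VP Q ((1 - w) ^ j x)` for all `x ∈ T`, `j ≥ J`, `Q` above `𝔭̄`. Let `j ≥ J`. `β' = (1 - w) ^ j β`: `perA β' b d = (1 - w) ^ j perA β b d` (`wb_fix`, `IsSig.mem`), so the values of `perA β'`
are in the group generated by `(1 - w) ^ j T`. `(1 - w) ^ j x ∈ KQ ∩ V_P` (`S_Kf`, `up_wb`) and in `V_Q` for `Q = c • P` (`c` from `Pool.Agent.DI.tA1`, `abpb_cj`), so `n_x (1 - w) ^ j x ∈ toO (O)`, `n_x` prime to `3` (`S_KP` (2)); `N0 = ∏ n_x` (`Pb_exists_N`, `Pb_closure_N`). Last claim: `S_Pa` for `β' ∈ Kf` (`VP P (τ β')`: `wb_fix`,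
`up_wb`), `AF .. N0 = N0 * AF .. 1`, `io (toO α) = toC α`. -/
def S_Pb : Prop := ∀ (k t : ℕ) [SqT k t] (f M : ℕ) (m : Ideal (OO k t)) (R : Finset (Ideal (OO k t))),
  FM f m → FR f R → IsRC (cnd k t f) R → IsLv f m R M → ∀ P : Ideal ZZ, AbP k t P →
  ∀ σ : Ideal (OO k t) → Gal(Om/ℚ), IsSig k t f σ → ∀ β ∈ Kf k t f, (∀ τ ∈ GK k t, VP P (τ β)) →
  ∃ J : ℕ, ∀ j : ℕ, J ≤ j → ∃ N0 : ℕ, N0.Coprime 3 ∧
  ∀ a b c' d : ℤ, G0 (3 * M) a b c' d → (3 * M : ℤ) ∣ d - 1 → ∃ α : OO k t,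
    (N0 : Om) * perA f m R σ ((1 - wO k t) ^ j * β) b d = toO α ∧
    ∀ z : ℂ, 0 < z.im → AF f m R σ N0 ((1 - wO k t) ^ j * β) ((a * z + b) / (c' * z + d)) =
      AF f m R σ N0 ((1 - wO k t) ^ j * β) z + toC α

/-- MODULE `F1` (130 lines; from `S_Kf`, `S_Bet`, `S_Mu`, `S_Sm`, `S_CoQ`, `S_Pb`): `S_F1`. Adapt `DK/F/F1.lean`. PROOF. `b1` from `exists_Ld`. `S` = the set of all `τ (muT f m e b d)`, `τ ∈ GK`, `g = (a b; c d)`, `G0 (3 * M) a b c d`, `3 * M ∣ d - 1`. `S_Bet` with `κ = χ` (`S_Sm` (1)): `S ⊆ Kf` (`S_Mu` (1), `S_Kf` (4)),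
`VP P w` for `w ∈ S` (`S_Mu` (2)), stable under `GK`, and the sums are in `M_P` (`S_Sm` (2) and the hypothesis). So there is `β₀`. `j` = the maximum of the two `J` (`S_CoQ`, `S_Pb` for `β₀`), `N0` from `S_Pb`, `β = (1 - w) ^ j β₀ ∈ Kf` (`S_Kf` (2)), `UP P (σ b1 β)`, `VP P (τ β)` (`wb_fix`, `up_wb`). Every `b1' ∈ R` with `Ld f m b1'`
is `b1`. Coefficients: `S_CoQ`. For `g` the element `α`, for `g' = (a, -b; -c, d)` (`g0_inv`) the element `α'`: `laT b d + e laT (-b) d = muT e b d` (`((-b : ℤ) : ℚ)/d = -(b/d)`), so `toO (α + e α') = N0 * ∑ σ b' (β * muT e b d) = N0 (1 - w) ^ j ∑ σ b' (β₀ * muT e b d) ∈ M_P` (`S_Bet`, `muT ∈ S` with `τ = 1`), so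
`α + e α' ∈ pp` (`mp_iff`). -/
abbrev M_F1 : Prop := S_F1

/-! ## C. The assembly -/

/-- MODULE `Asm` (90 lines; from `S_Kf`, `S_F1`, `S_Lead`, `S_Psi`, `S_FH`): `S_F`. Adapt `DK/F/Asm.lean`; `DIF5.tW2 : DIF5.S_W2` (`DI/F5/All.lean`) is complete. PROOF. Suppose not. `σ`, `c` from `S_Kf` (3), (10). `S_F1` gives `N0, β`. `UP P (aF f m R σ N0 β 1)` by `S_Lead`, so it is `≠ 0` (`UP.ne_zero`). `S_Psi`: `Ψ`,
`T`, `W`, `Z`, `ψ`, `γ`, `Y`, `j`, `L`. `S_W2` with `V = DI.F.VS hP.1.1 hP.1.2`, this `L`, level `9 * M` (`NeZero`: `0 < M`), `m = j`: invariance under `γ ∈ Gamma1 (9 * M)`: `γ = (a b; c d)`, `G0 (3 * M) a b c d`, `3 * M ∣ d - 1` (from `9 * M`), `S_Psi` (2) with `z' = γ • z`, the two formulas of `S_F1` for `z` and for `-conj z`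
(`g0_conj`: `-conj (γ z) = (a (-conj z) - b)/(-c (-conj z) + d)`; the second formula of `S_F1` at the point `-conj z`). `S_FH` gives `False`. -/
abbrev M_Asm : Prop := S_F

end Pool.Agent.DT.F
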