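import Pool.Agent.Lib.DT.F.Base

/-!
# Theorem DT (`p = 3`), part F: `S_Lead` (statements of the modules with complete proofs), author helper79

Every `def S_.. : Prop` is a statement with a complete proof in its docstring. The module `DT/F/<Name>.lean` (first line
`import Pool.Agent.Lib.DT.F.SpecL`) proves, in `namespace Pool.Agent.DT.F`, `theorem t<Name> : S_<Name>` with the
statements named after (from ..) as hypotheses, in this order; all other lemmas `private` or with names starting with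
the module name. ALL MODULES ARE ADAPTATIONS OF `DK/F/<Name>.lean` (same name; copy it and edit). Changes against `DK`:
parameters `(k t : ℕ) [SqT k t]`; the modulus is the ideal `cnd k t f = f 𝔭̄` (`α - 1 ∈ cnd k t f` in place of `(f : OO k) ∣ α - 1`);
`fr b`, `rO b b'` without `f`; the base point is `v0 k t f = w/3 + 1/f` in place of `1/f`, the norm form is
`3 f² N(b) ‖v‖²`; `FM f m`: `Fok f` (`f > 0`, `4 ∣ f`, `f` prime to `3`), `m ≠ ⊥`, `PrI m (sN k t (3 * f))`.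

May be used freely (complete): `DT/Base.lean`, `DT/F/Base.lean`, `DT/O/All.lean` (parts 0 and L: `aO2`, .., `aL6`), `DT/E/SpecB.lean` (`Eb.pri_..`,
`Eb.ne_..`, `Eb.sN_le`), `DI/Val.lean` (`VP.add`, `VP.mul`, `MP.add`, `MP.mul_left`, `MP.one_not`, `UP.mul`, `UP.inv`, ..; with
`have : P.IsPrime := hP.1.1`), and the lemmas below.
-/

set_option autoImplicit false
set_option linter.unusedSectionVars false

open scoped Pointwise Topology MatrixGroups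
open Filter

noncomputable section

namespace Pool.Agent.DT.F

open Pool.Agent.MuZ Pool.Agent.FW NumberField IsDedekindDomain Pool.Agent.DT
open Pool.Agent.DI (io ofC io_inj exists_io io_ofC ofC_io VP MP UP TP ex)

variable {k t : ℕ} [SqT k t]

/-! ## The element `nu = 3 + f w = 3 f v₀` (complete) -/

/-- `nu = 3 + f w`, `3 f v₀ = nu`. -/
def nu (k t f : ℕ) : OO k t := ⟨3, f⟩

theorem nu_pp (f : ℕ) : nu k t f ∈ pp k t := by
  rw [mem_pp]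
  exact dvd_refl _

theorem nu_v0 {f : ℕ} (hf : 0 < f) : (3 * f : ℂ) * v0 k t f = toC (nu k t f) := v0_mul hf

theorem nu_eq (f : ℕ) : nu k t f = 3 + (f : OO k t) * wI k t := by
  apply ext'
  · rw [QuadraticAlgebra.re_add, re_mul, re_nat, im_nat]
    have := re_nat (k := k) (t := t) 3
    have h : (3 : OO k t).re = 3 := by exact_mod_cast this
    rw [h]
    simp [wI, nu]
  · rw [QuadraticAlgebra.im_add, im_mul, re_nat, im_nat]
    have := im_nat (k := k) (t := t) 3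
    have h : (3 : OO k t).im = 0 := by exact_mod_cast this
    rw [h]
    simp [wI, nu]

theorem three_cop {f : ℕ} (hf : f.Coprime 3) : PrI (sN k t 3) (sN k t f) := by
  rw [(aO6 k t).2.2.2.2.1 f (sN k t 3)]
  have h : (NI (sN k t 3) : ℤ) = 9 := by
    rw [NI_sp]
    have := Nm_nat (k := k) (t := t) 3
    rw [this]
    norm_num
  have h1 : NI (sN k t 3) = 9 := by exact_mod_cast h
  rw [h1]
  exact Nat.Coprime.pow_left 2 (Nat.Coprime.symm hf)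

theorem fb_pp {f : ℕ} (hf : Fok f) : FB f (pp k t) := by
  refine ⟨pp_ne, ?_⟩
  unfold cnd
  rw [(aO6 k t).2.1]
  refine ⟨?_, pp_sup_ppb⟩
  have h := three_cop (k := k) (t := t) hf.cop
  rw [← pp_mul_ppb] at h
  exact (((aO6 k t).1 _ _ _).1 h).1

theorem fb_nu {f : ℕ} (hf : Fok f) : FB f (sp (nu k t f)) := by
  have h0 : nu k t f ≠ 0 := by
    intro h
    have h1 := congrArg QuadraticAlgebra.re h
    simp [nu] at h1
  refine ⟨Eb.ne_sp h0, ?_⟩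
  unfold cnd
  rw [(aO6 k t).2.1]
  constructor
  · have h1 : (3 : OO k t) - nu k t f ∈ sN k t f := by
      rw [nu_eq]
      have e : (3 : OO k t) - (3 + (f : OO k t) * wI k t) = (-wI k t) * (f : OO k t) := by ring
      rw [e]
      exact Ideal.mul_mem_left _ _ (Ideal.mem_span_singleton_self _)
    refine (aO6 k t).2.2.2.2.2.2.1 _ 3 _ h1 ?_
    have h2 := three_cop (k := k) (t := t) hf.cop
    have e : ((3 : ℕ) : OO k t) = 3 := by norm_cast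
    unfold sN at h2
    rwa [e] at h2
  · refine pri_of_not_le ppb_prime ppb_ne fun h => ?_
    have h1 : nu k t f ∈ ppb k t := h (Ideal.mem_span_singleton_self _)
    rw [mem_ppb] at h1
    have h2 : (3 : ℤ) ∣ (f : ℤ) := by
      have h3 : (nu k t f).re + (nu k t f).im = 3 + f := rfl
      rw [h3] at h1
      exact (dvd_add_right (dvd_refl _)).1 h1
    have h3 : 3 ∣ f := by exact_mod_cast h2
    have h4 := hf.cop
    rw [Nat.coprime_comm, Nat.Prime.coprime_iff_not_dvd (by norm_num)] at h4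
    exact h4 h3

theorem nu_ne {f : ℕ} (hf : Fok f) : nu k t f ≠ 0 := by
  intro h
  have h1 := (fb_nu (k := k) (t := t) hf).ne
  rw [h] at h1
  exact h1 (by simp)

/-- The class of the leading coefficient. -/
theorem exists_Ld {f : ℕ} {m : Ideal (OO k t)} (hm : FM f m) {R : Finset (Ideal (OO k t))}
    (hR : IsRC (cnd k t f) R) : ∃ b1 ∈ R, Ld f m b1 ∧ ∀ b ∈ R, Ld f m b → b = b1 := by
  obtain ⟨b1, h1, h2, h3⟩ := exists_rep hm.pos (fb_mul (fb_nu hm.toFok) (fm_fb hm)) hR (fb_pp hm.toFok)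
  refine ⟨b1, h1, ?_, fun b hb h => h3 b hb ?_⟩
  · unfold Ld
    rw [← mul_assoc]
    exact h2
  · unfold Ld at h
    rw [← mul_assoc] at h
    exact h

/-- `(α - 1) v₀ ∈ O` for `α = 1` modulo `f 𝔭̄`. -/
theorem v0_period {f : ℕ} (hf : 0 < f) {α : OO k t} (h : α - 1 ∈ cnd k t f) :
    ∃ u : OO k t, (toC α - 1) * v0 k t f = toC u := by
  obtain ⟨u, hu, hu'⟩ := mem_cnd.1 h
  have h1 : u * nu k t f ∈ sN k t 3 := by
    rw [← pp_mul_ppb, mul_comm u]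
    exact Ideal.mul_mem_mul (nu_pp f) hu
  obtain ⟨s, hs⟩ := Ideal.mem_span_singleton'.1 h1
  refine ⟨s, ?_⟩
  have hf' : (f : ℂ) ≠ 0 := by exact_mod_cast hf.ne'
  have e1 : toC α - 1 = f * toC u := by
    rw [← toC_one (k := k) (t := t), ← toC_sub, ← hu', toC_mul, toC_nat]
  have e2 : toC u * toC (nu k t f) = toC s * 3 := by
    rw [← toC_mul, ← hs, toC_mul, toC_nat]
    norm_num
  have e3 := nu_v0 (k := k) (t := t) hf
  rw [e1]
  have e4 : (3 : ℂ) * (f * toC u * v0 k t f) = 3 * toC s := by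
    linear_combination toC u * e3 + e2
  exact mul_left_cancel₀ (by norm_num) e4

/-- The elements of `O` at the primes above `𝔭`. -/
theorem mp_iff {P : Ideal ZZ} (hP : AbP k t P) (v : OO k t) : MP P (toO v) ↔ v ∈ pp k t := by
  have hPp : P.IsPrime := hP.1.1
  have h3 : ∀ n : ℤ, (3 : ℤ) ∣ n → MP P (n : Om) := by
    rintro n ⟨m, rfl⟩
    push_cast
    rw [mul_comm]
    exact MP.mul_left (DI.VP.integral (by
      simpa using isIntegral_algebraMap (R := ℤ) (A := Om) (x := m))) hP.2.1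
  have h4 : MP P ((v.im : Om) * wO k t) :=
    MP.mul_left (DI.VP.integral (by
      simpa using isIntegral_algebraMap (R := ℤ) (A := Om) (x := v.im))) hP.2.2
  rw [mem_pp, toO_apply]
  constructor
  · intro h
    by_contra hn
    have h5 : MP P (v.re : Om) := by
      have := h.sub h4
      rwa [add_sub_cancel_right] at this
    have h6 : IsCoprime (3 : ℤ) v.re := by
      rcases (Int.isCoprime_iff_gcd_eq_one (m := 3) (n := v.re)) with ⟨-, h7⟩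
      apply h7
      have h8 := Int.prime_three
      exact Int.isCoprime_iff_gcd_eq_one.1 ((Prime.coprime_iff_not_dvd h8).2 hn)
    obtain ⟨a, b, hab⟩ := h6
    have h7 : MP P (((a * 3 + b * v.re : ℤ)) : Om) := by
      push_cast
      refine MP.add (MP.mul_left (DI.VP.integral (by
        simpa using isIntegral_algebraMap (R := ℤ) (A := Om) (x := a))) hP.2.1)
        (MP.mul_left (DI.VP.integral (by
        simpa using isIntegral_algebraMap (R := ℤ) (A := Om) (x := b))) h5)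
    rw [hab, Int.cast_one] at h7
    exact MP.one_not h7
  · intro h
    exact (h3 _ h).add h4

/-! ## The modules -/

/-- MODULE `Hm` (110 lines; from `S_B12`, `S_C7`). HOMOGENEITY. PROOF. `FB f (sp α * b)`: `fb_mul`, `pri_of_one`, `Eb.ne_sp`. First claim: `S_B12` (6) (`cnd_le_ppb`, `fb_ppb`). `m * (sp α * b) = sp α * (m * b)`.
By `S_C7` (2): `v ∈ vN f (sp α * (m * b)) n` iff `v - v0 ∈ Lam (sp α * (m * b))` and `3 f² NI(..) ‖v‖² = n` iff `toC α * v ∈ vN f (m * b) n`: `lam_sp`, `α (v - v0) = (α v - v0) - (α - 1) v0`, `(α - 1) v0 ∈ toC (O) ⊆ Lam (m * b)` (`v0_period`);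
`NI (sp α * a) = Nm α * NI a` (`NI_mul`, `NI_sp`), `Nm_norm`. The same for the condition `v - v0 ∈ Lam b`. So `v ↦ toC α * v` is a bijection of the finite sets (`Finset.sum_bij` or `Finset.sum_nbij'`) and
`v⁻¹ = α (α v)⁻¹`. -/
def S_Hm : Prop := ∀ (k t : ℕ) [SqT k t] (f : ℕ) (m b : Ideal (OO k t)), FM f m → FB f b →
  ∀ α : OO k t, α ≠ 0 → α - 1 ∈ cnd k t f →
    FB f (sp α * b) ∧ fr (sp α * b) = toC α * fr b ∧
    ∀ n : ℕ, cM f m (sp α * b) n = toC α * cM f m b n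

/-- MODULE `Al` (60 lines; from `S_C7`). THE COEFFICIENTS `cM` ARE IN `K`. PROOF. `v ∈ vN f (m * b) n`: `v = v0 + (v - v0)`, so `Tor k t v` (`tor_lam`, `tor_add`; `v0 = toC (nu)/(3 f)`, `nu_v0`), `v = toC u/N = io (toO u/N)`. So
`cM f m b n = io x` with `x ∈ KQ k t` (`toO u ∈ KQ k t`; sums, products, inverses), and `ofC (io x) = x`. -/
def S_Al : Prop := ∀ (k t : ℕ) [SqT k t] (f : ℕ) (m b : Ideal (OO k t)), FM f m → FB f b → ∀ n : ℕ,
  ofC (cM f m b n) ∈ KQ k t ∧ io (ofC (cM f m b n)) = cM f m b n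

/-- MODULE `Cls` (60 lines; from `S_R5`, `S_Hm`, `S_Al`). CLASS FUNCTIONS. PROOF. `ray_norm`: `sp α * b = sp α' * b'`. By `S_Hm` `α fr b = α' fr b'`, `α cM b n = α' cM b' n`, so `cM b n/fr b = cM b' n/fr b'`; apply `io`
(`S_R5` with `m := ⊤`: `io (rO b ⊤) = fr ⊤/fr b`, `fr ≠ 0`; `fb_ppb`; `S_Al`). -/
def S_Cls : Prop := ∀ (k t : ℕ) [SqT k t] (f : ℕ) (m b b' : Ideal (OO k t)), FM f m → FB f b →
  FB f b' → Ray (cnd k t f) b b' → ∀ n : ℕ,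
    rO b ⊤ * ofC (cM f m b n) = rO b' ⊤ * ofC (cM f m b' n)

/-- MODULE `CoL` (80 lines; from `S_Kf`, `S_E10`, `S_R5`, `S_Hm`, `S_Al`). THE COEFFICIENTS ARE IN `Kf`. PROOF. `kf_mem`: `τ ∈ GK k t`, `Psi τ (cnd k t f) a`, `Ray (cnd k t f) a ⊤`. `σ b β ∈ Kf` (`S_Kf` (4), `σ b ∈ GK k t`). `KQ k t ≤ Kf k t f`: elements of `KQ k t` are fixed by
`GK k t`. `τ (rO b ⊤) = rO (a * b) (a * ⊤)` (`S_E10`, second item, `n = cnd k t f ≤ ppb k t`: `cnd_le_ppb`). `ray_norm`: `sp α * a = sp α' * ⊤`, so `sp α * (a * b) = sp α' * b` and by `S_Hm` (2) `α fr (a b) = α' fr b`, `α fr a = α' fr ⊤` (`b = ⊤`);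
so `fr a/fr (a b) = fr ⊤/fr b` (`fr ≠ 0`: `S_R5`), `rO (a * b) a = rO b ⊤` (the definition of `rO`). -/
def S_CoL : Prop := ∀ (k t : ℕ) [SqT k t] (f : ℕ) (m : Ideal (OO k t)) (R : Finset (Ideal (OO k t))),
  FM f m → IsRC (cnd k t f) R → ∀ σ : Ideal (OO k t) → Gal(Om/ℚ), IsSig k t f σ →
  ∀ (N0 : ℕ) (β : Om), β ∈ Kf k t f →
    (∀ b : Ideal (OO k t), FB f b → rO b ⊤ ∈ Kf k t f) ∧ ∀ n : ℕ, aF f m R σ N0 β n ∈ Kf k t f

/-- MODULE `Has` (60 lines; from `S_R5`, `S_C7`, `S_Al`). THE `q`-EXPANSION. PROOF. `fr ⊤ * AF z = N0 ∑ io (σ b β) (fr ⊤) ThM b z`; `S_C7` (5) times `N0 io (σ b β) (fr ⊤)` (`HasSum.mul_left`), `ex (n * z) = ex z ^ n` (`Complex.exp_nat_mul`),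
finite sum over `R` (`hasSum_sum`); `io (rO b ⊤) = fr ⊤/fr b` (`S_R5`), `S_Al`. Second claim: `vN f (m * b) 0 = ∅` (`S_C7` (3)), `ofC 0 = 0` (`ofC_io`). -/
def S_Has : Prop := ∀ (k t : ℕ) [SqT k t] (f : ℕ) (m : Ideal (OO k t)) (R : Finset (Ideal (OO k t))),
  FM f m → IsRC (cnd k t f) R → ∀ (σ : Ideal (OO k t) → Gal(Om/ℚ)) (N0 : ℕ) (β : Om),
    (∀ z : ℂ, 0 < z.im → HasSum (fun n : ℕ => io (aF f m R σ N0 β n) * ex z ^ n)
      (fr (⊤ : Ideal (OO k t)) * AF f m R σ N0 β z)) ∧ aF f m R σ N0 β 0 = 0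

/-- MODULE `V1a` (110 lines; from `S_C7`). THE SET `vN f c 1`, `c = m b`. PROOF. `n_c = NI c`, `nu = 3 + f w`. Let `v ∈ vN f c 1`, `z = v - v0`, `u = 3 f v`: `z ∈ Lam c`, `3 f² n_c ‖v‖² = 1` (`S_C7` (2)). (1) FOR `y ∈ c`: `toC y * u = toC s` WITH `s ∈ 𝔭`: `y z ∈ toC (O)`, `3 f v = 3 f z + toC nu` (`nu_v0`), so
`y u = y nu + 3 f (y z)`, and `nu`, `3 ∈ 𝔭` (`nu_pp`, `three_pp`). So `u ∈ Lam c`. (2) If `z' ∈ Lam c` then `n_c conj z' = toC y`, `y ∈ c` (`V1a_claim` in `DK/F/V1a.lean`). So `n_c conj u = toC x`, `x ∈ c`, and `toC x * u = n_c ‖u‖² = 9 f² n_c ‖v‖² = 3`,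
`v = 1/(f toC x)`. `Nm x = ‖toC x‖² = n_c² ‖u‖² = 3 n_c`. (3) `sp x ≤ c`, so `sp x = c * c'` (`Ideal.dvd_iff_le`), `NI c' = 3`. For `y ∈ c`: by (1) `3 toC y = toC x * u * toC y = toC (x s)`, `s ∈ 𝔭`: `sp 3 * c ≤ sp x * 𝔭 = c * (c' * 𝔭)`, cancel `c` (`Ideal.dvd_iff_le`, `mul_cancel`-type):
`𝔭̄ * 𝔭 = sp 3 ≤ c' * 𝔭`, cancel `𝔭`: `𝔭̄ ≤ c'`, `𝔭̄ = c' * c''`, `3 = NI 𝔭̄ = NI c' * NI c''` (`NI_ppb`, `NI_mul`), `NI c'' = 1`, `c'' = ⊤` (`V1a_eq` in `DK/F/V1a.lean`), `c' = 𝔭̄`. (4) For every `x' ∈ c * 𝔭̄` there is `u' ∈ 𝔭̄` with `toC x' * z = toC u'` (`Submodule.mul_induction_on`: `(c_i z) p_i`). For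
`x' = x`: `3 f toC u' = 3 f toC x * (v - v0) = 3 - toC x * toC nu`. Put `y = 1 - f u'`: `nu * x = 3 * y` (`toC_inj`), `y - 1 = - f u' ∈ cnd` (`nat_mem_cnd`). -/
def S_V1a : Prop := ∀ (k t : ℕ) [SqT k t] (f : ℕ) (m b : Ideal (OO k t)), FM f m → FB f b →
  ∀ v ∈ vN f (m * b) 1, ∃ x y : OO k t, x ≠ 0 ∧ m * b * ppb k t = sp x ∧ nu k t f * x = 3 * y ∧
    y - 1 ∈ cnd k t f ∧ v = 1 / (f * toC x)

/-- MODULE `V1b` (170 lines; from `S_C7`, `S_V1a`). THE SET `vN f c 1`, SECOND PART. PROOF. (1) `x, y` from `S_V1a`: `(sp nu * (m * b)) * 𝔭̄ = sp (nu * x) = sp (3 * y) = (sp y * 𝔭) * 𝔭̄` (`pp_mul_ppb`), cancel `𝔭̄` (`mul_cancel`): `sp 1 * (sp nu * (m * b)) = sp y * 𝔭`; `y ≠ 0` as `nu * x ≠ 0` (`nu_ne`);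
`ray_of`; `Ld f m b` is `Ray (cnd k t f) (sp nu * (m * b)) (pp k t)` (`Ld`, `nu` unfold). (2) `ray_norm`: `sp α * (sp nu * (m * b)) = sp α' * 𝔭`; multiply by `𝔭̄`: `sp (α * nu) * (m * b * 𝔭̄) = sp (3 * α')`. So `3 * α' = α * nu * x` with `x ∈ m * b * 𝔭̄` (`Ideal.mem_span_singleton_mul`), `x ≠ 0`,
`m * b * 𝔭̄ = sp x` (`sp_cancel`). `x ∈ 𝔭̄`, `nu ∈ 𝔭`, so `nu * x ∈ sN k t 3`, `nu * x = 3 * y`, `α' = α * y`, `y - 1 = (α' - 1) - (α - 1) * y ∈ cnd`; `1 - y = f * u'`, `u' ∈ 𝔭̄` (`mem_cnd`). `v = 1/(f x)`: `v - v0 = (3 - nu x)/(3 f x) = u'/x`; for `c1 ∈ m * b`: `c1 u' ∈ m * b * 𝔭̄ = sp x`, so `v - v0 ∈ Lam (m * b)`.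
`Nm x = NI (m * b * 𝔭̄) = 3 NI (m * b)`, so `3 f² NI (m * b) ‖v‖² = 1`: `v ∈ vN f (m * b) 1`. It is the only element: by `S_V1a` another one is `1/(f x')`, `sp x' = m * b * 𝔭̄ = sp x`, `nu * x' = 3 * y'`, so `x' = e x`, `Nm e = 1`, `e = ± 1` (`four_Nm`, `hD8`; as `V1b_unit` in `DK/F/V1b.lean`), and `e = -1` gives `y' = -y`,
`2 = -((y' - 1) + (y - 1)) ∈ cnd ≤ sN k t f` (`cnd_le_sN`), `f ∣ 2`, against `4 ∣ f`. (3) Let `v - v0 ∈ Lam b`. For `y1 ∈ b` as in `S_V1a` (1): `toC y1 * (3 f v) = toC s`, `s ∈ 𝔭`, and `3 f v = 3/x`: `3 * y1 = x * s ∈ sp x * 𝔭 = m * b * 𝔭̄ * 𝔭 = sp 3 * (m * b)`. So `sp 3 * b ≤ sp 3 * (m * b)`, `b ≤ m * b`,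
`m * b = b`, `m = ⊤` (`mul_cancel`). -/
def S_V1b : Prop := ∀ (k t : ℕ) [SqT k t] (f : ℕ) (m b : Ideal (OO k t)), FM f m → FB f b →
  (vN f (m * b) 1 ≠ ∅ → Ld f m b) ∧
  (Ld f m b → ∃ x : OO k t, x ≠ 0 ∧ m * b * ppb k t = sp x ∧
    vN f (m * b) 1 = {1 / (f * toC x)} ∧ (m ≠ ⊤ → 1 / (f * toC x) - v0 k t f ∉ Lam b))

/-- MODULE `Lead` (100 lines; from `S_R5`, `S_D9`, `S_CoL`, `S_Has`, `S_V1b`): `S_Lead`. PROOF. All but the last claim: `S_CoL`, `S_Has`. Last claim: `b1` from `exists_Ld`. For `b ∈ R`, `b ≠ b1`: not `Ld f m b`, so `vN f (m * b) 1 = ∅` (`S_V1b` (1)),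
`cM f m b 1 = 0`, `ofC 0 = 0`. `b = b1`: `cM f m b1 1 = (1/(f x))⁻¹ = f toC x = io (f toO x)` (`S_V1b` (2), `m ≠ ⊤`), so `aF 1 = N0 * (σ b1 β * rO b1 ⊤ * (f * toO x))` (`Finset.sum_eq_single`). UNITS at `P` (`MP P 3`): `N0`, `f` are prime to `3` (`a N0 + 3 b = 1`); `σ b1 β` by hypothesis;
`toO x`: otherwise `MP P (toO x)` (it is integral), `x ∈ 𝔭` (`mp_iff`), `m * b1 * 𝔭̄ = sp x ≤ 𝔭`, so `m ≤ 𝔭` or `b1 ≤ 𝔭` or `𝔭̄ ≤ 𝔭` (`pp_prime`, `Ideal.IsPrime.mul_le`), against `PrI m (pp k t)`, `PrI b1 (pp k t)` (`pri_pp (pri_three hm.prm)`, `FR`), `pp_sup_ppb` (`not_le_of_pri`; `pp k t ≠ ⊤` by `pp_prime.ne_top`).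
`rO b1 ⊤ * rO ⊤ b1 = 1` (apply `io`, `S_R5` with `m := ⊤`) and `TP P 3 (rO ⊤ b1 - NI b1)` (`S_D9` (1) with `a = b1`, `b = ⊤`, `b1 * ⊤ = b1`; `TP P 3 y` means `y = 3 y'`, `VP P y'`), `NI b1` is prime to `3` (`aO6` (5)), so `rO ⊤ b1` is a unit at `P`; `UP.inv`. -/
abbrev M_Lead : Prop := S_Lead

end Pool.Agent.DT.F
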