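import Pool.Agent.Lib.DT.F.Base
import Pool.Agent.Lib.DT.F.SpecG
import Pool.Agent.Lib.DI.F.Tay
import Pool.Agent.Lib.DI.F.Co
import Pool.Agent.Lib.DI.F.P01

/-!
# Theorem DT (`p = 3`), part F: `S_Psi` (statements of the modules with complete proofs), author helper79

Every `def S_.. : Prop` is a statement with a complete proof in its docstring. The module `DT/F/<Name>.lean` (first line
`import Pool.Agent.Lib.DT.F.SpecP`) proves, in `namespace Pool.Agent.DT.F`, `theorem t<Name> : S_<Name>` with the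
statements named after (from ..) as hypotheses, in this order; all other lemmas `private` or with names starting with
the module name. `S_Gt` and `S_PsG` (the function `G`, the three first items of `S_Psi`) are proved by helper9; all the others
are modules. Many are ADAPTATIONS OF `DK/F/<Name>.lean` (same name; copy it and edit).

The curve is `y² + x y + ka y = x³`, `ka = Al(1)⁻³` (`kaO k t`), `x = ℘ - 1/12` for the lattice `fr(1) O`. May be used freely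
(complete): `DT/Base.lean`, `DT/F/Base.lean`, `DT/O/All.lean`; from `DI/F` (import the files): `DI.F.tTay : S_Tay`,
`DI.F.tCo DI.F.tTay : S_Co`, `DI.F.tP01 DI.F.tTay hCo : S_P01`, `DI.F.PsiExpAux.*` (`DI/F/PsiExp.lean`: `ex_ne`, `norm_ex`, `exists_ex`, `pmap_inj`,
`der_map`, `lift`), `DI.F.F3coreAux.near`, `DI.F.F3coreAux.coeff_zero_tay` (`DI/F/F3core.lean`), `DKB.tScl` (`DK/B/Scl.lean`).
-/

set_option autoImplicit false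
set_option linter.unusedSectionVars false

open scoped Pointwise Topology MatrixGroups
open Filter

noncomputable section

namespace Pool.Agent.DT.F

open Pool.Agent.MuZ Pool.Agent.FW NumberField IsDedekindDomain Pool.Agent.DT
open Pool.Agent.DI (io ofC io_inj exists_io io_ofC ofC_io VP MP UP TP ex)
open Pool.Agent.DI.F (tay Co Cf P0 P1)

/-! ## A. Power series -/

/-- MODULE `Cub` (60 lines; no hypotheses). CUBE ROOTS OF POWER SERIES. PROOF. `E = p ^ 3`, `D` the derivative (`PowerSeries.derivative ℂ`, a derivation): `p * D E = 3 * E * D p` (`D (p ^ 3) = 3 p² D p`). Coefficient `n`: `∑_(i+j=n) p_i (j+1) E_(j+1) = 3 ∑_(i+j=n) E_i (j+1) p_(j+1)`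
(`PowerSeries.coeff_mul`, `PowerSeries.coeff_derivative`). The term `i = 0` on the right is `3 E_0 (n+1) p_(n+1)`, `E_0 = p_0³ ≠ 0`, and all other terms contain only `p_i`, `i ≤ n`, and coefficients of `E`: strong induction. -/
def S_Cub : Prop := ∀ (K : Subfield ℂ) (p : PowerSeries ℂ), PowerSeries.coeff 0 p ∈ K →
  PowerSeries.coeff 0 p ≠ 0 → Cf K (p ^ 3) → Cf K p

/-- The function `conj (f (conj q))`. -/
def cjf (f : ℂ → ℂ) (q : ℂ) : ℂ := (starRingEnd ℂ) (f ((starRingEnd ℂ) q))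

/-- MODULE `Cjt` (50 lines; no hypotheses). CONJUGATE FUNCTIONS. PROOF. `DI.F.tTay` (1) at `conj q` (`Complex.continuous_conj`, `conj 0 = 0`): `HasSum (coeff n (tay f) * (conj q) ^ n) (f (conj q))`; apply `conj` (continuous additive: `HasSum.map`, `Complex.conjCLE`):
`HasSum (conj (coeff n (tay f)) * q ^ n) (cjf f q)` for all `q` near `0`; `DI.F.tTay` (2). -/
def S_Cjt : Prop := ∀ f : ℂ → ℂ, AnalyticAt ℂ f 0 →
  AnalyticAt ℂ (cjf f) 0 ∧ tay (cjf f) = PowerSeries.map (starRingEnd ℂ) (tay f)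

/-- MODULE `Mer` (60 lines; no hypotheses). A MEROMORPHIC CUBE ROOT IS ANALYTIC. PROOF. The order of `F ^ 3` at `0` is the order of `E`, which is `0` (`meromorphicOrderAt_congr`, `meromorphicOrderAt_pow`, `AnalyticAt.meromorphicOrderAt_eq`-type lemmas; `E 0 ≠ 0`), so the order of `F` is `0`:
`meromorphicOrderAt_eq_int_iff` with `n = 0` gives `g` analytic, `g 0 ≠ 0`, `F = g` on a punctured neighbourhood. (Or: `F` is bounded near `0`, removable singularity.) -/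
def S_Mer : Prop := ∀ F E : ℂ → ℂ, MeromorphicAt F 0 → AnalyticAt ℂ E 0 → E 0 ≠ 0 →
  (∀ᶠ u in 𝓝[≠] (0 : ℂ), F u ^ 3 = E u) →
  ∃ g : ℂ → ℂ, AnalyticAt ℂ g 0 ∧ g 0 ≠ 0 ∧ ∀ᶠ u in 𝓝[≠] (0 : ℂ), F u = g u

/-! ## B. The functions `T`, `W` near `0` -/

/-- The lattice `Λ` belongs to the curve `y² + x y + ka y = x³`, with `x = ℘ - 1/12`. -/
structure IsTW (Λ : PeriodPair) (ka : ℂ) : Prop where
  g2 : Λ.g₂ = (1 - 24 * ka) / 12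
  g3 : Λ.g₃ = (-1 + 36 * ka - 216 * ka ^ 2) / 216

/-- `u³ (℘' - (℘ - 1/12) - ka)`, extended to `0`; this is `2 u³ y`. -/
def Dg (Λ : PeriodPair) (ka u : ℂ) : ℂ := P1 Λ u - u * P0 Λ u + u ^ 3 * (1 / 12 - ka)

/-- `T = -x/y`, `x = ℘ - 1/12`, `y = (℘' - x - ka)/2`, extended to `0`. -/
def Tg (Λ : PeriodPair) (ka u : ℂ) : ℂ := -2 * u * (P0 Λ u - u ^ 2 / 12) / Dg Λ ka u

/-- `W = -1/y`, extended to `0`. -/
def Wg (Λ : PeriodPair) (ka u : ℂ) : ℂ := -2 * u ^ 3 / Dg Λ ka u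

/-- MODULE `TWg` (190 lines; no hypotheses). THE FUNCTIONS `T`, `W` NEAR `0`. Adapt `DK/F/TWg.lean` (there the curve `y² + xy = x³ + a₂ x² + a₄ x`, `x = ℘ - (1 + 4 a₂)/12`; here `x = ℘ - 1/12`, `y = (℘' - x - ka)/2`). PROOF. `Λ.g₂, Λ.g₃ ∈ K` (`IsTW`), so `Co K (P0 Λ)`, `Co K (P1 Λ)` (`S_P01`).
`Dg Λ ka 0 = -2`, so `Co K` of `Tg`, `Wg` by `S_Co`. For small `u ≠ 0` (not in the lattice) `P0 = u² ℘`, `P1 = u³ ℘'`, `Dg = 2 u³ y`, `y ≠ 0`, `Tg = -x/y`, `Wg = -1/y`. `derivWeierstrassP_sq` (`℘'² = 4 ℘³ - g₂ ℘ - g₃`) with `℘ = x + 1/12`, `℘' = 2 y + x + ka` is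
`(2y+x+ka)² = 4x³ + x² + 2 ka x + ka²`, i.e. `y² + xy + ka y = x³`; divide by `-y³`: the curve in `T`, `W` (at `u = 0` both sides are `0`). Derivative: `(T/W)' = x' = ℘' = 2y + x + ka = (T - 2 + ka W)/W` for small `u ≠ 0`; at `u = 0` all terms
vanish. `tt = -2 (P0 - u²/12)/Dg`, `ww = -2/Dg`. -/
def S_TWg : Prop := ∀ (Λ : PeriodPair) (ka : ℂ), IsTW Λ ka → ∀ K : Subfield ℂ, ka ∈ K →
  Co K (Tg Λ ka) ∧ Co K (Wg Λ ka) ∧
  (∀ᶠ u in 𝓝 (0 : ℂ), Wg Λ ka u = Tg Λ ka u ^ 3 + Tg Λ ka u * Wg Λ ka u + ka * Wg Λ ka u ^ 2) ∧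
  (∀ᶠ u in 𝓝 (0 : ℂ), deriv (Tg Λ ka) u * Wg Λ ka u - Tg Λ ka u * deriv (Wg Λ ka) u
    = (Tg Λ ka u - 2 + ka * Wg Λ ka u) * Wg Λ ka u) ∧
  (∃ tt ww : ℂ → ℂ, Co K tt ∧ Co K ww ∧ tt 0 = 1 ∧ ww 0 = 1 ∧
    (∀ u, Tg Λ ka u = u * tt u) ∧ ∀ u, Wg Λ ka u = u ^ 3 * ww u) ∧
  (∀ᶠ u in 𝓝[≠] (0 : ℂ), u ∉ Λ.lattice ∧ Wg Λ ka u ≠ 0 ∧
    Λ.weierstrassP u - 1 / 12 = Tg Λ ka u / Wg Λ ka u ∧
    (Λ.derivWeierstrassP u - (Λ.weierstrassP u - 1 / 12) - ka) / 2 = -1 / Wg Λ ka u)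

/-- MODULE `TWc` (140 lines; from `S_TWg`). TAYLOR SERIES OF `T(u(q))`, `W(u(q))`. Adapt `DK/F/TWc.lean` (`TWr` of `DT/IfaceF.lean`). PROOF. Coefficients in `K` by `S_Co` (composition); the relations by `S_TWg` at `u(q)` (`u` is continuous at `0`) and `S_Tay` (chain rule for
`diff`); first coefficients by `Tg = u tt(u)`, `Wg = u³ ww(u)`. -/
def S_TWc : Prop := ∀ (Λ : PeriodPair) (ka : ℂ), IsTW Λ ka → ∀ K : Subfield ℂ, ka ∈ K →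
  ∀ u : ℂ → ℂ, Co K u → u 0 = 0 →
  Co K (fun q => Tg Λ ka (u q)) ∧ Co K (fun q => Wg Λ ka (u q)) ∧
  TWr ka (tay u) (tay fun q => Tg Λ ka (u q)) (tay fun q => Wg Λ ka (u q))

/-! ## C. The functions `Y`, `G`, `Ψ`: `YC`, `IsG`, `S_Gt`, `PsG`, `S_PsG` are defined in `DT/F/SpecG.lean` (helper9) -/

/-! ## D. The expansions -/

/-- MODULE `LaF` (130 lines; from `S_R1`, `S_R5`, `S_B1`, `S_B12`). THE LATTICE `φ O`, `φ = fr ⊤`. Adapt `DK/F/LaF.lean` (`DKB.tScl` gives `Λ` and the scaling of `℘`, `℘'`, `g₂`, `g₃`). PROOF. `φ ≠ 0` (`S_R5` with `m = b = b' = ⊤`). `Λ = φ * LP ⊤`: `Λ.weierstrassP (φ z) = wpC ⊤ z/φ²`,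
`Λ.derivWeierstrassP (φ z) = wdC ⊤ z/φ³`, `Λ.g₂ = g₂/φ⁴`, `Λ.g₃ = g₃/φ⁶`, `φ z ∈ Λ.lattice` iff `z ∈ Lam ⊤` (`aL1`). `a = AC ⊤ = io (aO ⊤) ≠ 0` (`S_R1`, `S_R5`), `io (kaO k t) = a⁻³`. `S_B12` for `b = ⊤` (`Eb.pri_top`): `φ² = a² r2`, `φ r2 = a w₀`, `w₀ = wdC ⊤ (S0 k t) ≠ 0`, so `φ³ = a³ w₀`. `S_B1`:
`g₂ = r2² (a⁴ - 24 a)/12`, `g₃ = r2³ (-a⁶ + 36 a³ - 216)/216`: divide by `φ⁴ = a⁴ r2²`, `φ⁶ = a⁶ r2³`: `IsTW Λ (a⁻³)`. `wpC ⊤ z = r2 (XC ⊤ z + a²/12)` (`S_B1`), so `Λ.weierstrassP (φ z) - 1/12 = XC ⊤ z/a²`, `Λ.derivWeierstrassP (φ z) = (wdC ⊤ z/w₀)/a³`: the last claim. -/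
def S_LaF : Prop := ∀ (k t : ℕ) [SqT k t], fr (⊤ : Ideal (OO k t)) ≠ 0 ∧
  AC (⊤ : Ideal (OO k t)) ≠ 0 ∧ io (aO (⊤ : Ideal (OO k t))) = AC (⊤ : Ideal (OO k t)) ∧
  ∃ Λ : PeriodPair, IsTW Λ (io (kaO k t)) ∧
    (∀ z : ℂ, z ∈ Lam (⊤ : Ideal (OO k t)) ↔ fr (⊤ : Ideal (OO k t)) * z ∈ Λ.lattice) ∧
    ∀ z : ℂ, YC k t z = AC (⊤ : Ideal (OO k t)) ^ 3 *
      ((Λ.derivWeierstrassP (fr (⊤ : Ideal (OO k t)) * z) -
        (Λ.weierstrassP (fr (⊤ : Ideal (OO k t)) * z) - 1 / 12) - io (kaO k t)) / 2)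

/-- MODULE `uA` (70 lines; from `S_Lead`). THE FUNCTION `u = φ A` OF `q`. Adapt `DK/F/uA.lean`. PROOF. `uA q = ∑' io (aF n) q ^ n`, convergent for `‖q‖ < 1` (`S_Lead`; every `q`, `0 < ‖q‖ < 1`, is `ex z`), `DI.F.tTay` (2): analytic at `0`, `tay uA = map io (uF ..)`; `aF 0 = 0`;
`deriv uA 0` is the first coefficient `io (aF 1) ≠ 0`. -/
def S_uA : Prop := ∀ (k t : ℕ) [SqT k t] (f : ℕ) (m : Ideal (OO k t)) (R : Finset (Ideal (OO k t))),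
  FM f m → FR f R → IsRC (cnd k t f) R → ∀ σ : Ideal (OO k t) → Gal(Om/ℚ), IsSig k t f σ →
  ∀ (N0 : ℕ) (β : Om), β ∈ Kf k t f → aF f m R σ N0 β 1 ≠ 0 →
  ∃ uA : ℂ → ℂ, Co ((Kf k t f).toSubfield.map io) uA ∧ uA 0 = 0 ∧
    deriv uA 0 ≠ 0 ∧ tay uA = PowerSeries.map io (uF f m R σ N0 β) ∧
    ∀ z : ℂ, 0 < z.im → uA (ex z) = fr (⊤ : Ideal (OO k t)) * AF f m R σ N0 β z

/-- MODULE `KL` (40 lines; from `S_B7`, `S_R5`). FIELD OF DEFINITION. Adapt `DK/F/KL.lean`. PROOF. `aO ⊤ ∈ Kf`: `kf_mem`; `Psi τ (cnd k t f) a`, `Ray (cnd k t f) a ⊤`: `τ (aO ⊤) = aO (a * ⊤) = aO a` (`Psi.aa`), and `aO a = aO ⊤` because `sp α * a = sp α' * ⊤` (`ray_norm`), `AC (sp α * a) = AC a` (`S_B7`).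
`aO ⊤ ≠ 0` (`S_R5` with `m = b = b' = ⊤`). -/
def S_KL : Prop := ∀ (k t : ℕ) [SqT k t] (f : ℕ), Fok f →
  aO (⊤ : Ideal (OO k t)) ∈ Kf k t f ∧ aO (⊤ : Ideal (OO k t)) ≠ 0 ∧ kaO k t ∈ Kf k t f

/-- MODULE `Hex` (220 lines; from `S_Kf`, `S_TWg`, `S_TWc`, `S_Cub`, `S_Mer`, `S_LaF`, `S_uA`, `S_KL`). THE EXPANSION OF `G(A)`. Adapt `DK/F/PsE.lean` and `DK/F/F3c.lean` (their private lemmas, e.g. `PsE_twr`). PROOF. `K = (Kf k t f).toSubfield.map io`, `φ = fr ⊤`, `ka = io (kaO k t) ∈ K`, `a = AC ⊤ ∈ K`, `a ≠ 0`, `Λ` from `S_LaF`, `uA` from `S_uA`,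
`tt`, `ww` from `S_TWg`. (1) `F u = u * G (u/φ)` is meromorphic at `0` (`IsG.mer` at `0`, composition with `u ↦ u/φ`), and for small `u ≠ 0`: `u ∉ Λ.lattice`, so `u/φ ∉ Lam ⊤`, `F u ^ 3 = u³ YC (u/φ) = u³ a³ (-1/Wg Λ ka u) = -a³ (ww u)⁻¹` (`S_LaF`, `S_TWg`), `E u = -a³ (ww u)⁻¹` is analytic,
`E 0 = -a³ ≠ 0`. `S_Mer`: `g` analytic at `0`, `g 0 ≠ 0`, `F u = g u` for small `u ≠ 0`. (2) `h q = g (uA q) * (dslope uA 0 q)⁻¹`, analytic at `0`, `h 0 = g 0 * (deriv uA 0)⁻¹ ≠ 0` (`dslope uA 0 0 = deriv uA 0 ≠ 0`, `S_Co` (6): `uA q = q * dslope uA 0 q`). For small `q ≠ 0` (`uA q ≠ 0`: `DI.F.F3coreAux.near`): `h q = q * G (uA q/φ)`. For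
`im z > Y` (`Y ≥ 0`, so that `ex z ≠ 0` is small: `norm_ex` as in `DK/F/PsE.lean`): `h (ex z) = ex z * G (AF .. z)` (`uA (ex z) = φ * AF z`). (3) `h q ^ 3 = -a³ ((dslope uA 0 q)³ ww (uA q))⁻¹` near `0` (for `q ≠ 0` small by (1), both sides are continuous): `Co K` of the right side, so `Cf K (tay h ^ 3)` (`S_Tay`: products), and, with
`Wg Λ ka (uA q) = (uA q)³ ww (uA q)`: `tay h ^ 3 * tay (fun q => Wg Λ ka (uA q)) = C (-a³) * X ^ 3`. (4) `h 0 ^ 3 ∈ K` consists of algebraic numbers, so `h 0 = io s` for an `s : Om` (`exists_io`, `IsAlgebraic`: a root of `X³ - c`); `L = Kf k t f ⊔ IntermediateField.adjoin ℚ {s}` is finite dimensional (`S_Kf` (1), `s` is algebraic over `ℚ`,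
`IntermediateField.finiteDimensional_sup`). `K ≤ L.toSubfield.map io`, `S_Cub` for `L.toSubfield.map io`: `Cf _ (tay h)`. (5) `lift` (`DI.F.PsiExpAux.lift`): `T`, `W` with `map io T = tay (Tg ∘ uA)`, .. (`S_TWc`), `H` with `map io H = tay h`, coefficients in `L`; `TWr` and the cube relation by `pmap_inj`. -/
def S_Hex : Prop := ∀ (k t : ℕ) [SqT k t] (f : ℕ) (m : Ideal (OO k t)) (R : Finset (Ideal (OO k t))),
  FM f m → FR f R → IsRC (cnd k t f) R → ∀ σ : Ideal (OO k t) → Gal(Om/ℚ), IsSig k t f σ →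
  ∀ (N0 : ℕ) (β : Om), β ∈ Kf k t f → aF f m R σ N0 β 1 ≠ 0 →
  ∀ (G : ℂ → ℂ) (om : ℂ), IsG k t G om →
  ∃ (T W H : PowerSeries Om) (L : IntermediateField ℚ Om) (h : ℂ → ℂ) (Y : ℝ),
    TWr (kaO k t) (uF f m R σ N0 β) T W ∧ FiniteDimensional ℚ L ∧
    (∀ n, PowerSeries.coeff n H ∈ L) ∧ PowerSeries.coeff 0 H ≠ 0 ∧
    H ^ 3 * W = PowerSeries.C (-(aO (⊤ : Ideal (OO k t))) ^ 3) * PowerSeries.X ^ 3 ∧
    AnalyticAt ℂ h 0 ∧ tay h = PowerSeries.map io H ∧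
    ∀ z : ℂ, Y < z.im → h (ex z) = ex z * G (AF f m R σ N0 β z)

/-- MODULE `PsE` (150 lines; from `S_Cjt`, `S_Hex`). THE EXPANSION OF `Ψ`. PROOF. `T, W, H, L, h, Y` from `S_Hex`, `a = aO ⊤`, `Hc = cjS c H`, `Wc = cjS c W` (`cjS c` is the ring homomorphism `PowerSeries.map c`): `Hc ^ 3 * Wc = C (-(c a) ^ 3) * X ^ 3`. `hc = cjf h`: analytic at `0`, `tay hc = map conj (map io H) = map io Hc` (`S_Cjt`, `IsCj`). For `im z > Y`, `z' = -conj z`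
(`im z' = im z`): `ex z' = conj (ex z)`, so `hc (ex z) = conj (h (ex z')) = conj (ex z' * G (AF z')) = ex z * conj (G (AF (-conj z)))`. `L' = L ⊔ c(L)` (`IntermediateField.map`, finite dimensional), the coefficients of `H`, `Hc` are in `L'`. `a ≠ 0` (otherwise `H ^ 3 * W = 0`, but `H ≠ 0` and `W ≠ 0`: `TWr.W3`, coefficient `1` of `uF` is `aF 1 ≠ 0`).
CASE `e = -1`: `Z = Wc`, `ψ = H * Hc`, `γ = (a * c a) ^ 3`, `j = 2`: `ψ ^ 3 * W * Z = (H ^ 3 * W) * (Hc ^ 3 * Wc) = C γ * X ^ 6`; `ex z ^ 2 * PsG = h (ex z) * hc (ex z)`, `tay (h * hc) = map io ψ`. CASE `e = 1`: `Z = C (-(c a)⁻¹ ^ 3) * X ^ 3 * Hc ^ 3`, `Z * Wc = X ^ 6`; `ψ = H * Hc⁻¹` (`PowerSeries` over a field, `coeff 0 Hc = c (coeff 0 H) ≠ 0`,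
`PowerSeries.mul_inv_cancel`), `γ = (a / c a) ^ 3`, `j = 0`: `ψ ^ 3 * W * Z = (H ^ 3 * W) * C (-(c a)⁻¹ ^ 3) * X ^ 3 = C γ * X ^ 6`; coefficients of `Hc⁻¹` in `L'` (strong induction, `PowerSeries.coeff_inv`, or: `Co` and `S_Co` (4)). `hc 0 ≠ 0`, so `s q = h q * (hc q)⁻¹` is analytic, `tay s * tay hc = tay h` (`S_Tay`), `tay s = map io ψ`. For `im z > Y'`
(`ex z` small, so `hc (ex z) ≠ 0`): `PsG = G (AF z) * (conj (G (AF (-conj z))))⁻¹ = s (ex z)` (`ex z ≠ 0` cancels). In both cases `S_Tay` (1) at `q = ex z` gives `HasSum` for `im z` large (`norm_ex`, as in `DK/F/PsE.lean`), `ψ ≠ 0` as `coeff 0 ψ ≠ 0`. -/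
def S_PsE : Prop := ∀ (k t : ℕ) [SqT k t] (f : ℕ) (m : Ideal (OO k t)) (R : Finset (Ideal (OO k t))),
  FM f m → FR f R → IsRC (cnd k t f) R → ∀ σ : Ideal (OO k t) → Gal(Om/ℚ), IsSig k t f σ →
  ∀ c : Gal(Om/ℚ), IsCj c → ∀ (N0 : ℕ) (β : Om), β ∈ Kf k t f → aF f m R σ N0 β 1 ≠ 0 →
  ∀ e : ℤ, (e = 1 ∨ e = -1) → ∀ (G : ℂ → ℂ) (om : ℂ), IsG k t G om →
  ∃ (T W Z ψ : PowerSeries Om) (γ : Om) (Y : ℝ) (j : ℕ) (L : IntermediateField ℚ Om),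
    FiniteDimensional ℚ L ∧ (∀ n, PowerSeries.coeff n ψ ∈ L) ∧
    TWr (kaO k t) (uF f m R σ N0 β) T W ∧ (Z = cjS c W ∨ Z * cjS c W = PowerSeries.X ^ 6) ∧
    ψ ≠ 0 ∧ γ ≠ 0 ∧ ψ ^ 3 * W * Z = PowerSeries.C γ * PowerSeries.X ^ 6 ∧
    ∀ z : ℂ, Y < z.im → HasSum (fun n : ℕ => io (PowerSeries.coeff n ψ) * ex z ^ n)
      (ex z ^ j * PsG G f m R σ N0 β e z)

/-- **`S_Psi`** (complete). -/
theorem sPsi (hG : S_Gt) (hP : S_PsG) (hE : S_PsE) : S_Psi := by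
  intro k t _ f M m R hm hR hRC hlv σ hσ c hc N0 β hβ h1 e he
  obtain ⟨G, om, hGo⟩ := hG k t
  obtain ⟨a1, a2, a3⟩ := hP k t f M m R hm hR hlv σ N0 β e he G om hGo
  exact ⟨PsG G f m R σ N0 β e, a1, a2, a3, hE k t f m R hm hR hRC σ hσ c hc N0 β hβ h1 e he G om hGo⟩

end Pool.Agent.DT.F
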